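import Pool.Agent.N700.SE.UPD

/-!
# Choice of the parameters, asymptotics
-/

set_option autoImplicit false

open Filter Topology

namespace Pool.Agent.T9h62.KPZ

open Pool.Agent.N700.SE.UPD (ev_pow ev_log)

lemma params {b t ξ s : ℝ} (hs : 0 < s) (hb0 : 0 < b) (hξ0 : 0 < ξ) (ht0 : 0 < t) (htξ : t < ξ)
    (hξ1 : ξ < 1) (hbt : (1 + s) * b < t + s * t / ξ) :
    ∃ κ c1 ρ τ : ℝ, 0 < κ ∧ κ < 1 ∧ ξ < c1 ∧ κ * c1 < τ ∧ 0 < ρ ∧ b - ρ < τ ∧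
      b - ρ < κ - ρ * (1 + 1 / s) ∧ κ * c1 < κ - ρ * (1 + 1 / s) ∧ 0 < τ ∧ τ < t := by
  have htξ1 : t / ξ < 1 := (div_lt_one hξ0).2 htξ
  have ht1 : t < t / ξ := by
    rw [lt_div_iff₀ hξ0]
    nlinarith
  have k1 : b < t / ξ := by
    have h1 : (1 + s) * b < (1 + s) * (t / ξ) := by
      have : s * t / ξ = s * (t / ξ) := by ring
      rw [this] at hbt
      nlinarith
    exact lt_of_mul_lt_mul_left h1 (by linarith)
  have k2 : ((1 + s) * b - t) / s < t / ξ := by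
    rw [div_lt_iff₀ hs]
    have : s * t / ξ = t / ξ * s := by ring
    linarith
  obtain ⟨κ, hκ1, hκ2⟩ := exists_between (max_lt k1 k2)
  have hκ3 := max_lt_iff.1 hκ1
  have hκ0 : 0 < κ := hb0.trans hκ3.1
  have hκb := hκ3.2
  rw [div_lt_iff₀ hs] at hκb
  have c2 : ξ < t / κ := by
    rw [lt_div_iff₀ hκ0]
    rw [lt_div_iff₀ hξ0] at hκ2
    linarith
  obtain ⟨c1, hc1, hc2⟩ := exists_between (lt_min c2 hξ1)
  have hc3 := lt_min_iff.1 hc2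
  have hκc : κ * c1 < t := by
    have := hc3.1
    rw [lt_div_iff₀ hκ0] at this
    linarith
  have h1s : 0 < 1 + s := by linarith
  have r1 : max 0 (b - t) < min (s * (κ - b)) (κ * (1 - c1) * s / (1 + s)) := by
    apply max_lt
    · apply lt_min
      · exact mul_pos hs (by linarith)
      · exact div_pos (mul_pos (mul_pos hκ0 (by linarith)) hs) h1s
    · apply lt_min
      · nlinarith
      · rw [lt_div_iff₀ h1s]
        nlinarith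
  obtain ⟨ρ, hρ1, hρ2⟩ := exists_between r1
  have hρ3 := max_lt_iff.1 hρ1
  have hρ4 := lt_min_iff.1 hρ2
  obtain ⟨τ, hτ1, hτ2⟩ := exists_between (max_lt (show b - ρ < t by linarith) hκc)
  have hτ3 := max_lt_iff.1 hτ1
  refine ⟨κ, c1, ρ, τ, hκ0, by linarith, hc1, hτ3.2, hρ3.1, hτ3.1, ?_, ?_, ?_, hτ2⟩
  · have h1 : ρ / s < κ - b := by
      rw [div_lt_iff₀ hs]
      linarith [hρ4.1]
    have h2 : ρ * (1 + 1 / s) = ρ + ρ / s := by ring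
    linarith
  · have h1 := hρ4.2
    rw [lt_div_iff₀ h1s] at h1
    have h2 : ρ * (1 + s) / s < κ * (1 - c1) := by
      rw [div_lt_iff₀ hs]
      linarith
    have h3 : ρ * (1 + 1 / s) = ρ * (1 + s) / s := by
      field_simp
      ring
    linarith
  · have : 0 < κ * c1 := mul_pos hκ0 (by linarith)
    linarith [hτ3.2]

lemma floor_ge {n : ℕ} (hn : 1 ≤ n) {κ : ℝ} (hκ : 0 ≤ κ) :
    1 ≤ ⌊(n : ℝ) ^ κ⌋₊ ∧ (n : ℝ) ^ κ / 2 ≤ (⌊(n : ℝ) ^ κ⌋₊ : ℝ) ∧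
      (⌊(n : ℝ) ^ κ⌋₊ : ℝ) ≤ (n : ℝ) ^ κ := by
  have h1 : (1 : ℝ) ≤ (n : ℝ) ^ κ := Real.one_le_rpow (by exact_mod_cast hn) hκ
  have h2 : 1 ≤ ⌊(n : ℝ) ^ κ⌋₊ := by
    rw [Nat.le_floor_iff (by positivity)]
    exact_mod_cast h1
  have h3 := Nat.lt_floor_add_one ((n : ℝ) ^ κ)
  have h4 : (1 : ℝ) ≤ (⌊(n : ℝ) ^ κ⌋₊ : ℝ) := by exact_mod_cast h2
  exact ⟨h2, by linarith, Nat.floor_le (by positivity)⟩

/-- the bad events have small probability -/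
lemma bad_small {κ ε α C0 : ℝ} (hκ0 : 0 < κ) (hκ1 : κ < 1) (hε : 0 < ε) (hα : 0 < α) (M0 : ℕ) :
    ∀ᶠ n : ℕ in atTop, ∀ q r : ℕ, q = n / 2 → q + r = n →
      2 * (1 / (n : ℝ) ^ 12) + 2 * (1 / (q : ℝ) ^ 12) +
      (2 * ((M0 * n : ℕ) : ℝ) + 1) * (2 * (1 / (r : ℝ) ^ 12)) +
      3 * ((q : ℝ) + r + 1) * (2 * ((M0 * n : ℕ) : ℝ) + 1) * ((⌊(n : ℝ) ^ κ⌋₊ : ℝ) + 1) *
        (|C0| * Real.exp (-(α * (⌊(n : ℝ) ^ κ⌋₊ : ℝ) ^ ε))) ≤ 1 / (n : ℝ) ^ 8 := by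
  set A : ℝ := 2 + 2 * 3 ^ 12 + 3 * (M0 + 1) * (2 * 3 ^ 12) with hA
  set B : ℝ := 72 * (M0 + 1) * |C0| + 1 with hB
  have hB1 : 1 ≤ B := by
    have : 0 ≤ 72 * ((M0 : ℝ) + 1) * |C0| := by positivity
    linarith
  have ha : 0 < α / 2 ^ ε := by positivity
  filter_upwards [eventually_ge_atTop 6, tendsto_natCast_atTop_atTop.eventually_ge_atTop (2 * A),
    ev_log B (κ * ε / 2) (by linarith) (by positivity),
    ev_pow (12 / (α / 2 ^ ε)) (κ * ε / 2) (κ * ε) (by nlinarith [mul_pos hκ0 hε])]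
    with n hn6 hnA e1 e2 q r hq hqr
  have hn1 : 1 ≤ n := by omega
  have hnR : (6 : ℝ) ≤ n := by exact_mod_cast hn6
  have hn0 : (0 : ℝ) < n := by linarith
  obtain ⟨t1, t2, t3⟩ := floor_ge hn1 hκ0.le
  set T := ⌊(n : ℝ) ^ κ⌋₊ with hT
  have hnκ : (n : ℝ) ^ κ ≤ n := by
    calc (n : ℝ) ^ κ ≤ (n : ℝ) ^ (1 : ℝ) :=
          Real.rpow_le_rpow_of_exponent_le (by linarith) hκ1.le
      _ = n := Real.rpow_one _
  have hq3 : (n : ℝ) / 3 ≤ q := by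
    have : n ≤ 3 * q := by omega
    have : (n : ℝ) ≤ 3 * q := by exact_mod_cast this
    linarith
  have hr3 : (n : ℝ) / 3 ≤ r := by
    have : n ≤ 3 * r := by omega
    have : (n : ℝ) ≤ 3 * r := by exact_mod_cast this
    linarith
  have hqrR : (q : ℝ) + r = n := by exact_mod_cast hqr
  have inv12 : ∀ x : ℝ, (n : ℝ) / 3 ≤ x → 1 / x ^ 12 ≤ 3 ^ 12 / (n : ℝ) ^ 12 := by
    intro x hx
    have h1 : ((n : ℝ) / 3) ^ 12 ≤ x ^ 12 := pow_le_pow_left₀ (by positivity) hx 12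
    have h2 : (0 : ℝ) < ((n : ℝ) / 3) ^ 12 := by positivity
    calc 1 / x ^ 12 ≤ 1 / ((n : ℝ) / 3) ^ 12 := one_div_le_one_div_of_le h2 h1
      _ = 3 ^ 12 / (n : ℝ) ^ 12 := by rw [div_pow]; field_simp
  have i1 := inv12 q hq3
  have i2 := inv12 r hr3
  have hM : 2 * ((M0 * n : ℕ) : ℝ) + 1 ≤ 3 * (M0 + 1) * n := by
    push_cast
    have : 0 ≤ (M0 : ℝ) := Nat.cast_nonneg _
    nlinarith
  have hM0 : 0 ≤ 2 * ((M0 * n : ℕ) : ℝ) + 1 := by positivity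
  -- the first part
  have f1 : 2 * (1 / (n : ℝ) ^ 12) + 2 * (1 / (q : ℝ) ^ 12) +
      (2 * ((M0 * n : ℕ) : ℝ) + 1) * (2 * (1 / (r : ℝ) ^ 12)) ≤ 1 / (n : ℝ) ^ 8 / 2 := by
    have g1 : (2 * ((M0 * n : ℕ) : ℝ) + 1) * (2 * (1 / (r : ℝ) ^ 12)) ≤
        3 * (M0 + 1) * n * (2 * (3 ^ 12 / (n : ℝ) ^ 12)) := by
      apply mul_le_mul hM (by linarith) (by positivity) (by positivity)
    have g2 : 2 * (1 / (n : ℝ) ^ 12) + 2 * (3 ^ 12 / (n : ℝ) ^ 12) +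
        3 * (M0 + 1) * n * (2 * (3 ^ 12 / (n : ℝ) ^ 12)) ≤ A / (n : ℝ) ^ 11 := by
      have e : 2 * (1 / (n : ℝ) ^ 12) + 2 * (3 ^ 12 / (n : ℝ) ^ 12) +
        3 * (M0 + 1) * n * (2 * (3 ^ 12 / (n : ℝ) ^ 12)) =
        ((2 + 2 * 3 ^ 12) / n + 3 * (M0 + 1) * (2 * 3 ^ 12)) / (n : ℝ) ^ 11 := by
        field_simp
      rw [e]
      apply div_le_div_of_nonneg_right _ (by positivity)
      have : (2 + 2 * 3 ^ 12) / (n : ℝ) ≤ 2 + 2 * 3 ^ 12 := div_le_self (by norm_num) (by linarith)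
      linarith
    have g3 : A / (n : ℝ) ^ 11 ≤ 1 / (n : ℝ) ^ 8 / 2 := by
      rw [div_div, div_le_div_iff₀ (by positivity) (by positivity)]
      have g4 : 2 * A ≤ (n : ℝ) ^ 3 := by
        calc 2 * A ≤ n := hnA
          _ = (n : ℝ) ^ 1 := (pow_one _).symm
          _ ≤ (n : ℝ) ^ 3 := pow_le_pow_right₀ (by linarith) (by norm_num)
      calc A * ((n : ℝ) ^ 8 * 2) = 2 * A * (n : ℝ) ^ 8 := by ring
        _ ≤ (n : ℝ) ^ 3 * (n : ℝ) ^ 8 := mul_le_mul_of_nonneg_right g4 (by positivity)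
        _ = 1 * (n : ℝ) ^ 11 := by ring
    linarith
  -- the second part
  have f2 : 3 * ((q : ℝ) + r + 1) * (2 * ((M0 * n : ℕ) : ℝ) + 1) * ((T : ℝ) + 1) *
        (|C0| * Real.exp (-(α * (T : ℝ) ^ ε))) ≤ 1 / (n : ℝ) ^ 8 / 2 := by
    rw [hqrR]
    have g1 : 3 * ((n : ℝ) + 1) * (2 * ((M0 * n : ℕ) : ℝ) + 1) * ((T : ℝ) + 1) ≤
        36 * (M0 + 1) * (n : ℝ) ^ 3 := by
      calc 3 * ((n : ℝ) + 1) * (2 * ((M0 * n : ℕ) : ℝ) + 1) * ((T : ℝ) + 1) ≤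
          3 * (2 * n) * (3 * (M0 + 1) * n) * (2 * n) := by
            apply mul_le_mul _ (by linarith) (by positivity) (by positivity)
            apply mul_le_mul (by linarith) hM hM0 (by positivity)
        _ = _ := by ring
    have g2 : α / 2 ^ ε * (n : ℝ) ^ (κ * ε) ≤ α * (T : ℝ) ^ ε := by
      have h1 : ((n : ℝ) ^ κ / 2) ^ ε ≤ (T : ℝ) ^ ε := Real.rpow_le_rpow (by positivity) t2 hε.le
      rw [Real.div_rpow (by positivity) (by norm_num), ← Real.rpow_mul hn0.le] at h1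
      calc α / 2 ^ ε * (n : ℝ) ^ (κ * ε) = α * ((n : ℝ) ^ (κ * ε) / 2 ^ ε) := by ring
        _ ≤ _ := mul_le_mul_of_nonneg_left h1 hα.le
    have g3 : 12 * Real.log (B * (n + 1)) ≤ α * (T : ℝ) ^ ε := by
      refine le_trans ?_ g2
      have h1 : 12 / (α / 2 ^ ε) * (n : ℝ) ^ (κ * ε / 2) ≤ (n : ℝ) ^ (κ * ε) := e2
      have h2 := mul_le_mul_of_nonneg_left h1 ha.le
      have h3 : α / 2 ^ ε * (12 / (α / 2 ^ ε) * (n : ℝ) ^ (κ * ε / 2)) =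
          12 * (n : ℝ) ^ (κ * ε / 2) := by
        field_simp
      rw [h3] at h2
      linarith
    have g4 : Real.exp (-(α * (T : ℝ) ^ ε)) ≤ 1 / (B * (n + 1)) ^ 12 := by
      have h1 : 0 < B * ((n : ℝ) + 1) := by positivity
      have h2 : Real.exp (-(12 * Real.log (B * (n + 1)))) = 1 / (B * (n + 1)) ^ 12 := by
        rw [Real.exp_neg, one_div]
        congr 1
        rw [show (12 : ℝ) * Real.log (B * (n + 1)) = Real.log ((B * (n + 1)) ^ 12) by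
          rw [Real.log_pow]; norm_num, Real.exp_log (by positivity)]
      rw [← h2]
      apply Real.exp_le_exp.2
      linarith
    have g5 : 1 / (B * ((n : ℝ) + 1)) ^ 12 ≤ 1 / (B * (n : ℝ) ^ 12) := by
      apply one_div_le_one_div_of_le (by positivity)
      rw [mul_pow]
      apply mul_le_mul _ _ (by positivity) (by positivity)
      · calc B = B ^ 1 := (pow_one _).symm
          _ ≤ B ^ 12 := pow_le_pow_right₀ hB1 (by norm_num)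
      · exact pow_le_pow_left₀ hn0.le (by linarith) 12
    calc 3 * ((n : ℝ) + 1) * (2 * ((M0 * n : ℕ) : ℝ) + 1) * ((T : ℝ) + 1) *
        (|C0| * Real.exp (-(α * (T : ℝ) ^ ε))) ≤
        36 * (M0 + 1) * (n : ℝ) ^ 3 * (|C0| * (1 / (B * (n : ℝ) ^ 12))) := by
          apply mul_le_mul g1 _ (by positivity) (by positivity)
          exact mul_le_mul_of_nonneg_left (g4.trans g5) (abs_nonneg _)
      _ = (72 * (M0 + 1) * |C0| / B) * (1 / (n : ℝ) ^ 9) / 2 := by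
          field_simp
          ring
      _ ≤ 1 * (1 / (n : ℝ) ^ 8) / 2 := by
          apply div_le_div_of_nonneg_right _ (by norm_num)
          apply mul_le_mul _ _ (by positivity) (by norm_num)
          · rw [div_le_one (by positivity)]
            linarith
          · apply one_div_le_one_div_of_le (by positivity)
            exact pow_le_pow_right₀ (by linarith) (by norm_num)
      _ = _ := by ring
  linarith

/-- the numerical conditions -/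
lemma numer {b ξ s κ c1 ρ τ c C1 v0 lam0 : ℝ} (hb1 : b < 1)
    (hξ0 : 0 < ξ) (hκ0 : 0 < κ) (hκ1 : κ < 1) (hξc : ξ < c1) (hκτ : κ * c1 < τ) (hρ : 0 < ρ)
    (hbρ : b - ρ < τ) (e1 : b - ρ < κ - ρ * (1 + 1 / s)) (e2 : κ * c1 < κ - ρ * (1 + 1 / s))
    (hτ : 0 < τ) (hc : 0 < c) (hC1 : 0 ≤ C1) (hl0 : 0 < lam0) :
    ∀ᶠ n : ℕ in atTop, ∀ q r : ℕ, q = n / 2 → q + r = n →
      ⌊(n : ℝ) ^ κ⌋₊ ≤ r ∧
      q * |v0| + (n : ℝ) ^ b + (⌊(n : ℝ) ^ κ⌋₊ : ℝ) ≤ (((⌈|v0|⌉₊ + 2) * n : ℕ) : ℝ) ∧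
      (n : ℝ) ^ (-ρ) ≤ lam0 ∧
      (n : ℝ) ^ (-ρ) * (3 * (n : ℝ) ^ b) + 2 * ((⌊(n : ℝ) ^ κ⌋₊ : ℝ) ^ c1 +
        C1 * (⌊(n : ℝ) ^ κ⌋₊ : ℝ) ^ ξ * Real.log ((⌊(n : ℝ) ^ κ⌋₊ : ℝ) + 1)) + Real.log 2 ≤
        c * (⌊(n : ℝ) ^ κ⌋₊ : ℝ) * ((n : ℝ) ^ (-ρ)) ^ (1 + 1 / s) ∧
      Real.log 2 + ((n : ℝ) ^ (-ρ) * (3 * (n : ℝ) ^ b + 1 + |v0|) +
        3 * ((⌊(n : ℝ) ^ κ⌋₊ : ℝ) ^ c1 +
          C1 * (⌊(n : ℝ) ^ κ⌋₊ : ℝ) ^ ξ * Real.log ((⌊(n : ℝ) ^ κ⌋₊ : ℝ) + 1)) +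
        Real.log (8 * ((⌊(n : ℝ) ^ κ⌋₊ : ℝ) + 1) ^ 3)) ≤ (n : ℝ) ^ τ := by
  set p : ℝ := κ - ρ * (1 + 1 / s) with hp
  have hc10 : 0 < c1 := hξ0.trans hξc
  have hκc : 0 < κ * c1 := mul_pos hκ0 hc10
  have hp0 : 0 < p := hκc.trans e2
  filter_upwards [eventually_ge_atTop 1, ev_pow 4 κ 1 hκ1, ev_pow 1 b 1 hb1,
    ev_pow (1 / lam0) (-ρ) 0 (by linarith), ev_log 1 (κ * (c1 - ξ)) one_pos
      (mul_pos hκ0 (by linarith)),
    ev_pow (3 * (3 / (c / 2))) (b - ρ) p e1, ev_pow (3 * (2 * (1 + C1) / (c / 2))) (κ * c1) p e2,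
    ev_pow (3 * (Real.log 2 / (c / 2))) 0 p hp0, ev_pow (6 * 3) (b - ρ) τ hbρ,
    ev_pow (6 * (3 * (1 + C1))) (κ * c1) τ hκτ,
    ev_pow (6 * (1 + |v0|)) 0 τ hτ, ev_pow (6 * Real.log 2) 0 τ hτ,
    ev_log 8 (τ / 2) (by norm_num) (by linarith), ev_pow (6 * 3) (τ / 2) τ (by linarith)]
    with n hn1 a1 a2 a3 a4 a5 a6 a7 a8 a9 a10 a11 a12 a13 q r hq hqr
  have hnR : (1 : ℝ) ≤ n := by exact_mod_cast hn1
  have hn0 : (0 : ℝ) < n := by linarith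
  obtain ⟨t1, t2, t3⟩ := floor_ge hn1 hκ0.le
  set T := ⌊(n : ℝ) ^ κ⌋₊ with hT
  have hT1 : (1 : ℝ) ≤ T := by exact_mod_cast t1
  have hT0 : (0 : ℝ) < T := by linarith
  rw [Real.rpow_one] at a1 a2
  rw [one_mul] at a2 a4
  rw [Real.rpow_zero] at a3 a7 a10 a11
  rw [mul_one] at a7 a10 a11
  have hnκ : (n : ℝ) ^ κ ≤ n := by
    have : 0 ≤ (n : ℝ) ^ κ := by positivity
    linarith
  have hTn : (T : ℝ) ≤ n := t3.trans hnκ
  have hqrR : (q : ℝ) + r = n := by exact_mod_cast hqr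
  have hrn : (n : ℝ) / 2 ≤ r := by
    have : n ≤ 2 * r := by omega
    have : (n : ℝ) ≤ 2 * r := by exact_mod_cast this
    linarith
  have hlogT : Real.log ((T : ℝ) + 1) ≤ (n : ℝ) ^ (κ * (c1 - ξ)) := by
    refine le_trans (Real.log_le_log (by linarith) (by linarith)) a4
  have hlogT0 : 0 ≤ Real.log ((T : ℝ) + 1) := Real.log_nonneg (by linarith)
  set E : ℝ := (T : ℝ) ^ c1 + C1 * (T : ℝ) ^ ξ * Real.log ((T : ℝ) + 1) with hE
  have hE1 : E ≤ (1 + C1) * (n : ℝ) ^ (κ * c1) := by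
    have g1 : (T : ℝ) ^ c1 ≤ (n : ℝ) ^ (κ * c1) := by
      rw [Real.rpow_mul hn0.le]
      exact Real.rpow_le_rpow hT0.le t3 hc10.le
    have g2 : (T : ℝ) ^ ξ ≤ (n : ℝ) ^ (κ * ξ) := by
      rw [Real.rpow_mul hn0.le]
      exact Real.rpow_le_rpow hT0.le t3 hξ0.le
    have g3 : C1 * (T : ℝ) ^ ξ * Real.log ((T : ℝ) + 1) ≤ C1 * (n : ℝ) ^ (κ * c1) := by
      calc C1 * (T : ℝ) ^ ξ * Real.log ((T : ℝ) + 1) ≤
          C1 * (n : ℝ) ^ (κ * ξ) * (n : ℝ) ^ (κ * (c1 - ξ)) := by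
            apply mul_le_mul (mul_le_mul_of_nonneg_left g2 hC1) hlogT hlogT0 (by positivity)
        _ = C1 * (n : ℝ) ^ (κ * c1) := by
            rw [mul_assoc, ← Real.rpow_add hn0]
            congr 2
            ring
    rw [hE]
    linarith
  have hlb : (n : ℝ) ^ (-ρ) * (n : ℝ) ^ b = (n : ℝ) ^ (b - ρ) := by
    rw [← Real.rpow_add hn0]
    congr 1
    ring
  have hl1 : (n : ℝ) ^ (-ρ) ≤ 1 := Real.rpow_le_one_of_one_le_of_nonpos hnR (by linarith)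
  have hlpos : 0 < (n : ℝ) ^ (-ρ) := Real.rpow_pos_of_pos hn0 _
  refine ⟨?_, ?_, ?_, ?_, ?_⟩
  · have : (T : ℝ) ≤ r := by
      have : 0 ≤ (n : ℝ) ^ κ := by positivity
      linarith
    exact_mod_cast this
  · push_cast
    have g1 := Nat.le_ceil |v0|
    have g2 : (q : ℝ) * |v0| ≤ n * (⌈|v0|⌉₊ : ℝ) := by
      have hqn : (q : ℝ) ≤ n := by
        have : (0 : ℝ) ≤ r := Nat.cast_nonneg r
        linarith
      exact mul_le_mul hqn g1 (abs_nonneg _) hn0.le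
    nlinarith
  · rw [one_div, inv_mul_le_iff₀ hl0, mul_one] at a3
    exact a3
  · have g1 : c / 2 * (n : ℝ) ^ p ≤ c * (T : ℝ) * ((n : ℝ) ^ (-ρ)) ^ (1 + 1 / s) := by
      have g2 : ((n : ℝ) ^ (-ρ)) ^ (1 + 1 / s) = (n : ℝ) ^ (-(ρ * (1 + 1 / s))) := by
        rw [← Real.rpow_mul hn0.le]
        congr 1
        ring
      have g3 : (n : ℝ) ^ p = (n : ℝ) ^ κ * (n : ℝ) ^ (-(ρ * (1 + 1 / s))) := by
        rw [← Real.rpow_add hn0]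
        congr 1
      rw [g2, g3]
      have g4 : 0 ≤ (n : ℝ) ^ (-(ρ * (1 + 1 / s))) := by positivity
      calc c / 2 * ((n : ℝ) ^ κ * (n : ℝ) ^ (-(ρ * (1 + 1 / s)))) =
          c * ((n : ℝ) ^ κ / 2) * (n : ℝ) ^ (-(ρ * (1 + 1 / s))) := by ring
        _ ≤ _ := mul_le_mul_of_nonneg_right (mul_le_mul_of_nonneg_left t2 hc.le) g4
    refine le_trans ?_ g1
    have hc2 : 0 < c / 2 := by linarith
    have b1 := mul_le_mul_of_nonneg_left a5 hc2.le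
    have b2 := mul_le_mul_of_nonneg_left a6 hc2.le
    have b3 := mul_le_mul_of_nonneg_left a7 hc2.le
    have d1 : c / 2 * (3 * (3 / (c / 2)) * (n : ℝ) ^ (b - ρ)) = 3 * (3 * (n : ℝ) ^ (b - ρ)) := by
      field_simp
    have d2 : c / 2 * (3 * (2 * (1 + C1) / (c / 2)) * (n : ℝ) ^ (κ * c1)) =
        3 * (2 * ((1 + C1) * (n : ℝ) ^ (κ * c1))) := by
      field_simp
    have d3 : c / 2 * (3 * (Real.log 2 / (c / 2))) = 3 * Real.log 2 := by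
      field_simp
    rw [d1] at b1
    rw [d2] at b2
    rw [d3] at b3
    have d4 : (n : ℝ) ^ (-ρ) * (3 * (n : ℝ) ^ b) = 3 * (n : ℝ) ^ (b - ρ) := by
      rw [← hlb]
      ring
    rw [d4]
    linarith
  · have d4 : (n : ℝ) ^ (-ρ) * (3 * (n : ℝ) ^ b + 1 + |v0|) ≤
        3 * (n : ℝ) ^ (b - ρ) + (1 + |v0|) := by
      rw [← hlb]
      have : (n : ℝ) ^ (-ρ) * (1 + |v0|) ≤ 1 * (1 + |v0|) :=
        mul_le_mul_of_nonneg_right hl1 (by positivity)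
      calc (n : ℝ) ^ (-ρ) * (3 * (n : ℝ) ^ b + 1 + |v0|) =
          3 * ((n : ℝ) ^ (-ρ) * (n : ℝ) ^ b) + (n : ℝ) ^ (-ρ) * (1 + |v0|) := by ring
        _ ≤ _ := by linarith
    have d5 : Real.log (8 * ((T : ℝ) + 1) ^ 3) ≤ 3 * (n : ℝ) ^ (τ / 2) := by
      have g1 : Real.log (8 * ((T : ℝ) + 1) ^ 3) ≤ Real.log ((8 * ((n : ℝ) + 1)) ^ 3) := by
        apply Real.log_le_log (by positivity)
        rw [mul_pow]
        apply mul_le_mul (by norm_num) _ (by positivity) (by norm_num)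
        exact pow_le_pow_left₀ (by positivity) (by linarith) 3
      rw [Real.log_pow] at g1
      push_cast at g1
      linarith
    have d6 : 0 ≤ (n : ℝ) ^ τ := by positivity
    linarith

lemma err_small {τ τ' C : ℝ} (hτ : 0 < τ) (hττ : τ < τ') (hC : 0 ≤ C) :
    ∀ᶠ n : ℕ in atTop, Real.sqrt (((n : ℝ) ^ τ) ^ 2 + C) ≤ (n : ℝ) ^ τ' := by
  filter_upwards [eventually_ge_atTop 1, ev_pow (1 + C) (2 * τ) (2 * τ') (by linarith)]
    with n hn1 h1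
  have hnR : (1 : ℝ) ≤ n := by exact_mod_cast hn1
  have hn0 : (0 : ℝ) < n := by linarith
  apply Real.sqrt_le_iff.2
  refine ⟨by positivity, ?_⟩
  have e1 : ((n : ℝ) ^ τ) ^ 2 = (n : ℝ) ^ (2 * τ) := by
    rw [← Real.rpow_natCast, ← Real.rpow_mul hn0.le]
    congr 1
    push_cast
    ring
  have e2 : ((n : ℝ) ^ τ') ^ 2 = (n : ℝ) ^ (2 * τ') := by
    rw [← Real.rpow_natCast, ← Real.rpow_mul hn0.le]
    congr 1
    push_cast
    ring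
  rw [e1, e2]
  have h2 : (1 : ℝ) ≤ (n : ℝ) ^ (2 * τ) := Real.one_le_rpow hnR (by linarith)
  nlinarith

end Pool.Agent.T9h62.KPZ
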