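import Pool.Agent.T9h62.KPZ.Sub

/-!
# Directed polymers in dimension `1 + 1`: the probability of a bad environment
-/

set_option autoImplicit false

open MeasureTheory ProbabilityTheory Filter Topology

namespace Pool.Agent.T9h62.KPZ

open TH967.DP Pool.Agent.N662.SE
open Pool.Agent.N700.SE.UPD (ev_pow ev_log)

/-- the tube of radius `n^b` around the line of slope `v` -/
def tub (v : Fin 1 → ℝ) (b : ℝ) (n : ℕ) : Set (Fin n → Step 1) :=
  {w | ∀ i : ℕ, i ≤ n → ∀ k, |(pos w i k : ℝ) - i * v k| ≤ (n : ℝ) ^ b}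

/-- the good event -/
def GoodEv {Ω : Type} [MeasurableSpace Ω] (P : Measure Ω) (ω : ℕ → (Fin 1 → ℤ) → Ω → ℝ)
    (β : ℝ) (h v : Fin 1 → ℝ) (b lam c1 : ℝ) (q r T M : ℕ) (x : Ω) : Prop :=
  1 / 2 ≤ prob β h (fun i y => ω i y x) (q + r) (tub v b (q + r)) ∧
  1 / 2 ≤ prob β h (fun i y => ω i y x) q (tub v b q) ∧
  (∀ y : ℤ, |y| ≤ M → 1 / 2 ≤ prob β h (fun i z => ω (q + i) ((fun _ => y) + z) x) r
    (tub v b r)) ∧
  (∀ σ : ℤ, σ = 1 ∨ σ = 0 ∨ σ = -1 → ∀ m : ℕ, m ≤ q + r → ∀ y : ℤ, |y| ≤ M → ∀ j : ℕ, j ≤ T →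
    |lw ω β (h + Pi.single 0 (σ * lam)) m (fun _ => y) j x -
      free P ω β (h + Pi.single 0 (σ * lam)) j| ≤ (T : ℝ) ^ c1)

/-- the union bound -/
theorem bad_le (hc : S_CONC) (hi : S_ID) {Ω : Type} [MeasurableSpace Ω] {P : Measure Ω}
    [IsProbabilityMeasure P] {ω : ℕ → (Fin 1 → ℤ) → Ω → ℝ} (he : IsEnv P ω)
    (hexp : ∀ b : ℝ, Integrable (fun x => Real.exp (b * ω 1 0 x)) P) {β : ℝ}
    {U : Set (Fin 1 → ℝ)} {ξ α C0 : ℝ} (hξ : 0 < ξ) (hα : 0 < α) (hU : Conc P ω β U ξ α C0)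
    {h v : Fin 1 → ℝ} {b lam c1 : ℝ} {q r T M : ℕ} (hT : 1 ≤ T)
    (hlU : ∀ σ : ℤ, σ = 1 ∨ σ = 0 ∨ σ = -1 → h + Pi.single 0 (σ * lam) ∈ U) {δn δq δr : ℝ}
    (hδn0 : 0 ≤ δn) (hδq0 : 0 ≤ δq) (hδr0 : 0 ≤ δr)
    (hδn : 1 - δn ≤ ∫ x, prob β h (fun i y => ω i y x) (q + r) (tub v b (q + r)) ∂P)
    (hδq : 1 - δq ≤ ∫ x, prob β h (fun i y => ω i y x) q (tub v b q) ∂P)
    (hδr : 1 - δr ≤ ∫ x, prob β h (fun i y => ω i y x) r (tub v b r) ∂P) :
    P {x | ¬ GoodEv P ω β h v b lam c1 q r T M x} ≤ ENNReal.ofReal (2 * δn + 2 * δq +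
      (2 * M + 1) * (2 * δr) + 3 * (q + r + 1) * (2 * M + 1) * (T + 1) *
        (|C0| * Real.exp (-(α * (T : ℝ) ^ (c1 - ξ))))) := by
  classical
  set IM : Finset ℤ := Finset.Icc (-(M : ℤ)) M with hIM
  set Sg : Finset ℤ := {1, 0, -1} with hSg
  set Ix : Finset (ℤ × ℕ × ℤ × ℕ) :=
    Sg ×ˢ (Finset.range (q + r + 1) ×ˢ (IM ×ˢ Finset.range (T + 1))) with hIx
  have hsub : {x | ¬ GoodEv P ω β h v b lam c1 q r T M x} ⊆
      ({x | ¬ 1 / 2 ≤ prob β h (fun i y => ω (0 + i) (0 + y) x) (q + r) (tub v b (q + r))} ∪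
      {x | ¬ 1 / 2 ≤ prob β h (fun i y => ω (0 + i) (0 + y) x) q (tub v b q)}) ∪
      ((⋃ y ∈ IM, {x | ¬ 1 / 2 ≤ prob β h (fun i z => ω (q + i) ((fun _ => y) + z) x) r
        (tub v b r)}) ∪
      (⋃ t ∈ Ix, {x | (T : ℝ) ^ c1 ≤ |lw ω β (h + Pi.single 0 (t.1 * lam)) t.2.1
        (fun _ => t.2.2.1) t.2.2.2 x - free P ω β (h + Pi.single 0 (t.1 * lam)) t.2.2.2|})) := by
    intro x hx
    by_contra hno
    apply hx
    simp only [Set.mem_union, Set.mem_iUnion, not_or, not_exists] at hno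
    obtain ⟨⟨h1, h2⟩, h3, h4⟩ := hno
    refine ⟨?_, ?_, ?_, ?_⟩
    · have := not_not.1 h1
      simpa only [zero_add] using this
    · have := not_not.1 h2
      simpa only [zero_add] using this
    · intro y hy
      exact not_not.1 (h3 y (Finset.mem_Icc.2 (abs_le.1 hy)))
    · intro σ hσ m hm y hy j hj
      have h5 : (σ, m, y, j) ∈ Ix := by
        simp only [hIx, hSg, hIM, Finset.mem_product, Finset.mem_insert, Finset.mem_singleton,
          Finset.mem_range, Finset.mem_Icc]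
        exact ⟨hσ, by omega, abs_le.1 hy, by omega⟩
      exact (not_le.1 (h4 (σ, m, y, j) h5)).le
  have hcardM : (IM.card : ℝ) = 2 * M + 1 := by
    have : IM.card = 2 * M + 1 := by
      rw [hIM, Int.card_Icc]
      omega
    rw [this]
    push_cast
    ring
  have hcardS : Sg.card = 3 := by
    rw [hSg]
    decide
  have hcardI : (Ix.card : ℝ) = 3 * (q + r + 1) * (2 * M + 1) * (T + 1) := by
    rw [hIx, Finset.card_product, Finset.card_product, Finset.card_product, Finset.card_range,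
      Finset.card_range, hcardS]
    push_cast
    rw [hcardM]
    ring
  refine (measure_mono hsub).trans ?_
  have b1 := conf_shift le_rfl he β h (tub v b (q + r)) hδn 0 0
  have b2 := conf_shift le_rfl he β h (tub v b q) hδq 0 0
  have b3 : P (⋃ y ∈ IM, {x | ¬ 1 / 2 ≤ prob β h (fun i z => ω (q + i) ((fun _ => y) + z) x) r
        (tub v b r)}) ≤ ENNReal.ofReal ((2 * M + 1) * (2 * δr)) := by
    refine (measure_biUnion_finset_le _ _).trans ((Finset.sum_le_card_nsmul _ _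
      (ENNReal.ofReal (2 * δr)) ?_).trans ?_)
    · intro y _
      exact conf_shift le_rfl he β h (tub v b r) hδr q (fun _ => y)
    · rw [← hcardM, ENNReal.ofReal_mul (p := (IM.card : ℝ)) (Nat.cast_nonneg _), nsmul_eq_mul,
        ENNReal.ofReal_natCast]
  have b4 : P (⋃ t ∈ Ix, {x | (T : ℝ) ^ c1 ≤ |lw ω β (h + Pi.single 0 (t.1 * lam)) t.2.1
        (fun _ => t.2.2.1) t.2.2.2 x - free P ω β (h + Pi.single 0 (t.1 * lam)) t.2.2.2|}) ≤
      ENNReal.ofReal (3 * (q + r + 1) * (2 * M + 1) * (T + 1) *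
        (|C0| * Real.exp (-(α * (T : ℝ) ^ (c1 - ξ))))) := by
    refine (measure_biUnion_finset_le _ _).trans ((Finset.sum_le_card_nsmul _ _
      (ENNReal.ofReal (|C0| * Real.exp (-(α * (T : ℝ) ^ (c1 - ξ))))) ?_).trans ?_)
    · intro t ht
      simp only [hIx, hSg, hIM, Finset.mem_product, Finset.mem_insert, Finset.mem_singleton,
          Finset.mem_range, Finset.mem_Icc] at ht
      exact Pool.Agent.N427.SE.UPX.testX hc hi le_rfl P ω he hexp β hξ hα hU c1 T hT _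
        (hlU t.1 ht.1) t.2.1 (fun _ => t.2.2.1) t.2.2.2 (by omega)
    · rw [← hcardI, ENNReal.ofReal_mul (p := (Ix.card : ℝ)) (Nat.cast_nonneg _), nsmul_eq_mul,
        ENNReal.ofReal_natCast]
  refine (measure_union_le _ _).trans ((add_le_add ((measure_union_le _ _).trans
    (add_le_add b1 b2)) ((measure_union_le _ _).trans (add_le_add b3 b4))).trans ?_)
  rw [← ENNReal.ofReal_add (by positivity) (by positivity),
    ← ENNReal.ofReal_add (by positivity) (by positivity),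
    ← ENNReal.ofReal_add (by positivity) (by positivity)]
  apply ENNReal.ofReal_le_ofReal
  linarith

end Pool.Agent.T9h62.KPZ
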