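import Pool.Agent.T9h62.KPZ.Join

/-!
# Directed polymers in dimension `1 + 1`: two blocks
-/

set_option autoImplicit false

namespace Pool.Agent.T9h62.KPZ

open TH967.DP Pool.Agent.N662.SE
open Pool.Agent.N50.SE.SUP (wt wt_pos part_eq sum_split)

lemma even_pos {n : ℕ} (w : Fin n → Step 1) {i : ℕ} (hi : i ≤ n) : Even (pos w i 0 - i) := by
  induction i with
  | zero => rw [pos_zero]; simp
  | succ i ih =>
    have h1 := ih (by omega)
    rcases pos_succ_one w (show i < n by omega) with h2 | h2 <;> rw [h2] <;> push_cast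
    · have : pos w i 0 + 1 - (i + 1) = pos w i 0 - i := by ring
      rw [this]
      exact h1
    · have : pos w i 0 - 1 - (i + 1) = pos w i 0 - i - 2 := by ring
      rw [this]
      exact h1.sub even_two

/-- The partition function of `q + r` steps is almost the product of the partition functions of
the two blocks, if the second one does not depend much on the starting point. -/
theorem block {β : ℝ} {h : Fin 1 → ℝ} {η : ℕ → (Fin 1 → ℤ) → ℝ} {q r : ℕ} {v R J : ℝ}
    {y1 : Fin 1 → ℤ} (hy1 : Even (y1 0 - q))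
    (htn : 1 / 2 * part β h η (q + r) Set.univ ≤
      part β h η (q + r) {w | |(pos w q 0 : ℝ) - q * v| ≤ R})
    (htq : 1 / 2 * part β h η q Set.univ ≤
      part β h η q {w | |(pos w q 0 : ℝ) - q * v| ≤ R})
    (hJ : ∀ y : Fin 1 → ℤ, Even (y 0 - y1 0) → |(y 0 : ℝ) - q * v| ≤ R →
      |Real.log (part β h (shift q y η) r Set.univ) -
        Real.log (part β h (shift q y1 η) r Set.univ)| ≤ J) :
    |Real.log (part β h η (q + r) Set.univ) - Real.log (part β h η q Set.univ) -
      Real.log (part β h (shift q y1 η) r Set.univ)| ≤ Real.log 2 + J := by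
  set A : Set (Fin q → Step 1) := {w | |(pos w q 0 : ℝ) - q * v| ≤ R} with hA
  set X := Real.log (part β h (shift q y1 η) r Set.univ) with hX
  have p0 := part_univ_pos (le_refl 1) β h η (q + r)
  have p1 := part_univ_pos (le_refl 1) β h η q
  have hJ' : ∀ u ∈ A, Real.exp (X - J) ≤ part β h (shift q (pos u q) η) r Set.univ ∧
      part β h (shift q (pos u q) η) r Set.univ ≤ Real.exp (X + J) := by
    intro u hu
    have h1 := hJ (pos u q) (by
      have := (even_pos u le_rfl).sub hy1
      have e : pos u q 0 - q - (y1 0 - q) = pos u q 0 - y1 0 := by ring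
      rwa [e] at this) hu
    have p2 := part_univ_pos (le_refl 1) β h (shift q (pos u q) η) r
    rw [abs_le] at h1
    constructor
    · rw [← Real.exp_log p2]
      apply Real.exp_le_exp.2
      linarith
    · rw [← Real.exp_log p2]
      apply Real.exp_le_exp.2
      linarith
  have hsplit : part β h η (q + r) {w | |(pos w q 0 : ℝ) - q * v| ≤ R} =
      ∑ u : Fin q → Step 1, A.indicator
        (fun u => wt β h η u * part β h (shift q (pos u q) η) r Set.univ) u := by
    apply part_split
    intro u w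
    show |(pos (Fin.append u w) q 0 : ℝ) - q * v| ≤ R ↔ |(pos u q 0 : ℝ) - q * v| ≤ R
    rw [pos_append_left u w le_rfl]
  -- the upper bound
  have u1 : part β h η (q + r) Set.univ ≤ Real.exp (Real.log 2 + (X + J)) *
      part β h η q Set.univ := by
    have t1 : part β h η (q + r) {w | |(pos w q 0 : ℝ) - q * v| ≤ R} ≤
        Real.exp (X + J) * part β h η q Set.univ := by
      rw [hsplit, part_eq, Finset.mul_sum]
      apply Finset.sum_le_sum
      intro u _
      by_cases hu : u ∈ A
      · rw [Set.indicator_of_mem hu, mul_comm]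
        exact mul_le_mul_of_nonneg_right (hJ' u hu).2 (wt_pos _ _ _ _).le
      · rw [Set.indicator_of_notMem hu]
        exact mul_nonneg (Real.exp_pos _).le (wt_pos _ _ _ _).le
    rw [Real.exp_add, Real.exp_log (by norm_num)]
    linarith
  have u2 := Real.log_le_log p0 u1
  rw [Real.log_mul (Real.exp_pos _).ne' p1.ne', Real.log_exp] at u2
  -- the lower bound
  have l1 : Real.exp (-Real.log 2 + (X - J)) * part β h η q Set.univ ≤
      part β h η (q + r) Set.univ := by
    have t1 : Real.exp (X - J) * part β h η q A ≤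
        part β h η (q + r) {w | |(pos w q 0 : ℝ) - q * v| ≤ R} := by
      rw [hsplit, part_wt, Finset.mul_sum]
      apply Finset.sum_le_sum
      intro u _
      by_cases hu : u ∈ A
      · rw [Set.indicator_of_mem hu, Set.indicator_of_mem hu, mul_comm]
        exact mul_le_mul_of_nonneg_left (hJ' u hu).1 (wt_pos _ _ _ _).le
      · rw [Set.indicator_of_notMem hu, Set.indicator_of_notMem hu, mul_zero]
    have t2 := part_mono β h η
      (Set.subset_univ {w : Fin (q + r) → Step 1 | |(pos w q 0 : ℝ) - q * v| ≤ R})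
    have t3 := mul_le_mul_of_nonneg_left htq (Real.exp_pos (X - J)).le
    rw [Real.exp_add, Real.exp_neg, Real.exp_log (by norm_num)]
    linarith
  have l2 := Real.log_le_log (mul_pos (Real.exp_pos _) p1) l1
  rw [Real.log_mul (Real.exp_pos _).ne' p1.ne', Real.log_exp] at l2
  rw [abs_le]
  constructor <;> linarith

/-- the logarithmic form of `join`, in both directions -/
theorem join_log {β lam : ℝ} {h v : Fin 1 → ℝ} {η : ℕ → (Fin 1 → ℤ) → ℝ} {q : ℕ}
    (hl : 0 ≤ lam) {φ : (Fin 1 → ℝ) → ℝ} {T L : ℕ} (hTL : T ≤ L) {R D E : ℝ} (hR : 0 ≤ R)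
    (hE0 : 0 ≤ E) {S : Set (Fin 1 → ℤ)}
    (hS : ∀ y ∈ S, ∀ y' ∈ S, Even (y 0 - y' 0) ∧ |(y 0 : ℝ) - (y' 0 : ℝ)| + R ≤ D)
    (hconf : ∀ y ∈ S, 1 / 2 * part β h (shift q y η) L Set.univ ≤ part β h (shift q y η) L
      {w | ∀ i : ℕ, i ≤ L → ∀ k, |(pos w i k : ℝ) - i * v k| ≤ R})
    (hE1 : ∀ y ∈ S, ∀ τ ≤ T, part β h (shift q y η) τ Set.univ ≤ Real.exp (τ * φ h + E))
    (hE3 : ∀ σ : ℤ, σ = 1 ∨ σ = -1 → ∀ y ∈ S,
      Real.exp (T * φ (h + Pi.single 0 (σ * lam)) - E) ≤
      part β (h + Pi.single 0 (σ * lam)) (shift q y η) T Set.univ)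
    (hE4 : ∀ σ : ℤ, σ = 1 ∨ σ = -1 → ∀ y ∈ S, ∀ τ ≤ T, ∀ z : Fin 1 → ℤ, |z 0| ≤ T →
      part β (h + Pi.single 0 (σ * lam)) (shift (q + τ) (y + z) η) (T - τ) Set.univ ≤
        Real.exp (((T - τ : ℕ) : ℝ) * φ (h + Pi.single 0 (σ * lam)) + E))
    (hφ1 : ∀ σ : ℤ, σ = 1 ∨ σ = -1 → φ h + lam * (σ * v 0) ≤ φ (h + Pi.single 0 (σ * lam)))
    (hφ2 : ∀ σ : ℤ, σ = 1 ∨ σ = -1 →
      T * (φ h + lam * (σ * v 0)) + (lam * D + 2 * E + Real.log 2) ≤
      T * φ (h + Pi.single 0 (σ * lam))) :
    ∀ y ∈ S, ∀ y' ∈ S, |Real.log (part β h (shift q y η) L Set.univ) -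
      Real.log (part β h (shift q y' η) L Set.univ)| ≤
        lam * (D + 1 + |v 0|) + 3 * E + Real.log (8 * ((T : ℝ) + 1) ^ 3) := by
  have hT : (1 : ℝ) ≤ 8 * ((T : ℝ) + 1) ^ 3 := by
    have : (1 : ℝ) ≤ ((T : ℝ) + 1) ^ 3 := one_le_pow₀ (by
      have : (0 : ℝ) ≤ T := Nat.cast_nonneg T
      linarith)
    linarith
  have key : ∀ y ∈ S, ∀ y' ∈ S, Real.log (part β h (shift q y η) L Set.univ) -
      Real.log (part β h (shift q y' η) L Set.univ) ≤
        lam * (D + 1 + |v 0|) + 3 * E + Real.log (8 * ((T : ℝ) + 1) ^ 3) := by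
    intro y hy y' hy'
    obtain ⟨hev, hDD⟩ := hS y hy y' hy'
    have hD0 : 0 ≤ D := by
      have := abs_nonneg ((y 0 : ℝ) - (y' 0 : ℝ))
      linarith
    rcases eq_or_ne (y 0) (y' 0) with h0 | h0
    · have : y = y' := by
        funext k
        rw [Subsingleton.elim k 0]
        exact h0
      rw [this, sub_self]
      have h1 := Real.log_nonneg hT
      have h2 := abs_nonneg (v 0)
      positivity
    · obtain ⟨σ, hσ, hσy, hσa⟩ : ∃ σ : ℤ, (σ = 1 ∨ σ = -1) ∧ 0 < σ * (y 0 - y' 0) ∧
          (σ : ℝ) * ((y 0 : ℝ) - (y' 0 : ℝ)) = |(y 0 : ℝ) - (y' 0 : ℝ)| := by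
        rcases lt_or_gt_of_ne h0 with h1 | h1
        · refine ⟨-1, Or.inr rfl, by omega, ?_⟩
          have : (y 0 : ℝ) < (y' 0 : ℝ) := by exact_mod_cast h1
          rw [abs_of_neg (by linarith)]
          push_cast
          ring
        · refine ⟨1, Or.inl rfl, by omega, ?_⟩
          have : (y' 0 : ℝ) < (y 0 : ℝ) := by exact_mod_cast h1
          rw [abs_of_pos (by linarith)]
          push_cast
          ring
      have es : ∀ (m : ℕ) (z : Fin 1 → ℤ), shift m z (shift q 0 η) = shift (q + m) z η := by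
        intro m z
        funext i x
        simp only [shift]
        rw [zero_add, add_assoc]
      have es0 : ∀ z : Fin 1 → ℤ, shift 0 z (shift q 0 η) = shift q z η := by
        intro z
        rw [es, add_zero]
      have h1 := join (β := β) (lam := lam) (h := h) (v := v) (η := shift q 0 η) hσ hl (φ := φ)
        hTL (y := y) (y' := y') (R := R) (D := D) (E := E) hσy hev hR (by rw [hσa]; exact hDD)
        (by
          intro τ hτ
          rw [es0]
          exact hE1 y hy τ hτ)
        (by rw [es0]; exact hE1 y' hy' T le_rfl)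
        (by rw [es0]; exact hE3 σ hσ y' hy')
        (by
          intro τ hτ z hz
          rw [es]
          exact hE4 σ hσ y' hy' τ hτ z hz)
        (hφ1 σ hσ) (hφ2 σ hσ)
      rw [es0, es0] at h1
      have p1 := part_univ_pos (le_refl 1) β h (shift q y η) L
      have p2 := part_univ_pos (le_refl 1) β h (shift q y' η) L
      have h2 : part β h (shift q y η) L Set.univ *
          Real.exp (-(lam * (D + 1 + |v 0|) + 3 * E)) ≤
          8 * ((T : ℝ) + 1) ^ 3 * part β h (shift q y' η) L Set.univ := by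
        have h3 := mul_le_mul_of_nonneg_right (hconf y hy)
          (Real.exp_pos (-(lam * (D + 1 + |v 0|) + 3 * E))).le
        linarith
      have h3 := Real.log_le_log (mul_pos p1 (Real.exp_pos _)) h2
      rw [Real.log_mul p1.ne' (Real.exp_pos _).ne', Real.log_exp,
        Real.log_mul (by positivity) p2.ne'] at h3
      linarith
  intro y hy y' hy'
  rw [abs_le]
  constructor
  · have := key y' hy' y hy
    linarith
  · exact key y hy y' hy'

end Pool.Agent.T9h62.KPZ
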