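import Pool.Agent.T9h62.KPZ.Block

/-!
# Directed polymers in dimension `1 + 1`: two blocks in a good environment
-/

set_option autoImplicit false

namespace Pool.Agent.T9h62.KPZ

open TH967.DP Pool.Agent.N662.SE

lemma half_part {β : ℝ} {d : ℕ} (hd : 1 ≤ d) {h : Fin d → ℝ} {η : ℕ → (Fin d → ℤ) → ℝ} {n : ℕ}
    {A B : Set (Fin n → Step d)} (hA : 1 / 2 ≤ prob β h η n A) (hAB : A ⊆ B) :
    1 / 2 * part β h η n Set.univ ≤ part β h η n B := by
  have p := part_univ_pos hd β h η n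
  unfold prob at hA
  rw [le_div_iff₀ p] at hA
  exact hA.trans (part_mono β h η hAB)

/-- In a good environment the logarithm of the partition function is additive up to a small
error. -/
theorem det_err {β lam : ℝ} {h v : Fin 1 → ℝ} {η : ℕ → (Fin 1 → ℤ) → ℝ} {q r T M : ℕ}
    (hl : 0 ≤ lam) {φ : (Fin 1 → ℝ) → ℝ} {F : (Fin 1 → ℝ) → ℕ → ℝ}
    (hF : ∀ g j, F g j ≤ j * φ g) {E' E R Rq Rr : ℝ} (hTr : T ≤ r) (hRq : Rq ≤ R)
    (hRr0 : 0 ≤ Rr) (hRr : Rr ≤ R) (hM : q * |v 0| + R + T ≤ M) (hE' : 0 ≤ E') (hEE : E' ≤ E)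
    (hFT : ∀ σ : ℤ, σ = 1 ∨ σ = -1 → T * φ (h + Pi.single 0 (σ * lam)) ≤
      F (h + Pi.single 0 (σ * lam)) T + (E - E'))
    (g1 : 1 / 2 ≤ prob β h η (q + r)
      {w | ∀ i : ℕ, i ≤ q + r → ∀ k, |(pos w i k : ℝ) - i * v k| ≤ R})
    (g2 : 1 / 2 ≤ prob β h η q {w | ∀ i : ℕ, i ≤ q → ∀ k, |(pos w i k : ℝ) - i * v k| ≤ Rq})
    (g3 : ∀ y : ℤ, |y| ≤ M → 1 / 2 ≤ prob β h (fun i z => η (q + i) ((fun _ => y) + z)) r
      {w | ∀ i : ℕ, i ≤ r → ∀ k, |(pos w i k : ℝ) - i * v k| ≤ Rr})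
    (g4 : ∀ σ : ℤ, σ = 1 ∨ σ = 0 ∨ σ = -1 → ∀ m : ℕ, m ≤ q + r → ∀ y : ℤ, |y| ≤ M → ∀ j : ℕ,
      j ≤ T → |Real.log (part β (h + Pi.single 0 (σ * lam))
        (fun i z => η (m + i) ((fun _ => y) + z)) j Set.univ) -
          F (h + Pi.single 0 (σ * lam)) j| ≤ E')
    (hφ1 : ∀ σ : ℤ, σ = 1 ∨ σ = -1 → φ h + lam * (σ * v 0) ≤ φ (h + Pi.single 0 (σ * lam)))
    (hφ2 : ∀ σ : ℤ, σ = 1 ∨ σ = -1 →
      T * (φ h + lam * (σ * v 0)) + (lam * (3 * R) + 2 * E + Real.log 2) ≤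
      T * φ (h + Pi.single 0 (σ * lam)))
    {y1 : Fin 1 → ℤ} (hy1 : Even (y1 0 - q)) (hy1R : |(y1 0 : ℝ) - q * v 0| ≤ R) :
    |Real.log (part β h η (q + r) Set.univ) - Real.log (part β h η q Set.univ) -
      Real.log (part β h (shift q y1 η) r Set.univ)| ≤
      Real.log 2 + (lam * (3 * R + 1 + |v 0|) + 3 * E + Real.log (8 * ((T : ℝ) + 1) ^ 3)) := by
  set S : Set (Fin 1 → ℤ) := {y | Even (y 0 - q) ∧ |(y 0 : ℝ) - q * v 0| ≤ R} with hSdef
  have hR0 : 0 ≤ R := hRr0.trans hRr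
  have hyM : ∀ y ∈ S, |y 0| + T ≤ M := by
    rintro y ⟨-, hy⟩
    have h1 : |(y 0 : ℝ)| ≤ q * |v 0| + R := by
      have h2 : |(y 0 : ℝ)| ≤ |(y 0 : ℝ) - q * v 0| + |(q : ℝ) * v 0| := by
        have := abs_add_le ((y 0 : ℝ) - q * v 0) (q * v 0)
        rwa [sub_add_cancel] at this
      rw [abs_mul, Nat.abs_cast] at h2
      linarith
    have h3 : ((|y 0| + T : ℤ) : ℝ) ≤ ((M : ℤ) : ℝ) := by
      push_cast
      linarith
    exact_mod_cast h3
  have conv : ∀ (m : ℕ) (y : Fin 1 → ℤ), shift m y η = fun i z => η (m + i) ((fun _ => y 0) + z) := by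
    intro m y
    have : y = fun _ => y 0 := by
      funext k
      rw [Subsingleton.elim k 0]
    unfold shift
    rw [← this]
  have hJ := join_log (β := β) (lam := lam) (h := h) (v := v) (η := η) (q := q) hl (φ := φ) (T := T)
    (L := r) hTr (R := Rr) (D := 3 * R) (E := E) hRr0 (hE'.trans hEE) (S := S)
    (by
      rintro y ⟨hy, hyR⟩ y' ⟨hy', hyR'⟩
      refine ⟨?_, ?_⟩
      · have := hy.sub hy'
        have e : y 0 - q - (y' 0 - q) = y 0 - y' 0 := by ring
        rwa [e] at this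
      · have h1 : |(y 0 : ℝ) - (y' 0 : ℝ)| ≤
            |(y 0 : ℝ) - q * v 0| + |(y' 0 : ℝ) - q * v 0| := by
          have e : (y 0 : ℝ) - (y' 0 : ℝ) = ((y 0 : ℝ) - q * v 0) - ((y' 0 : ℝ) - q * v 0) := by
            ring
          rw [e]
          exact abs_sub _ _
        linarith)
    (by
      intro y hy
      rw [conv]
      have h1 := hyM y hy
      exact half_part le_rfl (g3 (y 0) (by omega)) (fun w hw => hw))
    (by
      intro y hy τ hτ
      have h1 := hyM y hy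
      have h2 := g4 0 (Or.inr (Or.inl rfl)) q (by omega) (y 0) (by omega) τ hτ
      rw [← conv] at h2
      have e : h + Pi.single 0 (((0 : ℤ) : ℝ) * lam) = h := by simp
      rw [e] at h2
      have p := part_univ_pos (le_refl 1) β h (shift q y η) τ
      have h3 := hF h τ
      rw [abs_le] at h2
      rw [← Real.exp_log p]
      apply Real.exp_le_exp.2
      linarith)
    (by
      intro σ hσ y hy
      have h1 := hyM y hy
      have h2 := g4 σ (by tauto) q (by omega) (y 0) (by omega) T le_rfl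
      rw [← conv] at h2
      have p := part_univ_pos (le_refl 1) β (h + Pi.single 0 (σ * lam)) (shift q y η) T
      have h3 := hFT σ hσ
      rw [abs_le] at h2
      rw [← Real.exp_log p]
      apply Real.exp_le_exp.2
      linarith)
    (by
      intro σ hσ y hy τ hτ z hz
      have h1 := hyM y hy
      have h4 : |(y + z) 0| ≤ M := by
        rw [Pi.add_apply]
        have := abs_add_le (y 0) (z 0)
        omega
      have h2 := g4 σ (by tauto) (q + τ) (by omega) ((y + z) 0) h4 (T - τ) (by omega)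
      rw [← conv] at h2
      have p := part_univ_pos (le_refl 1) β (h + Pi.single 0 (σ * lam)) (shift (q + τ) (y + z) η)
        (T - τ)
      have h3 := hF (h + Pi.single 0 (σ * lam)) (T - τ)
      rw [abs_le] at h2
      rw [← Real.exp_log p]
      apply Real.exp_le_exp.2
      linarith)
    hφ1 hφ2
  apply block (v := v 0) (R := R) hy1
  · apply half_part le_rfl g1
    intro w hw
    exact hw q (by omega) 0
  · apply half_part le_rfl g2
    intro w hw
    exact (hw q le_rfl 0).trans hRq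
  · intro y hy hyR
    apply hJ y _ y1 ⟨hy1, hy1R⟩
    refine ⟨?_, hyR⟩
    have := hy.add hy1
    have e : y 0 - y1 0 + (y1 0 - q) = y 0 - q := by ring
    rwa [e] at this

end Pool.Agent.T9h62.KPZ
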