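import Pool.Agent.T9h62.DP.Mono

/-!
# The lower curvature of a convex function at almost every slope
-/

set_option autoImplicit false

open MeasureTheory Measure Filter Topology Set
open scoped NNReal ENNReal

namespace Pool.Agent.T9h62.KPZ

/-- a convex function on the line has a subgradient at every point -/
lemma exists_sub {f : ℝ → ℝ} (hf : ConvexOn ℝ univ f) (x : ℝ) :
    ∃ m : ℝ, ∀ y, f x + (y - x) * m ≤ f y := by
  have hne : (range fun y : Iio x => (f x - f y) / (x - y)).Nonempty :=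
    ⟨_, ⟨⟨x - 1, by simp⟩, rfl⟩⟩
  have hub : ∀ z, x < z → ∀ a ∈ range (fun y : Iio x => (f x - f y) / (x - y)),
      a ≤ (f z - f x) / (z - x) := by
    rintro z hz _ ⟨⟨y, hy⟩, rfl⟩
    exact hf.slope_mono_adjacent (mem_univ y) (mem_univ z) hy hz
  have hbdd : BddAbove (range fun y : Iio x => (f x - f y) / (x - y)) :=
    ⟨_, fun a ha => hub (x + 1) (by linarith) a ha⟩
  refine ⟨sSup (range fun y : Iio x => (f x - f y) / (x - y)), fun y => ?_⟩
  rcases lt_trichotomy y x with h | h | h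
  · have h1 : (f x - f y) / (x - y) ≤
        sSup (range fun y : Iio x => (f x - f y) / (x - y)) :=
      le_csSup hbdd ⟨⟨y, h⟩, rfl⟩
    rw [div_le_iff₀ (by linarith)] at h1
    nlinarith
  · subst h
    simp
  · have h1 : sSup (range fun y : Iio x => (f x - f y) / (x - y)) ≤
        (f y - f x) / (y - x) := csSup_le hne (hub y h)
    rw [le_div_iff₀ (by linarith)] at h1
    linarith

/-- monotonicity of the subgradients -/
lemma sub_mono {f : ℝ → ℝ} {x x' m m' : ℝ} (h : ∀ y, f x + (y - x) * m ≤ f y)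
    (h' : ∀ y, f x' + (y - x') * m' ≤ f y) : 0 ≤ (m' - m) * (x' - x) := by
  have h1 := h x'
  have h2 := h' x
  nlinarith

/-- At all slopes outside a set of vanishing `s`-dimensional Hausdorff measure the convex function
has a lower bound of order `1 + 1/s`. -/
lemma dual_curv {f : ℝ → ℝ} (hf : ConvexOn ℝ univ f) {s : ℝ} (hs : 0 < s) :
    μH[s] {v : ℝ | ¬ ∀ x : ℝ, (∀ y, f x + (y - x) * v ≤ f y) →
      ∃ c lam0 : ℝ, 0 < c ∧ 0 < lam0 ∧ ∀ l : ℝ, |l| ≤ lam0 →
        f x + l * v + c * |l| ^ (1 + 1 / s) ≤ f (x + l)} = 0 := by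
  have hcont : Continuous f := by
    have := hf.continuousOn isOpen_univ
    exact continuousOn_univ.1 this
  choose g0 hg0 using exists_sub hf
  have hord : ∀ k : ℕ, g0 (-(k : ℝ)) ≤ g0 k := by
    intro k
    rcases Nat.eq_zero_or_pos k with rfl | hk
    · simp
    · have hk0 : (0 : ℝ) < k := by exact_mod_cast hk
      have h1 := sub_mono (hg0 (-(k : ℝ))) (hg0 k)
      by_contra hcon
      push Not at hcon
      nlinarith
  -- the inverse
  have hinv : ∀ (k : ℕ) (u : ℝ), ∃ y0 : ℝ, g0 (-(k : ℝ)) ≤ u → u ≤ g0 k → ∀ y,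
      f y0 + (y - y0) * u ≤ f y := by
    intro k u
    by_cases hu1 : g0 (-(k : ℝ)) ≤ u
    swap
    · exact ⟨0, fun h => absurd h hu1⟩
    by_cases hu2 : u ≤ g0 k
    swap
    · exact ⟨0, fun _ h => absurd h hu2⟩
    have hne : (Icc (-(k : ℝ)) k).Nonempty := ⟨0, by simp⟩
    obtain ⟨y0, hy0, hmin⟩ := isCompact_Icc.exists_isMinOn hne
      (f := fun y => f y - u * y) (by fun_prop)
    refine ⟨y0, fun _ _ y => ?_⟩
    have hm : ∀ y ∈ Icc (-(k : ℝ)) k, f y0 - u * y0 ≤ f y - u * y := fun y hy => hmin hy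
    rcases lt_or_ge y (-(k : ℝ)) with h | h
    · have h1 := hg0 (-(k : ℝ)) y
      have h2 := hm (-(k : ℝ)) ⟨le_rfl, by
        have : (0 : ℝ) ≤ k := Nat.cast_nonneg k
        linarith⟩
      nlinarith
    · rcases le_or_gt y k with h' | h'
      · have := hm y ⟨h, h'⟩
        linarith
      · have h1 := hg0 k y
        have h2 := hm k ⟨by
          have : (0 : ℝ) ≤ k := Nat.cast_nonneg k
          linarith, le_rfl⟩
        nlinarith
  choose G hG using hinv
  set cl : ℕ → ℝ → ℝ := fun k u => max (g0 (-(k : ℝ))) (min u (g0 k)) with hcl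
  have hcl1 : ∀ (k : ℕ) (u : ℝ), g0 (-(k : ℝ)) ≤ cl k u := fun k u => le_max_left _ _
  have hcl2 : ∀ (k : ℕ) (u : ℝ), cl k u ≤ g0 k :=
    fun k u => max_le (hord k) (min_le_right _ _)
  set g : ℕ → ℝ → ℝ := fun k u => G k (cl k u) with hg_def
  have hg : ∀ (k : ℕ) (u y : ℝ), f (g k u) + (y - g k u) * cl k u ≤ f y := fun k u =>
    hG k (cl k u) (hcl1 k u) (hcl2 k u)
  have hmono : ∀ k, Monotone (g k) := by
    intro k u u' huu
    have h1 : cl k u ≤ cl k u' := max_le_max le_rfl (min_le_min huu le_rfl)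
    rcases eq_or_lt_of_le h1 with h2 | h2
    · simp only [hg_def]
      rw [h2]
    · have h3 := sub_mono (hg k u) (hg k u')
      by_contra hcon
      push Not at hcon
      nlinarith
  have : NullSingletonClass (μH[s] : Measure ℝ) := nullSingletonClass_hausdorff ℝ hs
  have hN : μH[s] ((⋃ k : ℕ, {t : ℝ | ∀ C : ℕ, ∃ r ∈ Ioc (0:ℝ) 1,
      C * r ^ s < g k (t + r) - g k (t - r)}) ∪
      ((⋃ k : ℕ, {g0 (-(k : ℝ))}) ∪ ⋃ k : ℕ, {g0 k})) = 0 := by
    refine measure_union_null (measure_iUnion_null fun k => DP.mono_holder (hmono k) hs)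
      (measure_union_null (measure_iUnion_null fun k => measure_singleton _)
        (measure_iUnion_null fun k => measure_singleton _))
  refine measure_mono_null ?_ hN
  intro v hv
  by_contra hcon
  apply hv
  rw [mem_union, mem_union, mem_iUnion, mem_iUnion, mem_iUnion, not_or, not_or, not_exists,
    not_exists, not_exists] at hcon
  obtain ⟨hc1, hc2, hc3⟩ := hcon
  intro x hx
  obtain ⟨k, hk⟩ := exists_nat_gt |x|
  rw [abs_lt] at hk
  have hv1 : g0 (-(k : ℝ)) < v := by
    have h1 := sub_mono (hg0 (-(k : ℝ))) hx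
    have h2 : v ≠ g0 (-(k : ℝ)) := fun h => hc2 k h
    apply lt_of_le_of_ne _ h2.symm
    by_contra h
    push Not at h
    nlinarith
  have hv2 : v < g0 k := by
    have h1 := sub_mono hx (hg0 k)
    have h2 : v ≠ g0 k := fun h => hc3 k h
    apply lt_of_le_of_ne _ h2
    by_contra h
    push Not at h
    nlinarith
  have h4 : ¬ ∀ C : ℕ, ∃ r ∈ Ioc (0:ℝ) 1, C * r ^ s < g k (v + r) - g k (v - r) := hc1 k
  push Not at h4
  obtain ⟨C, hC⟩ := h4
  set C' : ℝ := C + 1 with hC'
  have hC0 : 0 < C' := by positivity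
  set δ : ℝ := min (min (v - g0 (-(k : ℝ))) (g0 k - v)) 1 with hδ
  have hδ0 : 0 < δ := lt_min (lt_min (by linarith) (by linarith)) one_pos
  have hδ1 : δ ≤ v - g0 (-(k : ℝ)) := (min_le_left _ _).trans (min_le_left _ _)
  have hδ2 : δ ≤ g0 k - v := (min_le_left _ _).trans (min_le_right _ _)
  have hδ3 : δ ≤ 1 := min_le_right _ _
  have hclp : ∀ r : ℝ, 0 < r → r ≤ δ → cl k (v + r) = v + r ∧ cl k (v - r) = v - r := by
    intro r hr hrδ
    simp only [hcl]
    constructor
    · rw [min_eq_left (by linarith), max_eq_right (by linarith)]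
    · rw [min_eq_left (by linarith), max_eq_right (by linarith)]
  have hgr : ∀ r : ℝ, 0 < r → r ≤ δ →
      g k (v + r) ≤ x + C' * r ^ s ∧ x - C' * r ^ s ≤ g k (v - r) := by
    intro r hr hrδ
    obtain ⟨e1, e2⟩ := hclp r hr hrδ
    have h5 := hC r ⟨hr, by linarith⟩
    have h6 := sub_mono hx (hg k (v + r))
    have h7 := sub_mono hx (hg k (v - r))
    rw [e1] at h6
    rw [e2] at h7
    have h8 : x ≤ g k (v + r) := by
      by_contra h
      push Not at h
      nlinarith
    have h9 : g k (v - r) ≤ x := by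
      by_contra h
      push Not at h
      nlinarith
    have h10 : 0 ≤ r ^ s := Real.rpow_nonneg hr.le _
    have h11 : C' * r ^ s = C * r ^ s + r ^ s := by rw [hC']; ring
    constructor <;> linarith
  refine ⟨1 / 2 * (1 / (2 * C')) ^ (1 / s), 2 * C' * δ ^ s, by positivity, by positivity, ?_⟩
  intro l hl
  rcases eq_or_ne l 0 with h0 | h0
  · subst h0
    rw [abs_zero, Real.zero_rpow (by positivity)]
    simp
  have hl0 : 0 < |l| := abs_pos.2 h0
  set r : ℝ := (|l| / (2 * C')) ^ (1 / s) with hr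
  have hr0 : 0 < r := by positivity
  have hrs : r ^ s = |l| / (2 * C') := by
    rw [hr, ← Real.rpow_mul (by positivity), one_div_mul_cancel hs.ne', Real.rpow_one]
  have hrδ : r ≤ δ := by
    have h5 : r ^ s ≤ δ ^ s := by
      rw [hrs, div_le_iff₀ (by positivity)]
      linarith
    exact (Real.rpow_le_rpow_iff hr0.le hδ0.le hs).1 h5
  have hCr : C' * r ^ s = |l| / 2 := by
    rw [hrs]
    field_simp
  obtain ⟨b1, b2⟩ := hgr r hr0 hrδ
  rw [hCr] at b1 b2
  obtain ⟨e1, e2⟩ := hclp r hr0 hrδ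
  have hfin : 1 / 2 * (1 / (2 * C')) ^ (1 / s) * |l| ^ (1 + 1 / s) = |l| / 2 * r := by
    rw [hr, Real.rpow_add hl0, Real.rpow_one, div_eq_mul_one_div |l| (2 * C'),
      Real.mul_rpow hl0.le (by positivity)]
    ring
  rw [hfin]
  rcases lt_or_gt_of_ne h0 with hneg | hpos
  · rw [abs_of_neg hneg] at *
    have h5 := hg k (v - r) (x + l)
    rw [e2] at h5
    have h6 := hx (g k (v - r))
    nlinarith
  · rw [abs_of_pos hpos] at *
    have h5 := hg k (v + r) (x + l)
    rw [e1] at h5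
    have h6 := hx (g k (v + r))
    nlinarith

end Pool.Agent.T9h62.KPZ
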