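import Pool.Agent.N662.SE.All

/-!
# Directed polymers: the strong wandering exponent
-/

set_option autoImplicit false

open MeasureTheory ProbabilityTheory Filter Topology

namespace Pool.Agent.T9h62.KPZ

open TH967.DP (Step pos energy)
open Pool.Agent.N662.SE

variable {d : ℕ}

/-- The strong wandering exponent of the polymer with drift `h` around the line of slope `v`: the
infimum of the `b > 0` such that for every `K` one has
`E P_n (max_{i ≤ n} ‖S_i - i v‖ ≤ n^b) ≥ 1 - 1/n^K` for all large `n` (`dev v w i` is the Euclidean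
norm of `S_i - i v`). -/
noncomputable def wanderStrong {Ω : Type} [MeasurableSpace Ω] (P : Measure Ω)
    (ω : ℕ → (Fin d → ℤ) → Ω → ℝ) (β : ℝ) (h v : Fin d → ℝ) : ℝ :=
  sInf {b : ℝ | 0 < b ∧ ∀ K : ℕ, ∀ᶠ n : ℕ in atTop, 1 - 1 / (n : ℝ) ^ K ≤
    ∫ x, polymer β h (fun i y => ω i y x) n {w | ∀ i ≤ n, dev v w i ≤ (n : ℝ) ^ b} ∂P}

lemma integrable_polymer (hd : 1 ≤ d) (β : ℝ) (h : Fin d → ℝ) {n : ℕ} (A : Set (Fin n → Step d))
    {Ω : Type} [MeasurableSpace Ω] {P : Measure Ω} [IsProbabilityMeasure P]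
    {ω : ℕ → (Fin d → ℤ) → Ω → ℝ} (hm : ∀ i y, Measurable (ω i y)) :
    Integrable (fun x => polymer β h (fun i y => ω i y x) n A) P := by
  apply (integrable_const (1 : ℝ)).mono' (measurable_polymer β h A hm).aestronglyMeasurable
  refine Eventually.of_forall fun x => ?_
  rw [Real.norm_eq_abs, abs_of_nonneg (polymer_nonneg _ _ _ _ _)]
  exact polymer_le_one hd _ _ _ _ _

lemma two_mem_strong (hd : 1 ≤ d) {Ω : Type} [MeasurableSpace Ω] {P : Measure Ω}
    [IsProbabilityMeasure P] (ω : ℕ → (Fin d → ℤ) → Ω → ℝ) (β : ℝ) (h v : Fin d → ℝ) :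
    (2 : ℝ) ∈ {b : ℝ | 0 < b ∧ ∀ K : ℕ, ∀ᶠ n : ℕ in atTop, 1 - 1 / (n : ℝ) ^ K ≤
      ∫ x, polymer β h (fun i y => ω i y x) n {w | ∀ i ≤ n, dev v w i ≤ (n : ℝ) ^ b} ∂P} := by
  refine ⟨by norm_num, fun K => ?_⟩
  filter_upwards [tendsto_natCast_atTop_atTop.eventually_ge_atTop (∑ k, (1 + |v k|))]
    with n hn
  have h4 : {w : Fin n → Step d | ∀ i ≤ n, dev v w i ≤ (n : ℝ) ^ (2 : ℝ)} = Set.univ := by
    apply Set.eq_univ_of_forall
    intro w i hi
    have h7 : (n : ℝ) ^ (2 : ℝ) = n * n := by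
      rw [Real.rpow_two, sq]
    rw [h7]
    exact (dev_le v w i hi).trans (mul_le_mul_of_nonneg_left hn (Nat.cast_nonneg n))
  rw [h4]
  simp_rw [polymer_eq, prob_univ hd]
  simp

lemma strong_nonneg {Ω : Type} [MeasurableSpace Ω] (P : Measure Ω)
    (ω : ℕ → (Fin d → ℤ) → Ω → ℝ) (β : ℝ) (h v : Fin d → ℝ) : 0 ≤ wanderStrong P ω β h v :=
  Real.sInf_nonneg fun _ hb => hb.1.le

/-- the strong wandering exponent is at least the wandering exponent -/
lemma wander_le_strong (hd : 1 ≤ d) {Ω : Type} [MeasurableSpace Ω] {P : Measure Ω}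
    [IsProbabilityMeasure P] {ω : ℕ → (Fin d → ℤ) → Ω → ℝ} (hm : ∀ i y, Measurable (ω i y))
    (β : ℝ) (h v : Fin d → ℝ) : wander P ω β h v ≤ wanderStrong P ω β h v := by
  apply csInf_le_csInf ⟨0, fun b hb => hb.1.le⟩ ⟨2, two_mem_strong hd ω β h v⟩
  rintro b ⟨hb0, hb⟩
  refine ⟨hb0, ?_⟩
  set f : ℕ → Ω → ℝ := fun n x => polymer β h (fun i y => ω i y x) n
    {w | ∀ i ≤ n, dev v w i ≤ (n : ℝ) ^ b} with hf
  have hfm : ∀ n, Measurable (f n) := fun n => measurable_polymer β h _ hm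
  have hfi : ∀ n, Integrable (f n) P := fun n => integrable_polymer hd β h _ hm
  have hf1 : ∀ n x, f n x ≤ 1 := fun n x => polymer_le_one hd _ _ _ _ _
  obtain ⟨N, hN⟩ := eventually_atTop.1 (hb 2)
  have hsum : ∑' n : ℕ, ∫⁻ x, ENNReal.ofReal (1 - f (n + (N + 1)) x) ∂P ≠ ⊤ := by
    have hle : ∀ n : ℕ, ∫⁻ x, ENNReal.ofReal (1 - f (n + (N + 1)) x) ∂P ≤
        ENNReal.ofReal (1 / ((n + (N + 1) : ℕ) : ℝ) ^ 2) := by
      intro n
      have hsi : Integrable (fun x => 1 - f (n + (N + 1)) x) P :=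
        (integrable_const _).sub (hfi _)
      rw [← ofReal_integral_eq_lintegral_ofReal hsi
        (Eventually.of_forall fun x => sub_nonneg.2 (hf1 _ _))]
      apply ENNReal.ofReal_le_ofReal
      rw [integral_sub (integrable_const _) (hfi _)]
      simp only [integral_const, probReal_univ, smul_eq_mul, mul_one]
      have := hN (n + (N + 1)) (by omega)
      linarith
    refine ne_top_of_le_ne_top ?_ (ENNReal.tsum_le_tsum hle)
    have hs0 : Summable (fun n : ℕ => 1 / (n : ℝ) ^ 2) :=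
      Real.summable_one_div_nat_pow.2 one_lt_two
    have hs : Summable (fun n : ℕ => 1 / ((n + (N + 1) : ℕ) : ℝ) ^ 2) :=
      hs0.comp_injective (i := fun n => n + (N + 1)) (fun a b hab => by
        simp only at hab
        omega)
    exact hs.tsum_ofReal_ne_top
  have hgm : ∀ n : ℕ, Measurable (fun x => ENNReal.ofReal (1 - f (n + (N + 1)) x)) := fun n =>
    (measurable_const.sub (hfm _)).ennreal_ofReal
  rw [← lintegral_tsum (fun n => (hgm n).aemeasurable)] at hsum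
  have hae : ∀ᵐ x ∂P, ∑' n : ℕ, ENNReal.ofReal (1 - f (n + (N + 1)) x) < ⊤ :=
    ae_lt_top' (Measurable.ennreal_tsum hgm).aemeasurable hsum
  have hlim : ∀ᵐ x ∂P, liminf (fun n : ℕ => f n x) atTop = 1 := by
    filter_upwards [hae] with x hx
    have h1 := ENNReal.tendsto_atTop_zero_of_tsum_ne_top hx.ne
    have h2 : Tendsto (fun n : ℕ => 1 - f (n + (N + 1)) x) atTop (𝓝 0) := by
      have h3 := (ENNReal.tendsto_toReal ENNReal.zero_ne_top).comp h1
      refine h3.congr fun n => ?_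
      simp only [Function.comp_apply]
      rw [ENNReal.toReal_ofReal (sub_nonneg.2 (hf1 _ _))]
    have h4 : Tendsto (fun n : ℕ => 1 - f n x) atTop (𝓝 0) :=
      (tendsto_add_atTop_iff_nat (f := fun n => 1 - f n x) (N + 1)).1 h2
    have h5 : Tendsto (fun n : ℕ => f n x) atTop (𝓝 1) := by
      have h6 := h4.const_sub 1
      simpa using h6
    exact h5.liminf_eq
  rw [integral_congr_ae hlim]
  simp

end Pool.Agent.T9h62.KPZ
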