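import Mathlib

/-!
# A recursive inequality
-/

set_option autoImplicit false

open Filter

namespace Pool.Agent.T9h62.KPZ

/-- If the standard deviations `a n` are at least `n ^ t` and almost additive (in square) on the
scale `n ^ τ` with `τ < t`, then they grow like `√n`. -/
lemma iter {a : ℕ → ℝ} {t τ : ℝ} (hτt : τ < t) (hτ : τ < 1 / 2) {N0 : ℕ}
    (h1 : ∀ n : ℕ, N0 ≤ n → (n : ℝ) ^ t ≤ a n)
    (h2 : ∀ n : ℕ, N0 ≤ n → Real.sqrt (a (n / 2) ^ 2 + a (n - n / 2) ^ 2) ≤ a n + (n : ℝ) ^ τ) :
    ∃ c : ℝ, 0 < c ∧ ∃ N : ℕ, ∀ n : ℕ, N ≤ n → c * Real.sqrt n ≤ a n := by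
  set p : ℝ := τ + 1 / 2 with hp
  have hp1 : 0 < 1 - p := by linarith
  set G : ℝ := (3 / 2 : ℝ) ^ (1 - p) with hG
  have hG1 : 1 < G := Real.one_lt_rpow (by norm_num) hp1
  set A : ℝ := 1 / (G - 1) with hA
  have hA0 : 0 < A := by
    have : 0 < G - 1 := by linarith
    positivity
  have hAG : A * G - 1 = A := by
    have : G - 1 ≠ 0 := by
      intro h
      linarith
    rw [hA]
    field_simp
    ring
  -- large numbers
  have hlim : Tendsto (fun n : ℕ => (n : ℝ) ^ (t - τ)) atTop atTop :=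
    (tendsto_rpow_atTop (by linarith)).comp tendsto_natCast_atTop_atTop
  obtain ⟨N2, hN2⟩ := eventually_atTop.1 (hlim.eventually_ge_atTop (2 * A))
  set N1 := max (max N0 N2) 3 with hN1
  have hN10 : N0 ≤ N1 := (le_max_left _ _).trans (le_max_left _ _)
  have hN12 : N2 ≤ N1 := (le_max_right _ _).trans (le_max_left _ _)
  have hN13 : 3 ≤ N1 := le_max_right _ _
  have hN1R : (3 : ℝ) ≤ N1 := by exact_mod_cast hN13
  have hbase : ∀ n : ℕ, N1 ≤ n → 2 * A * (n : ℝ) ^ τ ≤ (n : ℝ) ^ t := by
    intro n hn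
    have hn0 : (0 : ℝ) < n := by
      have : (N1 : ℝ) ≤ n := by exact_mod_cast hn
      linarith
    have h3 := hN2 n (hN12.trans hn)
    calc 2 * A * (n : ℝ) ^ τ ≤ (n : ℝ) ^ (t - τ) * (n : ℝ) ^ τ :=
          mul_le_mul_of_nonneg_right h3 (Real.rpow_nonneg hn0.le _)
      _ = (n : ℝ) ^ t := by rw [← Real.rpow_add hn0]; congr 1; ring
  set m : ℝ := min ((N1 : ℝ) ^ t) ((2 * N1 + 2 : ℝ) ^ t) with hm
  have hm0 : 0 < m := lt_min (by positivity) (by positivity)
  set c : ℝ := m / (2 * Real.sqrt (2 * N1 + 2)) with hc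
  have hsq0 : 0 < Real.sqrt (2 * N1 + 2) := Real.sqrt_pos.2 (by positivity)
  have hc0 : 0 < c := by positivity
  refine ⟨c, hc0, N1, ?_⟩
  have key : ∀ n : ℕ, N1 ≤ n → c * Real.sqrt n + A * (n : ℝ) ^ τ ≤ a n := by
    intro n
    induction n using Nat.strong_induction_on with
    | _ n ih =>
    intro hn
    have hnR : (N1 : ℝ) ≤ n := by exact_mod_cast hn
    have hn0 : (0 : ℝ) < n := by linarith
    by_cases hcase : n ≤ 2 * N1 + 1
    · -- the base case
      have hcR : (n : ℝ) ≤ 2 * N1 + 2 := by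
        have : (n : ℝ) ≤ 2 * N1 + 1 := by exact_mod_cast hcase
        linarith
      have e1 := h1 n (hN10.trans hn)
      have e2 := hbase n hn
      have e3 : m ≤ (n : ℝ) ^ t := by
        rcases le_total 0 t with ht | ht
        · exact (min_le_left _ _).trans (Real.rpow_le_rpow (Nat.cast_nonneg _) hnR ht)
        · exact (min_le_right _ _).trans (Real.rpow_le_rpow_of_nonpos hn0 hcR ht)
      have e4 : c * Real.sqrt n ≤ m / 2 := by
        have e5 : Real.sqrt n ≤ Real.sqrt (2 * N1 + 2) := Real.sqrt_le_sqrt hcR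
        calc c * Real.sqrt n ≤ c * Real.sqrt (2 * N1 + 2) :=
              mul_le_mul_of_nonneg_left e5 hc0.le
          _ = m / 2 := by rw [hc]; field_simp
      linarith
    · -- the induction step
      push Not at hcase
      set q := n / 2 with hq
      set r := n - n / 2 with hr
      have hqr : q + r = n := by omega
      have iq := ih q (by omega) (by omega)
      have ir := ih r (by omega) (by omega)
      have hqR : (q : ℝ) + r = n := by exact_mod_cast hqr
      have hq0 : (0 : ℝ) < q := by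
        have : 0 < q := by omega
        exact_mod_cast this
      have hr0 : (0 : ℝ) < r := by
        have : 0 < r := by omega
        exact_mod_cast this
      have hq3 : (q : ℝ) ≤ 2 / 3 * n := by
        have : 3 * q ≤ 2 * n := by omega
        have : (3 : ℝ) * q ≤ 2 * n := by exact_mod_cast this
        linarith
      have hr3 : (r : ℝ) ≤ 2 / 3 * n := by
        have : 3 * r ≤ 2 * n := by omega
        have : (3 : ℝ) * r ≤ 2 * n := by exact_mod_cast this
        linarith
      have hpow : ∀ x : ℝ, 0 < x → x ≤ 2 / 3 * n → x * (G * (n : ℝ) ^ (p - 1)) ≤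
          Real.sqrt x * x ^ τ := by
        intro x hx hx3
        have e1 : Real.sqrt x * x ^ τ = x * x ^ (p - 1) := by
          rw [Real.sqrt_eq_rpow, ← Real.rpow_add hx]
          nth_rewrite 2 [← Real.rpow_one x]
          rw [← Real.rpow_add hx]
          congr 1
          rw [hp]
          ring
        rw [e1]
        apply mul_le_mul_of_nonneg_left _ hx.le
        have e2 : (2 / 3 * (n : ℝ)) ^ (p - 1) ≤ x ^ (p - 1) :=
          Real.rpow_le_rpow_of_nonpos hx hx3 (by linarith)
        refine le_trans (le_of_eq ?_) e2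
        rw [Real.mul_rpow (by norm_num) hn0.le, hG]
        congr 1
        have : (2 / 3 : ℝ) = (3 / 2)⁻¹ := by norm_num
        rw [this, Real.inv_rpow (by norm_num), ← Real.rpow_neg (by norm_num)]
        congr 1
        ring
      have e1 : (q : ℝ) * c + A * ((q : ℝ) * (G * (n : ℝ) ^ (p - 1))) ≤ Real.sqrt q * a q := by
        have e2 := hpow q hq0 hq3
        have e3 := mul_le_mul_of_nonneg_left iq (Real.sqrt_nonneg (q : ℝ))
        have e4 : Real.sqrt q * Real.sqrt q = q := Real.mul_self_sqrt hq0.le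
        have e5 : Real.sqrt q * (c * Real.sqrt q + A * (q : ℝ) ^ τ) =
            (Real.sqrt q * Real.sqrt q) * c + A * (Real.sqrt q * (q : ℝ) ^ τ) := by ring
        rw [e5, e4] at e3
        have e6 := mul_le_mul_of_nonneg_left e2 hA0.le
        linarith
      have e1' : (r : ℝ) * c + A * ((r : ℝ) * (G * (n : ℝ) ^ (p - 1))) ≤ Real.sqrt r * a r := by
        have e2 := hpow r hr0 hr3
        have e3 := mul_le_mul_of_nonneg_left ir (Real.sqrt_nonneg (r : ℝ))
        have e4 : Real.sqrt r * Real.sqrt r = r := Real.mul_self_sqrt hr0.le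
        have e5 : Real.sqrt r * (c * Real.sqrt r + A * (r : ℝ) ^ τ) =
            (Real.sqrt r * Real.sqrt r) * c + A * (Real.sqrt r * (r : ℝ) ^ τ) := by ring
        rw [e5, e4] at e3
        have e6 := mul_le_mul_of_nonneg_left e2 hA0.le
        linarith
      have e2 : (n : ℝ) * c + A * (n * (G * (n : ℝ) ^ (p - 1))) ≤
          Real.sqrt q * a q + Real.sqrt r * a r := by
        rw [← hqR] at *
        linarith
      have e3 : Real.sqrt q * a q + Real.sqrt r * a r ≤
          Real.sqrt n * Real.sqrt (a q ^ 2 + a r ^ 2) := by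
        rw [← Real.sqrt_mul hn0.le]
        apply Real.le_sqrt_of_sq_le
        have f1 : Real.sqrt q ^ 2 = q := Real.sq_sqrt hq0.le
        have f2 : Real.sqrt r ^ 2 = r := Real.sq_sqrt hr0.le
        have f3 : (Real.sqrt q * a q + Real.sqrt r * a r) ^ 2 ≤
            (Real.sqrt q ^ 2 + Real.sqrt r ^ 2) * (a q ^ 2 + a r ^ 2) := by
          nlinarith [sq_nonneg (Real.sqrt q * a r - Real.sqrt r * a q)]
        rwa [f1, f2, hqR] at f3
      have e4 := h2 n (hN10.trans hn)
      have hsn : 0 < Real.sqrt n := Real.sqrt_pos.2 hn0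
      have e5 : (n : ℝ) * c + A * (n * (G * (n : ℝ) ^ (p - 1))) =
          Real.sqrt n * (c * Real.sqrt n + A * G * (n : ℝ) ^ τ) := by
        have f1 : Real.sqrt n * Real.sqrt n = n := Real.mul_self_sqrt hn0.le
        have f2 : (n : ℝ) * (n : ℝ) ^ (p - 1) = Real.sqrt n * (n : ℝ) ^ τ := by
          rw [Real.sqrt_eq_rpow, ← Real.rpow_add hn0]
          nth_rewrite 1 [← Real.rpow_one (n : ℝ)]
          rw [← Real.rpow_add hn0]
          congr 1
          rw [hp]
          ring
        calc (n : ℝ) * c + A * (n * (G * (n : ℝ) ^ (p - 1))) =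
            n * c + A * G * (n * (n : ℝ) ^ (p - 1)) := by ring
          _ = (Real.sqrt n * Real.sqrt n) * c + A * G * (Real.sqrt n * (n : ℝ) ^ τ) := by
              rw [f1, f2]
          _ = _ := by ring
      rw [e5] at e2
      have e6 : c * Real.sqrt n + A * G * (n : ℝ) ^ τ ≤ Real.sqrt (a q ^ 2 + a r ^ 2) :=
        le_of_mul_le_mul_left (e2.trans e3) hsn
      have e7 : A * G * (n : ℝ) ^ τ - (n : ℝ) ^ τ = A * (n : ℝ) ^ τ := by
        calc A * G * (n : ℝ) ^ τ - (n : ℝ) ^ τ = (A * G - 1) * (n : ℝ) ^ τ := by ring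
          _ = _ := by rw [hAG]
      linarith
  intro n hn
  have := key n hn
  have h3 : 0 ≤ A * (n : ℝ) ^ τ := by positivity
  linarith

end Pool.Agent.T9h62.KPZ
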