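import Pool.Agent.T9h62.KPZ.Swap
import Pool.Agent.N700.SE.UPD

/-!
# Directed polymers in dimension `1 + 1`: moving the starting point

The partition function does not change much if the starting point is moved: a polymer with a
slightly larger drift crosses the polymer which starts at the other point.
-/

set_option autoImplicit false

namespace Pool.Agent.T9h62.KPZ

open TH967.DP Pool.Agent.N662.SE
open Pool.Agent.N50.SE.SUP (wt wt_pos part_eq sum_split)
open Pool.Agent.N700.SE.UPD (part_le part_compl)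

lemma pos_zero {d n : ℕ} (w : Fin n → Step d) : pos w 0 = 0 := by
  unfold pos
  simp

lemma pos_succ {d n : ℕ} (w : Fin n → Step d) {i : ℕ} (hi : i < n) :
    pos w (i + 1) = pos w i + stepVec (w ⟨i, hi⟩) := by
  unfold pos
  have h1 : ∀ k : Fin n, (if k.val < i + 1 then stepVec (w k) else 0) =
      (if k.val < i then stepVec (w k) else 0) + (if k = ⟨i, hi⟩ then stepVec (w k) else 0) := by
    intro k
    by_cases h1 : k.val < i
    · rw [if_pos (by omega), if_pos h1, if_neg (by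
        intro h2
        rw [h2] at h1
        simp at h1), add_zero]
    · by_cases h2 : k = ⟨i, hi⟩
      · rw [if_neg h1, if_pos h2, if_pos (by rw [h2]; simp), zero_add]
      · have h3 : k.val ≠ i := fun h => h2 (Fin.ext h)
        rw [if_neg h1, if_neg h2, if_neg (by omega), zero_add]
  rw [Finset.sum_congr rfl fun k _ => h1 k, Finset.sum_add_distrib]
  congr 1
  simp

lemma pos_succ_one {n : ℕ} (w : Fin n → Step 1) {i : ℕ} (hi : i < n) :
    pos w (i + 1) 0 = pos w i 0 + 1 ∨ pos w (i + 1) 0 = pos w i 0 - 1 := by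
  rw [pos_succ w hi, Pi.add_apply]
  unfold stepVec
  have h0 : (w ⟨i, hi⟩).1 = 0 := Subsingleton.elim _ _
  rw [h0, Pi.single_eq_same]
  split_ifs
  · left; rfl
  · right; ring

lemma pos_succ_le {n : ℕ} (w : Fin n → Step 1) {i : ℕ} (hi : i < n) {σ : ℤ}
    (hσ : σ = 1 ∨ σ = -1) : σ * pos w (i + 1) 0 ≤ σ * pos w i 0 + 1 := by
  rcases pos_succ_one w hi with h | h <;> rcases hσ with rfl | rfl <;> rw [h] <;> omega

/-- two walks which exchange their order meet -/
lemma meet {τ L : ℕ} (hτ : τ ≤ L) (a : Fin τ → Step 1) (b : Fin L → Step 1) {y y' : Fin 1 → ℤ}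
    {σ : ℤ} (hσ : σ = 1 ∨ σ = -1) (hy : 0 < σ * (y 0 - y' 0)) (heven : Even (y 0 - y' 0))
    (hend : σ * ((y + pos b τ) 0 - (y' + pos a τ) 0) ≤ 0) :
    ∃ i ≤ τ, y' + pos a i = y + pos b i := by
  classical
  set f : ℕ → ℤ := fun i => σ * ((y + pos b i) 0 - (y' + pos a i) 0) with hf
  have hex : ∃ i, i ≤ τ ∧ f i ≤ 0 := ⟨τ, le_rfl, hend⟩
  set i := Nat.find hex with hi
  obtain ⟨h1, h2⟩ := Nat.find_spec hex
  have hf0 : f 0 = σ * (y 0 - y' 0) := by
    simp only [hf, pos_zero, add_zero]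
  have hstep : ∀ j, j < τ → f (j + 1) = f j ∨ f (j + 1) = f j + 2 ∨ f (j + 1) = f j - 2 := by
    intro j hj
    simp only [hf, Pi.add_apply]
    rcases pos_succ_one a hj with e1 | e1 <;>
      rcases pos_succ_one b (lt_of_lt_of_le hj hτ) with e2 | e2 <;>
      rcases hσ with rfl | rfl <;> rw [e1, e2] <;> omega
  have hev : ∀ j, j ≤ τ → Even (f j) := by
    intro j
    induction j with
    | zero =>
      intro _
      rw [hf0]
      exact heven.mul_left σ
    | succ j ih =>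
      intro hj
      have h3 := ih (by omega)
      rcases hstep j (by omega) with h4 | h4 | h4 <;> rw [h4]
      · exact h3
      · exact h3.add even_two
      · exact h3.sub even_two
  have hi0 : i ≠ 0 := by
    intro h0
    rw [← hi, h0, hf0] at h2
    linarith
  obtain ⟨j, hj⟩ := Nat.exists_eq_succ_of_ne_zero hi0
  have h3 : 0 < f j := by
    by_contra hcon
    have := Nat.find_min hex (m := j) (by rw [← hi, hj]; exact Nat.lt_succ_self j)
    exact this ⟨by omega, not_lt.1 hcon⟩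
  have h4 : 2 ≤ f j := by
    obtain ⟨r, hr⟩ := hev j (by omega)
    omega
  have h5 : f i = 0 := by
    rw [← hi] at h2
    have := hstep j (by omega)
    rw [← Nat.succ_eq_add_one, ← hj] at this
    omega
  refine ⟨i, h1, ?_⟩
  funext k
  rw [Subsingleton.elim k 0]
  have h6 : (y + pos b i) 0 - (y' + pos a i) 0 = 0 := by
    have h7 : σ * ((y + pos b i) 0 - (y' + pos a i) 0) = 0 := h5
    rcases hσ with rfl | rfl <;> omega
  omega

/-- the walks which cross the line of slope `v` at distance `D` at time `τ` for the first time -/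
def Hit (σ : ℤ) (v D : ℝ) (τ n : ℕ) : Set (Fin n → Step 1) :=
  {w | (∀ i < τ, (σ : ℝ) * ((pos w i 0 : ℝ) - i * v) < D) ∧
    D ≤ (σ : ℝ) * ((pos w τ 0 : ℝ) - τ * v)}

lemma part_hit_le (β : ℝ) (h : Fin 1 → ℝ) (η : ℕ → (Fin 1 → ℤ) → ℝ) {σ : ℤ} {v D M : ℝ}
    {τ T : ℕ} (hτ : τ ≤ T) (hM : ∀ z : Fin 1 → ℤ, |z 0| ≤ T →
      part β h (shift τ z η) (T - τ) Set.univ ≤ M) :
    part β h η T (Hit σ v D τ T) ≤ part β h η τ (Hit σ v D τ τ) * M := by
  obtain ⟨k, rfl⟩ := Nat.exists_eq_add_of_le hτ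
  rw [part_split β h η (A := Hit σ v D τ τ), part_wt β h η (Hit σ v D τ τ), Finset.sum_mul]
  · apply Finset.sum_le_sum
    intro u _
    by_cases hu : u ∈ Hit σ v D τ τ
    · rw [Set.indicator_of_mem hu, Set.indicator_of_mem hu]
      apply mul_le_mul_of_nonneg_left _ (wt_pos _ _ _ _).le
      have h1 := hM (pos u τ) (by
        have := abs_pos_le u τ 0
        push_cast
        omega)
      rw [Nat.add_sub_cancel_left] at h1
      exact h1
    · rw [Set.indicator_of_notMem hu, Set.indicator_of_notMem hu, zero_mul]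
  · intro u w
    unfold Hit
    simp only [Set.mem_ofPred_eq]
    rw [pos_append_left u w le_rfl]
    constructor
    · rintro ⟨h1, h2⟩
      refine ⟨fun i hi => ?_, h2⟩
      have := h1 i hi
      rwa [pos_append_left u w hi.le] at this
    · rintro ⟨h1, h2⟩
      refine ⟨fun i hi => ?_, h2⟩
      rw [pos_append_left u w hi.le]
      exact h1 i hi

/-- change of the drift on a set of walks with a bound for the end point -/
lemma part_drift_one {β lam M : ℝ} {h : Fin 1 → ℝ} {η : ℕ → (Fin 1 → ℤ) → ℝ} {σ : ℤ} {n : ℕ}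
    {A : Set (Fin n → Step 1)} (hl : 0 ≤ lam) (hA : ∀ w ∈ A, (σ : ℝ) * (pos w n 0 : ℝ) ≤ M) :
    part β (h + Pi.single 0 (σ * lam)) η n A ≤ Real.exp (lam * M) * part β h η n A := by
  rw [part_wt, part_wt, Finset.mul_sum]
  apply Finset.sum_le_sum
  intro w _
  by_cases hw : w ∈ A
  · rw [Set.indicator_of_mem hw, Set.indicator_of_mem hw]
    unfold wt
    rw [← Real.exp_add]
    apply Real.exp_le_exp.2
    simp only [Finset.univ_unique, Fin.default_eq_zero, Fin.isValue, Finset.sum_singleton,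
      Pi.add_apply, Pi.single_eq_same]
    have := mul_le_mul_of_nonneg_left (hA w hw) hl
    linarith
  · rw [Set.indicator_of_notMem hw, Set.indicator_of_notMem hw, mul_zero]

lemma hit_end {σ : ℤ} (hσ : σ = 1 ∨ σ = -1) {v D : ℝ} (hD0 : 0 < D) {τ : ℕ}
    {w : Fin τ → Step 1} (hw : w ∈ Hit σ v D τ τ) :
    (σ : ℝ) * (pos w τ 0 : ℝ) ≤ τ * (σ * v) + (D + 1 + |v|) := by
  obtain ⟨h1, -⟩ := hw
  have hσR : (σ : ℝ) = 1 ∨ (σ : ℝ) = -1 := by
    rcases hσ with rfl | rfl
    · left; norm_num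
    · right; norm_num
  have hv : -((σ : ℝ) * v) ≤ |v| := by
    rcases hσR with e | e <;> rw [e]
    · linarith [neg_abs_le v]
    · linarith [le_abs_self v]
  cases τ with
  | zero =>
    rw [pos_zero]
    simp only [Pi.zero_apply, Int.cast_zero, mul_zero, Nat.cast_zero, zero_mul, zero_add]
    have := abs_nonneg v
    linarith
  | succ j =>
    have h3 := h1 j (Nat.lt_succ_self j)
    have h4 := pos_succ_le w (Nat.lt_succ_self j) hσ
    have h5 : (σ : ℝ) * (pos w (j + 1) 0 : ℝ) ≤ σ * (pos w j 0 : ℝ) + 1 := by exact_mod_cast h4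
    have h6 : (σ : ℝ) * ((pos w j 0 : ℝ) - j * v) =
        σ * (pos w j 0 : ℝ) - j * (σ * v) := by ring
    rw [h6] at h3
    push_cast
    linarith

/-- **Moving the starting point.** -/
theorem join {β lam : ℝ} {h v : Fin 1 → ℝ} {η : ℕ → (Fin 1 → ℤ) → ℝ} {σ : ℤ}
    (hσ : σ = 1 ∨ σ = -1) (hl : 0 ≤ lam) {φ : (Fin 1 → ℝ) → ℝ} {T L : ℕ} (hTL : T ≤ L)
    {y y' : Fin 1 → ℤ} {R D E : ℝ} (hy : 0 < σ * (y 0 - y' 0)) (heven : Even (y 0 - y' 0))
    (hR : 0 ≤ R) (hD : (σ : ℝ) * ((y 0 : ℝ) - (y' 0 : ℝ)) + R ≤ D)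
    (hE1 : ∀ τ ≤ T, part β h (shift 0 y η) τ Set.univ ≤ Real.exp (τ * φ h + E))
    (hE2 : part β h (shift 0 y' η) T Set.univ ≤ Real.exp (T * φ h + E))
    (hE3 : Real.exp (T * φ (h + Pi.single 0 (σ * lam)) - E) ≤
      part β (h + Pi.single 0 (σ * lam)) (shift 0 y' η) T Set.univ)
    (hE4 : ∀ τ ≤ T, ∀ z : Fin 1 → ℤ, |z 0| ≤ T →
      part β (h + Pi.single 0 (σ * lam)) (shift τ (y' + z) η) (T - τ) Set.univ ≤
        Real.exp (((T - τ : ℕ) : ℝ) * φ (h + Pi.single 0 (σ * lam)) + E))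
    (hφ1 : φ h + lam * (σ * v 0) ≤ φ (h + Pi.single 0 (σ * lam)))
    (hφ2 : T * (φ h + lam * (σ * v 0)) + (lam * D + 2 * E + Real.log 2) ≤
      T * φ (h + Pi.single 0 (σ * lam))) :
    part β h (shift 0 y η) L {w | ∀ i : ℕ, i ≤ L → ∀ k, |(pos w i k : ℝ) - i * v k| ≤ R} *
      Real.exp (-(lam * (D + 1 + |v 0|) + 3 * E)) ≤
      4 * ((T : ℝ) + 1) ^ 3 * part β h (shift 0 y' η) L Set.univ := by
  set h' := h + Pi.single 0 (σ * lam) with hh'
  set a := shift 0 y' η with ha
  have hσR : (σ : ℝ) = 1 ∨ (σ : ℝ) = -1 := by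
    rcases hσ with rfl | rfl
    · left; norm_num
    · right; norm_num
  have hTp : (0 : ℝ) < (T : ℝ) + 1 := by positivity
  have hD0 : 0 < D := by
    have h1 : (1 : ℤ) ≤ σ * (y 0 - y' 0) := hy
    have h2 : (1 : ℝ) ≤ (σ : ℝ) * ((y 0 : ℝ) - (y' 0 : ℝ)) := by exact_mod_cast h1
    linarith
  -- the walks which do not cross the line
  set N : Set (Fin T → Step 1) := {w | ∃ i ≤ T, D ≤ (σ : ℝ) * ((pos w i 0 : ℝ) - i * v 0)} with hN
  have s1 : part β h' a T Nᶜ ≤ 1 / 2 * part β h' a T Set.univ := by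
    have t1 : part β h' a T Nᶜ ≤
        Real.exp (lam * (T * (σ * v 0) + D)) * part β h a T Nᶜ := by
      apply part_drift_one hl
      intro w hw
      have h1 : ¬ ∃ i ≤ T, D ≤ (σ : ℝ) * ((pos w i 0 : ℝ) - i * v 0) := hw
      push Not at h1
      have h2 := h1 T le_rfl
      have h3 : (σ : ℝ) * ((pos w T 0 : ℝ) - T * v 0) =
          σ * (pos w T 0 : ℝ) - T * (σ * v 0) := by ring
      rw [h3] at h2
      linarith
    have t2 : part β h a T Nᶜ ≤ Real.exp (T * φ h + E) :=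
      (part_mono _ _ _ (Set.subset_univ _)).trans hE2
    calc part β h' a T Nᶜ ≤ Real.exp (lam * (T * (σ * v 0) + D)) * Real.exp (T * φ h + E) :=
          t1.trans (mul_le_mul_of_nonneg_left t2 (Real.exp_pos _).le)
      _ = Real.exp (lam * (T * (σ * v 0) + D) + (T * φ h + E)) := (Real.exp_add _ _).symm
      _ ≤ Real.exp (-Real.log 2 + (T * φ h' - E)) := by
          apply Real.exp_le_exp.2
          linarith
      _ = 1 / 2 * Real.exp (T * φ h' - E) := by
          rw [Real.exp_add, Real.exp_neg, Real.exp_log (by norm_num)]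
          norm_num
      _ ≤ _ := mul_le_mul_of_nonneg_left hE3 (by norm_num)
  have s2 : 1 / 2 * part β h' a T Set.univ ≤ part β h' a T N := by
    have := part_compl β h' a T N
    linarith
  have s3 : part β h' a T N ≤ ∑ τ ∈ Finset.range (T + 1), part β h' a T (Hit σ (v 0) D τ T) := by
    apply part_le
    intro w hw
    classical
    have hex : ∃ i, i ≤ T ∧ D ≤ (σ : ℝ) * ((pos w i 0 : ℝ) - i * v 0) := hw
    obtain ⟨h1, h2⟩ := Nat.find_spec hex
    refine ⟨Nat.find hex, Finset.mem_range.2 (by omega), fun i hi => ?_, h2⟩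
    have h3 := Nat.find_min hex hi
    push Not at h3
    exact h3 (by omega)
  obtain ⟨τ, hτm, s4⟩ : ∃ τ ∈ Finset.range (T + 1),
      Real.exp (T * φ h' - E) / (2 * ((T : ℝ) + 1)) ≤ part β h' a T (Hit σ (v 0) D τ T) := by
    by_contra hcon
    push Not at hcon
    have h1 : ∑ τ ∈ Finset.range (T + 1), part β h' a T (Hit σ (v 0) D τ T) <
        ∑ _τ ∈ Finset.range (T + 1), Real.exp (T * φ h' - E) / (2 * ((T : ℝ) + 1)) :=
      Finset.sum_lt_sum_of_nonempty ⟨0, Finset.mem_range.2 (by omega)⟩ hcon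
    rw [Finset.sum_const, Finset.card_range, nsmul_eq_mul] at h1
    have h2 : (((T + 1 : ℕ) : ℝ)) * (Real.exp (T * φ h' - E) / (2 * ((T : ℝ) + 1))) =
        1 / 2 * Real.exp (T * φ h' - E) := by
      push_cast
      field_simp
    rw [h2] at h1
    have h3 := mul_le_mul_of_nonneg_left hE3 (by norm_num : (0 : ℝ) ≤ 1 / 2)
    linarith
  have hτ : τ ≤ T := by
    have := Finset.mem_range.1 hτm
    omega
  have s5 : part β h' a T (Hit σ (v 0) D τ T) ≤ part β h' a τ (Hit σ (v 0) D τ τ) *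
      Real.exp (((T - τ : ℕ) : ℝ) * φ h' + E) := by
    apply part_hit_le β h' a hτ
    intro z hz
    have e : shift τ z a = shift τ (y' + z) η := by
      funext i x
      simp only [ha, shift]
      rw [zero_add, add_assoc]
    rw [e]
    exact hE4 τ hτ z hz
  have s6 : part β h' a τ (Hit σ (v 0) D τ τ) ≤
      Real.exp (lam * (τ * (σ * v 0) + (D + 1 + |v 0|))) * part β h a τ (Hit σ (v 0) D τ τ) := by
    apply part_drift_one hl
    intro w hw
    exact hit_end hσ hD0 hw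
  -- switching
  have s7 : part β h a τ (Hit σ (v 0) D τ τ) * part β h (shift 0 y η) L
      {w | ∀ i : ℕ, i ≤ L → ∀ k, |(pos w i k : ℝ) - i * v k| ≤ R} ≤
      (((τ : ℝ) + 1) * (2 * τ + 1) ^ 1) * (part β h a L Set.univ *
        part β h (shift 0 y η) τ Set.univ) := by
    apply swap_le β h η (hτ.trans hTL)
    intro u hu b hb
    apply meet (hτ.trans hTL) u b hσ hy heven
    have h1 := hu.2
    have h2 := hb τ (hτ.trans hTL) 0
    have h3 : (σ : ℝ) * (((y + pos b τ) 0 : ℤ) - ((y' + pos u τ) 0 : ℤ)) ≤ 0 := by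
      push_cast [Pi.add_apply]
      have h4 : (σ : ℝ) * ((pos b τ 0 : ℝ) - τ * v 0) ≤ R := by
        rcases hσR with e | e <;> rw [e] <;> linarith [(abs_le.1 h2).1, (abs_le.1 h2).2]
      have h5 : (σ : ℝ) * ((y 0 : ℝ) + (pos b τ 0 : ℝ) - ((y' 0 : ℝ) + (pos u τ 0 : ℝ))) =
          σ * ((y 0 : ℝ) - (y' 0 : ℝ)) + σ * ((pos b τ 0 : ℝ) - τ * v 0) -
            σ * ((pos u τ 0 : ℝ) - τ * v 0) := by ring
      rw [h5]
      linarith
    exact_mod_cast h3
  have s8 := hE1 τ hτ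
  -- assembly
  set X := part β h a τ (Hit σ (v 0) D τ τ) with hX
  set Y := part β h (shift 0 y η) L
      {w | ∀ i : ℕ, i ≤ L → ∀ k, |(pos w i k : ℝ) - i * v k| ≤ R} with hY
  set Z := part β h a L Set.univ with hZ
  have hY0 : 0 ≤ Y := part_nonneg _ _ _ _
  have hZ0 : 0 ≤ Z := part_nonneg _ _ _ _
  have hcast : (((T - τ : ℕ) : ℝ)) = T - τ := Nat.cast_sub hτ
  rw [hcast] at s5
  -- lower bound of X
  have s9 : Real.exp (τ * φ h - lam * (D + 1 + |v 0|) - 2 * E) ≤ 2 * ((T : ℝ) + 1) * X := by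
    have t1 : Real.exp (T * φ h' - E) ≤ 2 * ((T : ℝ) + 1) *
        (Real.exp (lam * (τ * (σ * v 0) + (D + 1 + |v 0|))) * X *
          Real.exp ((T - τ) * φ h' + E)) := by
      rw [div_le_iff₀ (by positivity)] at s4
      calc Real.exp (T * φ h' - E) ≤
          part β h' a T (Hit σ (v 0) D τ T) * (2 * ((T : ℝ) + 1)) := s4
        _ ≤ (Real.exp (lam * (τ * (σ * v 0) + (D + 1 + |v 0|))) * X *
            Real.exp ((T - τ) * φ h' + E)) * (2 * ((T : ℝ) + 1)) := by
            apply mul_le_mul_of_nonneg_right _ (by positivity)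
            exact s5.trans (mul_le_mul_of_nonneg_right s6 (Real.exp_pos _).le)
        _ = _ := by ring
    have t2 : Real.exp (τ * φ h - lam * (D + 1 + |v 0|) - 2 * E) ≤
        Real.exp (T * φ h' - E) * Real.exp (-(lam * (τ * (σ * v 0) + (D + 1 + |v 0|)) +
          ((T - τ) * φ h' + E))) := by
      rw [← Real.exp_add]
      apply Real.exp_le_exp.2
      have h1 : (τ : ℝ) * (φ h + lam * (σ * v 0)) ≤ τ * φ h' :=
        mul_le_mul_of_nonneg_left hφ1 (Nat.cast_nonneg τ)
      linarith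
    refine t2.trans ?_
    calc Real.exp (T * φ h' - E) * Real.exp (-(lam * (τ * (σ * v 0) + (D + 1 + |v 0|)) +
          ((T - τ) * φ h' + E))) ≤ (2 * ((T : ℝ) + 1) *
        (Real.exp (lam * (τ * (σ * v 0) + (D + 1 + |v 0|))) * X *
          Real.exp ((T - τ) * φ h' + E))) *
          Real.exp (-(lam * (τ * (σ * v 0) + (D + 1 + |v 0|)) + ((T - τ) * φ h' + E))) :=
          mul_le_mul_of_nonneg_right t1 (Real.exp_pos _).le
      _ = 2 * ((T : ℝ) + 1) * X * (Real.exp (lam * (τ * (σ * v 0) + (D + 1 + |v 0|)) +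
            ((T - τ) * φ h' + E)) *
          Real.exp (-(lam * (τ * (σ * v 0) + (D + 1 + |v 0|)) + ((T - τ) * φ h' + E)))) := by
          rw [Real.exp_add (lam * (τ * (σ * v 0) + (D + 1 + |v 0|))) ((T - τ) * φ h' + E)]
          ring
      _ = 2 * ((T : ℝ) + 1) * X := by
          rw [← Real.exp_add, add_neg_cancel, Real.exp_zero, mul_one]
  have hτT : (τ : ℝ) ≤ T := by exact_mod_cast hτ
  have hτ0 : (0 : ℝ) ≤ τ := Nat.cast_nonneg τ
  have s10 : X * Y ≤ 2 * ((T : ℝ) + 1) ^ 2 * (Z * Real.exp (τ * φ h + E)) := by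
    refine s7.trans ?_
    apply mul_le_mul _ (mul_le_mul_of_nonneg_left s8 hZ0)
      (mul_nonneg hZ0 (part_nonneg _ _ _ _)) (by positivity)
    rw [pow_one]
    nlinarith
  calc Y * Real.exp (-(lam * (D + 1 + |v 0|) + 3 * E)) =
      Real.exp (τ * φ h - lam * (D + 1 + |v 0|) - 2 * E) * Y *
        Real.exp (-(τ * φ h + E)) := by
        rw [mul_comm (Real.exp (τ * φ h - lam * (D + 1 + |v 0|) - 2 * E)) Y, mul_assoc,
          ← Real.exp_add]
        congr 2
        ring
    _ ≤ 2 * ((T : ℝ) + 1) * X * Y * Real.exp (-(τ * φ h + E)) := by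
        apply mul_le_mul_of_nonneg_right _ (Real.exp_pos _).le
        exact mul_le_mul_of_nonneg_right s9 hY0
    _ = 2 * ((T : ℝ) + 1) * (X * Y) * Real.exp (-(τ * φ h + E)) := by ring
    _ ≤ 2 * ((T : ℝ) + 1) * (2 * ((T : ℝ) + 1) ^ 2 * (Z * Real.exp (τ * φ h + E))) *
        Real.exp (-(τ * φ h + E)) := by
        apply mul_le_mul_of_nonneg_right _ (Real.exp_pos _).le
        exact mul_le_mul_of_nonneg_left s10 (by positivity)
    _ = 4 * ((T : ℝ) + 1) ^ 3 * Z * (Real.exp (τ * φ h + E) * Real.exp (-(τ * φ h + E))) := by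
        ring
    _ = 4 * ((T : ℝ) + 1) ^ 3 * Z := by
        rw [← Real.exp_add, add_neg_cancel, Real.exp_zero, mul_one]

end Pool.Agent.T9h62.KPZ
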