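import Pool.Agent.N662.SE.Exp2
import Pool.Agent.N50.SE.Sup

/-!
# Directed polymers: the variance of the free energy of two blocks
-/

set_option autoImplicit false

open MeasureTheory ProbabilityTheory Filter Topology

namespace Pool.Agent.T9h62.KPZ

open TH967.DP Pool.Agent.N662.SE

/-- the triangle inequality for standard deviations -/
lemma sd_add {Ω : Type} [MeasurableSpace Ω] {P : Measure Ω} [IsProbabilityMeasure P]
    {A B : Ω → ℝ} (hA : MemLp A 2 P) (hB : MemLp B 2 P) :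
    Real.sqrt (variance (A + B) P) ≤ Real.sqrt (variance A P) + Real.sqrt (variance B P) := by
  have h1 : ∀ t : ℝ, 0 ≤ variance A P * (t * t) + 2 * covariance A B P * t + variance B P := by
    intro t
    have h2 := variance_add (hA.const_smul t) hB
    have h3 := variance_nonneg (t • A + B) P
    rw [h2, variance_smul, covariance_smul_left] at h3
    linarith
  have h2 := discrim_le_zero h1
  unfold discrim at h2
  have hVA := variance_nonneg A P
  have hVB := variance_nonneg B P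
  set a := Real.sqrt (variance A P) with ha
  set b := Real.sqrt (variance B P) with hb
  have ha2 : a ^ 2 = variance A P := Real.sq_sqrt hVA
  have hb2 : b ^ 2 = variance B P := Real.sq_sqrt hVB
  have ha0 : 0 ≤ a := Real.sqrt_nonneg _
  have hb0 : 0 ≤ b := Real.sqrt_nonneg _
  have hcov : covariance A B P ≤ a * b := by
    apply le_of_sq_le_sq _ (mul_nonneg ha0 hb0)
    nlinarith
  apply Real.sqrt_le_iff.2
  refine ⟨add_nonneg ha0 hb0, ?_⟩
  rw [variance_add hA hB, ← ha2, ← hb2]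
  nlinarith

/-- the second moment of an error term which is small outside an event of small probability -/
lemma sq_of_bad {Ω : Type} [MeasurableSpace Ω] {P : Measure Ω} [IsProbabilityMeasure P]
    {e : Ω → ℝ} (he4 : Integrable (fun x => e x ^ 4) P) {B : Set Ω}
    {err M C : ℝ} (hM : 0 < M) (herr : ∀ x, x ∉ B → |e x| ≤ err)
    (hB : P B ≤ ENNReal.ofReal (1 / M)) (h4 : ∫ x, e x ^ 4 ∂P ≤ C * M) :
    ∫ x, e x ^ 2 ∂P ≤ err ^ 2 + (C + 1) / 2 := by
  set B' := toMeasurable P B with hB'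
  have hBm : MeasurableSet B' := measurableSet_toMeasurable P B
  have hBP : P.real B' ≤ 1 / M := by
    unfold Measure.real
    rw [hB', measure_toMeasurable]
    refine (ENNReal.toReal_mono ENNReal.ofReal_ne_top hB).trans ?_
    rw [ENNReal.toReal_ofReal (by positivity)]
  have hpt : ∀ x, e x ^ 2 ≤ err ^ 2 + (e x ^ 4 * (1 / M) +
      M * B'.indicator (fun _ => (1 : ℝ)) x) / 2 := by
    intro x
    by_cases hx : x ∈ B'
    · rw [Set.indicator_of_mem hx]
      have h1 : 0 ≤ err ^ 2 := sq_nonneg _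
      have h2 : e x ^ 4 * (1 / M) = (e x ^ 2) ^ 2 / M := by
        field_simp
      have h3 : 2 * e x ^ 2 ≤ (e x ^ 2) ^ 2 / M + M := by
        have h4 : (e x ^ 2) ^ 2 / M + M - 2 * e x ^ 2 = (e x ^ 2 - M) ^ 2 / M := by
          field_simp
          ring
        have h5 : 0 ≤ (e x ^ 2 - M) ^ 2 / M := by positivity
        linarith
      rw [h2]
      linarith
    · rw [Set.indicator_of_notMem hx]
      have h1 : x ∉ B := fun h => hx (subset_toMeasurable P B h)
      have h2 := herr x h1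
      have h3 : e x ^ 2 ≤ err ^ 2 := by
        rw [← sq_abs (e x)]
        exact pow_le_pow_left₀ (abs_nonneg _) h2 2
      have h4 : 0 ≤ e x ^ 4 * (1 / M) := by positivity
      linarith
  have hi1 : Integrable (fun x => e x ^ 4 * (1 / M)) P := he4.mul_const _
  have hi2 : Integrable (fun x => M * B'.indicator (fun _ => (1 : ℝ)) x) P :=
    ((integrable_const (1 : ℝ)).indicator hBm).const_mul M
  have hi3 : Integrable (fun x => (e x ^ 4 * (1 / M) +
      M * B'.indicator (fun _ => (1 : ℝ)) x) / 2) P := (hi1.add hi2).div_const 2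
  have h1 : ∫ x, e x ^ 2 ∂P ≤ ∫ x, (err ^ 2 + (e x ^ 4 * (1 / M) +
      M * B'.indicator (fun _ => (1 : ℝ)) x) / 2) ∂P :=
    integral_mono_of_nonneg (Eventually.of_forall fun x => sq_nonneg _)
      ((integrable_const _).add hi3) (Eventually.of_forall hpt)
  rw [integral_add (integrable_const _) hi3, integral_div, integral_add hi1 hi2,
    integral_mul_const, integral_const_mul, integral_indicator hBm] at h1
  simp only [integral_const, probReal_univ, smul_eq_mul, mul_one,
    measureReal_restrict_apply_univ] at h1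
  have h2 : (∫ x, e x ^ 4 ∂P) * (1 / M) ≤ C := by
    rw [mul_one_div, div_le_iff₀ hM]
    exact h4
  have h3 : M * P.real B' ≤ 1 := by
    calc M * P.real B' ≤ M * (1 / M) := mul_le_mul_of_nonneg_left hBP hM.le
      _ = 1 := by field_simp
  linarith

lemma four_add (x y : ℝ) : (x + y) ^ 4 ≤ 8 * (x ^ 4 + y ^ 4) := by
  have h1 : (x + y) ^ 2 ≤ 2 * (x ^ 2 + y ^ 2) := by nlinarith [sq_nonneg (x - y)]
  have h2 : ((x + y) ^ 2) ^ 2 ≤ (2 * (x ^ 2 + y ^ 2)) ^ 2 :=
    pow_le_pow_left₀ (sq_nonneg _) h1 2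
  nlinarith [sq_nonneg (x ^ 2 - y ^ 2)]

/-- fourth moments of the free energy -/
lemma fourth (hc : S_CONC) (hi : S_ID) {d : ℕ} (hd : 1 ≤ d) {Ω : Type} [MeasurableSpace Ω]
    {P : Measure Ω} [IsProbabilityMeasure P] {ω : ℕ → (Fin d → ℤ) → Ω → ℝ} (he : IsEnv P ω)
    (hexp : ∀ b : ℝ, Integrable (fun x => Real.exp (b * ω 1 0 x)) P) (β : ℝ) :
    ∃ C : ℝ, 0 ≤ C ∧ ∀ (h : Fin d → ℝ) (m : ℕ) (z : Fin d → ℤ) (n : ℕ), 1 ≤ n →
      Integrable (fun x => (lw ω β h m z n x - free P ω β h n) ^ 4) P ∧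
      ∫ x, (lw ω β h m z n x - free P ω β h n) ^ 4 ∂P ≤ C * (n : ℝ) ^ 2 := by
  refine ⟨24 * 4 ^ 4 * (2 * Real.exp (mom P ω β)), by positivity, fun h m z n hn => ?_⟩
  have hn0 : (0 : ℝ) < n := by exact_mod_cast hn
  have hid : IdentDistrib (fun x => (lw ω β h m z n x - free P ω β h n) ^ 4)
      (fun x => (lw ω β h 0 0 n x - free P ω β h n) ^ 4) P P :=
    (hi d hd Ω P ω he β h m z n).comp (u := fun y => (y - free P ω β h n) ^ 4) (by fun_prop)
  rw [hid.integral_eq, hid.integrable_iff]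
  obtain ⟨hmeas, hint, -, -⟩ := hc d hd Ω P ω he hexp β h 0 0 n
  have h1 := conc_half hc hd he hexp β h (Set.mem_univ _) n hn
  set l : ℝ := 1 / 4 * (n : ℝ) ^ (-(1 / 2) : ℝ) with hl
  have hl0 : 0 < l := mul_pos (by norm_num) (Real.rpow_pos_of_pos hn0 _)
  set X : Ω → ℝ := fun x => lw ω β h 0 0 n x - free P ω β h n with hX
  have hXm : Measurable X := hmeas.sub_const _
  have hl4 : l ^ 4 * (n : ℝ) ^ 2 = 1 / 4 ^ 4 := by
    rw [hl, mul_pow, ← Real.rpow_natCast ((n : ℝ) ^ (-(1 / 2) : ℝ)) 4, ← Real.rpow_mul hn0.le,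
      mul_assoc, ← Real.rpow_natCast (n : ℝ) 2, ← Real.rpow_add hn0]
    norm_num
  have hpt : ∀ x, X x ^ 4 ≤ 24 / l ^ 4 * Real.exp (l * |X x|) := by
    intro x
    have h2 := Real.pow_div_factorial_le_exp (l * |X x|) (by positivity) 4
    have h3 : ((Nat.factorial 4 : ℕ) : ℝ) = 24 := by norm_num [Nat.factorial]
    rw [h3, mul_pow, div_le_iff₀ (by norm_num)] at h2
    have h4 : |X x| ^ 4 = X x ^ 4 := by
      rw [show (4 : ℕ) = 2 * 2 by norm_num, pow_mul, sq_abs, ← pow_mul]
    rw [h4] at h2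
    rw [div_mul_eq_mul_div, le_div_iff₀ (by positivity)]
    linarith
  have hexpm : Measurable fun x => Real.exp (l * |X x|) :=
    Real.measurable_exp.comp ((hXm.abs).const_mul l)
  have hexpi : Integrable (fun x => Real.exp (l * |X x|)) P := by
    refine ⟨hexpm.aestronglyMeasurable, ?_⟩
    rw [hasFiniteIntegral_iff_norm]
    refine lt_of_le_of_lt (le_of_eq ?_) (lt_of_le_of_lt h1 ENNReal.ofReal_lt_top)
    apply lintegral_congr
    intro x
    rw [Real.norm_eq_abs, abs_of_pos (Real.exp_pos _)]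
  have hexpl : ∫ x, Real.exp (l * |X x|) ∂P ≤ 2 * Real.exp (mom P ω β) := by
    rw [integral_eq_lintegral_of_nonneg_ae (Eventually.of_forall fun x => (Real.exp_pos _).le)
      hexpm.aestronglyMeasurable]
    refine (ENNReal.toReal_mono ENNReal.ofReal_ne_top h1).trans ?_
    rw [ENNReal.toReal_ofReal (by positivity)]
  have hX4 : Integrable (fun x => X x ^ 4) P := by
    apply (hexpi.const_mul (24 / l ^ 4)).mono' (hXm.pow_const 4).aestronglyMeasurable
    refine Eventually.of_forall fun x => ?_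
    rw [Real.norm_eq_abs, abs_of_nonneg (by positivity)]
    exact hpt x
  refine ⟨hX4, ?_⟩
  calc ∫ x, X x ^ 4 ∂P ≤ ∫ x, 24 / l ^ 4 * Real.exp (l * |X x|) ∂P :=
        integral_mono hX4 (hexpi.const_mul _) hpt
    _ = 24 / l ^ 4 * ∫ x, Real.exp (l * |X x|) ∂P := integral_const_mul _ _
    _ ≤ 24 / l ^ 4 * (2 * Real.exp (mom P ω β)) :=
        mul_le_mul_of_nonneg_left hexpl (by positivity)
    _ = 24 * 4 ^ 4 * (2 * Real.exp (mom P ω β)) * (n : ℝ) ^ 2 := by
        have h5 : 24 / l ^ 4 = 24 * 4 ^ 4 * (n : ℝ) ^ 2 := by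
          rw [div_eq_iff (by positivity)]
          have : 24 * 4 ^ 4 * (n : ℝ) ^ 2 * l ^ 4 = 24 * 4 ^ 4 * (l ^ 4 * (n : ℝ) ^ 2) := by ring
          rw [this, hl4]
          norm_num
        rw [h5]
        ring

/-- independence of the two blocks -/
lemma indep_two {d : ℕ} {Ω : Type} [MeasurableSpace Ω] (P : Measure Ω)
    [IsProbabilityMeasure P] (ω : ℕ → (Fin d → ℤ) → Ω → ℝ) (hω : IsEnv P ω)
    (β : ℝ) (h : Fin d → ℝ) (m n : ℕ) (z : Fin d → ℤ) :
    IndepFun (lw ω β h 0 0 m) (lw ω β h m z n) P := by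
  have hle : ∀ s : ℕ × (Fin d → ℤ), MeasurableSpace.comap (ω s.1 s.2) inferInstance ≤
      (inferInstance : MeasurableSpace Ω) := fun s => (hω.meas s.1 s.2).comap_le
  have hI := indep_iSup_of_disjoint hle hω.indep
    (S := {s : ℕ × (Fin d → ℤ) | s.1 ≤ m}) (T := {s : ℕ × (Fin d → ℤ) | m < s.1})
    (by
      rw [Set.disjoint_left]
      intro s hs ht
      simp only [Set.mem_ofPred_eq] at hs ht
      omega)
  rw [IndepFun_iff_Indep]
  refine indep_of_indep_of_le_left (indep_of_indep_of_le_right hI ?_) ?_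
  · set m2 : MeasurableSpace Ω := ⨆ s ∈ {s : ℕ × (Fin d → ℤ) | m < s.1},
      MeasurableSpace.comap (ω s.1 s.2) inferInstance with hm2
    have hmm : ∀ i, 1 ≤ i → i ≤ n → ∀ y, Measurable[m2] (ω (m + i) (z + y)) := by
      intro i hi _ y
      have h1 : MeasurableSpace.comap (ω (m + i) (z + y)) inferInstance ≤ m2 := by
        rw [hm2]
        exact le_iSup₂_of_le (m + i, z + y) (by simp only [Set.mem_ofPred_eq]; omega) le_rfl
      exact (comap_measurable (ω (m + i) (z + y))).mono h1 le_rfl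
    have h2 := @Pool.Agent.N50.SE.SUP.meas_part d Ω m2 (fun i y => ω (m + i) (z + y)) β h n hmm
    have h3 : Measurable[m2] (lw ω β h m z n) := by
      unfold lw
      exact Real.measurable_log.comp h2
    exact h3.comap_le
  · set m1 : MeasurableSpace Ω := ⨆ s ∈ {s : ℕ × (Fin d → ℤ) | s.1 ≤ m},
      MeasurableSpace.comap (ω s.1 s.2) inferInstance with hm1
    have hmm : ∀ i, 1 ≤ i → i ≤ m → ∀ y, Measurable[m1] (ω (0 + i) (0 + y)) := by
      intro i _ hi y
      have h1 : MeasurableSpace.comap (ω (0 + i) (0 + y)) inferInstance ≤ m1 := by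
        rw [hm1]
        exact le_iSup₂_of_le (0 + i, 0 + y) (by simp only [Set.mem_ofPred_eq]; omega) le_rfl
      exact (comap_measurable (ω (0 + i) (0 + y))).mono h1 le_rfl
    have h2 := @Pool.Agent.N50.SE.SUP.meas_part d Ω m1 (fun i y => ω (0 + i) (0 + y)) β h m hmm
    have h3 : Measurable[m1] (lw ω β h 0 0 m) := by
      unfold lw
      exact Real.measurable_log.comp h2
    exact h3.comap_le

lemma memLp_lw (hc : S_CONC) (hi : S_ID) {d : ℕ} (hd : 1 ≤ d) {Ω : Type} [MeasurableSpace Ω]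
    {P : Measure Ω} [IsProbabilityMeasure P] {ω : ℕ → (Fin d → ℤ) → Ω → ℝ} (he : IsEnv P ω)
    (hexp : ∀ b : ℝ, Integrable (fun x => Real.exp (b * ω 1 0 x)) P) (β : ℝ)
    (h : Fin d → ℝ) (m : ℕ) (z : Fin d → ℤ) (n : ℕ) (hn : 1 ≤ n) :
    MemLp (lw ω β h m z n) 2 P := by
  obtain ⟨C, -, hC⟩ := fourth hc hi hd he hexp β
  have h4 := (hC h m z n hn).1
  have hm := (hc d hd Ω P ω he hexp β h m z n).1
  have h2 : MemLp (fun x => lw ω β h m z n x - free P ω β h n) 2 P := by
    rw [memLp_two_iff_integrable_sq (hm.sub_const _).aestronglyMeasurable]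
    apply ((integrable_const (1 : ℝ)).add h4).mono' ((hm.sub_const _).pow_const 2).aestronglyMeasurable
    refine Eventually.of_forall fun x => ?_
    rw [Real.norm_eq_abs, abs_of_nonneg (sq_nonneg _)]
    simp only [Pi.add_apply]
    nlinarith [sq_nonneg ((lw ω β h m z n x - free P ω β h n) ^ 2 - 1)]
  have h3 := h2.add (memLp_const (free P ω β h n))
  refine h3.congr_norm hm.aestronglyMeasurable (Eventually.of_forall fun x => ?_)
  simp

/-- the standard deviations of the free energies of two blocks -/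
theorem sd_step (hc : S_CONC) (hi : S_ID) {d : ℕ} (hd : 1 ≤ d) {Ω : Type} [MeasurableSpace Ω]
    {P : Measure Ω} [IsProbabilityMeasure P] {ω : ℕ → (Fin d → ℤ) → Ω → ℝ} (he : IsEnv P ω)
    (hexp : ∀ b : ℝ, Integrable (fun x => Real.exp (b * ω 1 0 x)) P) (β : ℝ)
    (h : Fin d → ℝ) (F1 : ℝ) : ∃ C : ℝ, 0 ≤ C ∧ ∀ (q r : ℕ) (z : Fin d → ℤ)
      (B : Set Ω) (err : ℝ), 1 ≤ q → 1 ≤ r →
      |free P ω β h (q + r) - free P ω β h q - free P ω β h r| ≤ F1 * ((q + r : ℕ) : ℝ) ^ 2 →
      P B ≤ ENNReal.ofReal (1 / ((q + r : ℕ) : ℝ) ^ 8) →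
      (∀ x, x ∉ B → |lw ω β h 0 0 (q + r) x - lw ω β h 0 0 q x - lw ω β h q z r x| ≤ err) →
      Real.sqrt (variance (lw ω β h 0 0 q) P + variance (lw ω β h 0 0 r) P) ≤
        Real.sqrt (variance (lw ω β h 0 0 (q + r)) P) + Real.sqrt (err ^ 2 + C) := by
  obtain ⟨C4, hC40, hC4⟩ := fourth hc hi hd he hexp β
  refine ⟨(64 * (3 * C4 + F1 ^ 4) + 1) / 2, by positivity, ?_⟩
  intro q r z B err hq hr hfree hB herr
  set n := q + r with hn
  have hn1 : 1 ≤ n := by omega
  have hnR : (1 : ℝ) ≤ n := by exact_mod_cast hn1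
  have hqn : (q : ℝ) ≤ n := by exact_mod_cast (show q ≤ n by omega)
  have hrn : (r : ℝ) ≤ n := by exact_mod_cast (show r ≤ n by omega)
  set W := lw ω β h 0 0 n with hW
  set X1 := lw ω β h 0 0 q with hX1
  set X2 := lw ω β h q z r with hX2
  set e : Ω → ℝ := W - X1 - X2 with he'
  obtain ⟨hWi, hW4⟩ := hC4 h 0 0 n hn1
  obtain ⟨h1i, h14⟩ := hC4 h 0 0 q hq
  obtain ⟨h2i, h24⟩ := hC4 h q z r hr
  have mW := memLp_lw hc hi hd he hexp β h 0 0 n hn1
  have m1 := memLp_lw hc hi hd he hexp β h 0 0 q hq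
  have m2 := memLp_lw hc hi hd he hexp β h q z r hr
  have me : MemLp e 2 P := (mW.sub m1).sub m2
  have meas_e : Measurable e :=
    (((hc d hd Ω P ω he hexp β h 0 0 n).1).sub ((hc d hd Ω P ω he hexp β h 0 0 q).1)).sub
      ((hc d hd Ω P ω he hexp β h q z r).1)
  -- the fourth moment of the error
  set D : ℝ := free P ω β h n - free P ω β h q - free P ω β h r with hD
  have hpt : ∀ x, e x ^ 4 ≤ 64 * (((W x - free P ω β h n) ^ 4 + (X1 x - free P ω β h q) ^ 4) +
      ((X2 x - free P ω β h r) ^ 4 + D ^ 4)) := by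
    intro x
    have e1 : e x = ((W x - free P ω β h n) + -(X1 x - free P ω β h q)) +
        (-(X2 x - free P ω β h r) + D) := by
      rw [he', hD]
      simp only [Pi.sub_apply]
      ring
    rw [e1]
    have f1 := four_add ((W x - free P ω β h n) + -(X1 x - free P ω β h q))
      (-(X2 x - free P ω β h r) + D)
    have f2 := four_add (W x - free P ω β h n) (-(X1 x - free P ω β h q))
    have f3 := four_add (-(X2 x - free P ω β h r)) D
    rw [Even.neg_pow (by decide)] at f2 f3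
    linarith
  have hgi : Integrable (fun x => 64 * (((W x - free P ω β h n) ^ 4 +
      (X1 x - free P ω β h q) ^ 4) + ((X2 x - free P ω β h r) ^ 4 + D ^ 4))) P :=
    ((hWi.add h1i).add (h2i.add (integrable_const _))).const_mul 64
  have hei : Integrable (fun x => e x ^ 4) P := by
    apply hgi.mono' (meas_e.pow_const 4).aestronglyMeasurable
    refine Eventually.of_forall fun x => ?_
    rw [Real.norm_eq_abs, abs_of_nonneg (by positivity)]
    exact hpt x
  have h4 : ∫ x, e x ^ 4 ∂P ≤ 64 * (3 * C4 + F1 ^ 4) * (n : ℝ) ^ 8 := by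
    refine (integral_mono hei hgi hpt).trans ?_
    have k1 : Integrable (fun x => (W x - free P ω β h n) ^ 4 + (X1 x - free P ω β h q) ^ 4) P :=
      hWi.add h1i
    have k2 : Integrable (fun x => (X2 x - free P ω β h r) ^ 4 + D ^ 4) P :=
      h2i.add (integrable_const _)
    rw [integral_const_mul, integral_add k1 k2, integral_add hWi h1i,
      integral_add h2i (integrable_const _)]
    simp only [integral_const, probReal_univ, smul_eq_mul, one_mul]
    have g1 : C4 * (q : ℝ) ^ 2 ≤ C4 * (n : ℝ) ^ 2 :=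
      mul_le_mul_of_nonneg_left (pow_le_pow_left₀ (Nat.cast_nonneg _) hqn 2) hC40
    have g2 : C4 * (r : ℝ) ^ 2 ≤ C4 * (n : ℝ) ^ 2 :=
      mul_le_mul_of_nonneg_left (pow_le_pow_left₀ (Nat.cast_nonneg _) hrn 2) hC40
    have g3 : C4 * (n : ℝ) ^ 2 ≤ C4 * (n : ℝ) ^ 8 :=
      mul_le_mul_of_nonneg_left (pow_le_pow_right₀ hnR (by norm_num)) hC40
    have g4 : D ^ 4 ≤ F1 ^ 4 * (n : ℝ) ^ 8 := by
      have : |D| ^ 4 ≤ (F1 * (n : ℝ) ^ 2) ^ 4 := pow_le_pow_left₀ (abs_nonneg _) hfree 4
      rw [mul_pow, ← pow_mul] at this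
      have e4 : |D| ^ 4 = D ^ 4 := by
        rw [show (4 : ℕ) = 2 * 2 by norm_num, pow_mul, sq_abs, ← pow_mul]
      rw [e4] at this
      exact this
    nlinarith
  have h2 := sq_of_bad hei (M := (n : ℝ) ^ 8) (by positivity) (fun x hx => herr x hx) hB h4
  -- the variances
  have hvare : variance e P ≤ err ^ 2 + (64 * (3 * C4 + F1 ^ 4) + 1) / 2 := by
    refine (variance_le_expectation_sq meas_e.aestronglyMeasurable).trans ?_
    exact h2
  have hid := hi d hd Ω P ω he β h q z r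
  have hvar2 : variance X2 P = variance (lw ω β h 0 0 r) P := hid.variance_eq
  have hadd : variance (X1 + X2) P = variance X1 P + variance X2 P :=
    (indep_two P ω he β h q r z).variance_add m1 m2
  have hsum : X1 + X2 = W + -e := by
    rw [he']
    funext x
    simp only [Pi.add_apply, Pi.neg_apply, Pi.sub_apply]
    ring
  have h5 := sd_add mW me.neg
  rw [← hsum, hadd, hvar2, variance_neg] at h5
  refine h5.trans (add_le_add le_rfl (Real.sqrt_le_sqrt hvare))

end Pool.Agent.T9h62.KPZ
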