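import Pool.Agent.T9h62.KPZ.Asy
import Pool.Agent.T9h62.KPZ.Bad
import Pool.Agent.T9h62.KPZ.DetErr
import Pool.Agent.T9h62.KPZ.Var
import Pool.Agent.T9h62.KPZ.Iter
import Pool.Agent.T9h62.KPZ.Dual

/-!
# Directed polymers in dimension `1 + 1`: confinement and linear variance
-/

set_option autoImplicit false

open MeasureTheory ProbabilityTheory Filter Topology

namespace Pool.Agent.T9h62.KPZ

open TH967.DP Pool.Agent.N662.SE
open Pool.Agent.N700.SE.UPD (ev_pow ev_log)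

lemma parity_point (x : ℝ) (q : ℕ) : ∃ y : Fin 1 → ℤ, Even (y 0 - q) ∧ |(y 0 : ℝ) - x| ≤ 1 := by
  refine ⟨fun _ => q + 2 * round ((x - q) / 2), ?_, ?_⟩
  · have : (q : ℤ) + 2 * round ((x - q) / 2) - q = 2 * round ((x - q) / 2) := by ring
    rw [this]
    exact even_two_mul _
  · have h1 := abs_sub_round ((x - q) / 2)
    rw [abs_le] at h1 ⊢
    push_cast
    constructor <;> linarith

/-- If the polymer with drift `h` is confined with overwhelming probability to the tubes of radius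
`n^b` with small `b`, then the variance of the free energy is linear. -/
theorem linear_var (hc : S_CONC) (hi : S_ID) {Ω : Type} [MeasurableSpace Ω]
    {P : Measure Ω}
    [IsProbabilityMeasure P] {ω : ℕ → (Fin 1 → ℤ) → Ω → ℝ} (he : IsEnv P ω)
    (hexp : ∀ b : ℝ, Integrable (fun x => Real.exp (b * ω 1 0 x)) P) {β : ℝ}
    {φ : (Fin 1 → ℝ) → ℝ} (hfr : ∀ (h : Fin 1 → ℝ) (n : ℕ), free P ω β h n ≤ n * φ h)
    (hrate : ∀ (U : Set (Fin 1 → ℝ)) (ξ α C0 : ℝ), 0 < ξ → ξ < 1 → 0 < α → Conc P ω β U ξ α C0 →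
      ∃ C : ℝ, ∀ h ∈ U, ∀ n : ℕ, n * φ h ≤ free P ω β h n + C * (n : ℝ) ^ ξ * Real.log (n + 1))
    {h v : Fin 1 → ℝ} {s : ℝ} (hs : 0 < s)
    (hcurv : (∀ l : ℝ, φ h + l * v 0 ≤ φ (h + Pi.single 0 l)) → ∃ c lam0 : ℝ, 0 < c ∧ 0 < lam0 ∧
      ∀ l : ℝ, |l| ≤ lam0 → φ h + l * v 0 + c * |l| ^ (1 + 1 / s) ≤ φ (h + Pi.single 0 l))
    {b t ξ : ℝ} (hb0 : 0 < b) (ht0 : 0 < t) (ht2 : t < 1 / 2) (htξ : t < ξ) (hξ1 : ξ < 1)
    (hbt : (1 + s) * b < t + s * t / ξ)
    (hconf : ∀ K : ℕ, ∀ᶠ n : ℕ in atTop,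
      1 - 1 / (n : ℝ) ^ K ≤ ∫ x, prob β h (fun i y => ω i y x) n (tub v b n) ∂P)
    (hξ : Concentrated P ω β h ξ)
    (hvar : ∀ᶠ n : ℕ in atTop, (n : ℝ) ^ (2 * t) ≤ variance (lw ω β h 0 0 n) P) :
    ∃ c : ℝ, 0 < c ∧ ∀ᶠ n : ℕ in atTop, c * n ≤ variance (lw ω β h 0 0 n) P := by
  have hξ0 : 0 < ξ := ht0.trans htξ
  have hb1 : b < 1 := by
    have h1 : s * t / ξ < s := by
      rw [div_lt_iff₀ hξ0]
      exact mul_lt_mul_of_pos_left htξ hs
    nlinarith
  -- rates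
  obtain ⟨Ch, hCh⟩ := hrate Set.univ (1 / 2) (1 / 4) _ (by norm_num) (by norm_num) (by norm_num)
    (conc_half hc le_rfl he hexp β)
  rw [concentrated_iff le_rfl fun h n => (hc 1 le_rfl Ω P ω he hexp β h 0 0 n).2.1] at hξ
  obtain ⟨U, hUo, hhU, α, C0, hα, hU⟩ := hξ
  obtain ⟨C1, hC1⟩ := hrate U ξ α C0 hξ0 hξ1 hα hU
  -- the slope is a subgradient
  have hsub : ∀ l : ℝ, φ h + l * v 0 ≤ φ (h + Pi.single 0 l) := by
    apply sub_of_conf hc hi he hexp hfr (fun h n => hCh h (Set.mem_univ _) n) hb1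
    have h1 := hconf 1
    filter_upwards [h1, eventually_ge_atTop 8] with n hn hn8
    have hn8R : (8 : ℝ) ≤ n := by exact_mod_cast hn8
    have h2 := half_prob (measurable_prob β h (tub v b n) he.meas)
      (fun x => prob_nonneg _ _ _ _) (fun x => prob_le_one le_rfl _ _ _ _) hn
    refine (measure_mono ?_).trans (h2.trans (ENNReal.ofReal_le_ofReal ?_))
    · intro x hx hx2
      apply hx
      refine hx2.trans (prob_mono _ _ _ ?_)
      intro w hw
      exact hw n le_rfl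
    · rw [pow_one]
      have : 1 / (n : ℝ) ≤ 1 / 8 := one_div_le_one_div_of_le (by norm_num) hn8R
      linarith
  obtain ⟨c, lam0, hc0, hlam0, hcv⟩ := hcurv hsub
  -- small drifts are in `U`
  obtain ⟨lam1, hlam1, hlU⟩ : ∃ lam1 : ℝ, 0 < lam1 ∧ ∀ l : ℝ, |l| ≤ lam1 →
      h + Pi.single 0 l ∈ U := by
    obtain ⟨ε, hε, hεU⟩ := Metric.isOpen_iff.1 hUo h hhU
    refine ⟨ε / 2, by linarith, fun l hl => hεU ?_⟩
    rw [Metric.mem_ball, dist_eq_norm, add_sub_cancel_left, Pi.norm_single, Real.norm_eq_abs]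
    linarith
  obtain ⟨κ, c1, ρ, τ, hκ0, hκ1, hξc, hκτ, hρ, hbρ, e1, e2, hτ0, hτt⟩ :=
    params hs hb0 hξ0 ht0 htξ hξ1 hbt
  obtain ⟨τ', hττ', hτ't⟩ := exists_between hτt
  -- the crude bound for the superadditivity defect
  have hF1 : ∀ q r : ℕ, 1 ≤ q → 1 ≤ r →
      |free P ω β h (q + r) - free P ω β h q - free P ω β h r| ≤
        2 * |Ch| * ((q + r : ℕ) : ℝ) ^ 2 := by
    intro q r hq hr
    have hb : ∀ m : ℕ, 1 ≤ m → m ≤ q + r → m * φ h - |Ch| * ((q + r : ℕ) : ℝ) ^ 2 ≤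
        free P ω β h m := by
      intro m hm hmn
      have hmR : (1 : ℝ) ≤ m := by exact_mod_cast hm
      have hmn' : (m : ℝ) ≤ ((q + r : ℕ) : ℝ) := by exact_mod_cast hmn
      have h1 := hCh h (Set.mem_univ _) m
      have h2 : Ch * (m : ℝ) ^ (1 / 2 : ℝ) * Real.log (m + 1) ≤ |Ch| * ((q + r : ℕ) : ℝ) ^ 2 := by
        have h3 : (m : ℝ) ^ (1 / 2 : ℝ) ≤ m := by
          calc (m : ℝ) ^ (1 / 2 : ℝ) ≤ (m : ℝ) ^ (1 : ℝ) :=
                Real.rpow_le_rpow_of_exponent_le hmR (by norm_num)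
            _ = m := Real.rpow_one _
        have h4 : Real.log ((m : ℝ) + 1) ≤ m := by
          have := Real.log_le_sub_one_of_pos (show (0 : ℝ) < (m : ℝ) + 1 by positivity)
          linarith
        have h5 : 0 ≤ Real.log ((m : ℝ) + 1) := Real.log_nonneg (by linarith)
        calc Ch * (m : ℝ) ^ (1 / 2 : ℝ) * Real.log (m + 1) ≤
            |Ch| * (m : ℝ) ^ (1 / 2 : ℝ) * Real.log (m + 1) := by
              apply mul_le_mul_of_nonneg_right _ h5
              exact mul_le_mul_of_nonneg_right (le_abs_self _) (by positivity)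
          _ ≤ |Ch| * m * m := by
              apply mul_le_mul (mul_le_mul_of_nonneg_left h3 (abs_nonneg _)) h4 h5 (by positivity)
          _ = |Ch| * (m : ℝ) ^ 2 := by ring
          _ ≤ _ := mul_le_mul_of_nonneg_left (pow_le_pow_left₀ (by positivity) hmn' 2)
              (abs_nonneg _)
      linarith
    have g1 := hb q hq (by omega)
    have g2 := hb r hr (by omega)
    have g3 := hb (q + r) (by omega) le_rfl
    have g4 := hfr h q
    have g5 := hfr h r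
    have g6 := hfr h (q + r)
    have g7 : 0 ≤ |Ch| * ((q + r : ℕ) : ℝ) ^ 2 := by positivity
    have g8 : ((q + r : ℕ) : ℝ) * φ h = q * φ h + r * φ h := by push_cast; ring
    rw [abs_le]
    constructor <;> linarith
  obtain ⟨Cs, hCs0, hCs⟩ := sd_step hc hi le_rfl he hexp β h (2 * |Ch|)
  -- the recursion
  set a : ℕ → ℝ := fun n => Real.sqrt (variance (lw ω β h 0 0 n) P) with ha
  have hasq : ∀ n, a n ^ 2 = variance (lw ω β h 0 0 n) P := fun n =>
    Real.sq_sqrt (variance_nonneg _ _)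
  have hrec : ∀ᶠ n : ℕ in atTop,
      Real.sqrt (a (n / 2) ^ 2 + a (n - n / 2) ^ 2) ≤ a n + (n : ℝ) ^ τ' := by
    obtain ⟨N12, hN12⟩ := eventually_atTop.1 (hconf 12)
    filter_upwards [eventually_ge_atTop (2 * N12 + 2), bad_small (C0 := C0) hκ0 hκ1
      (show 0 < c1 - ξ by linarith) hα (⌈|v 0|⌉₊ + 2),
      numer (C1 := |C1|) (v0 := v 0) (s := s) hb1 hξ0 hκ0 hκ1 hξc hκτ hρ hbρ e1 e2 hτ0
        hc0 (abs_nonneg _) (lt_min hlam0 hlam1), err_small hτ0 hττ' hCs0] with n hn hbad hnum herr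
    obtain ⟨q, r, hq, hr, hqr⟩ : ∃ q r : ℕ, q = n / 2 ∧ r = n - n / 2 ∧ q + r = n :=
      ⟨n / 2, n - n / 2, rfl, rfl, by omega⟩
    have hbad' := hbad q r hq hqr
    obtain ⟨n1, n2, n3, n4, n5⟩ := hnum q r hq hqr
    rw [hasq, hasq, ← hr, ← hq]
    have hqN : N12 ≤ q := by omega
    have hrN : N12 ≤ r := by omega
    have hq1 : 1 ≤ q := by omega
    have hr1 : 1 ≤ r := by omega
    have hnN : N12 ≤ n := by omega
    have c12n := hN12 n hnN
    have c12q := hN12 q hqN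
    have c12r := hN12 r hrN
    clear hbad hnum hn
    clear hq hr
    subst hqr
    set T := ⌊((q + r : ℕ) : ℝ) ^ κ⌋₊ with hT
    set lam : ℝ := ((q + r : ℕ) : ℝ) ^ (-ρ) with hlam
    have hn1 : 1 ≤ q + r := by omega
    have hnR : (1 : ℝ) ≤ ((q + r : ℕ) : ℝ) := by exact_mod_cast hn1
    obtain ⟨t1, t2, t3⟩ := floor_ge hn1 hκ0.le
    rw [← hT] at t1 t2 t3
    have hlam_pos : 0 < lam := Real.rpow_pos_of_pos (by linarith) _
    have hl0 : lam ≤ lam0 := n3.trans (min_le_left _ _)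
    have hl1 : lam ≤ lam1 := n3.trans (min_le_right _ _)
    have habs : ∀ σ : ℤ, σ = 1 ∨ σ = -1 → |(σ : ℝ) * lam| = lam := by
      rintro σ (rfl | rfl)
      · simp [abs_of_pos hlam_pos]
      · simp [abs_of_pos hlam_pos]
    have hlU' : ∀ σ : ℤ, σ = 1 ∨ σ = 0 ∨ σ = -1 → h + Pi.single 0 (σ * lam) ∈ U := by
      intro σ hσ
      apply hlU
      rcases hσ with hσ | hσ | hσ
      · rw [habs σ (Or.inl hσ)]
        exact hl1
      · rw [hσ]
        simp only [Int.cast_zero, zero_mul, abs_zero]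
        exact hlam1.le
      · rw [habs σ (Or.inr hσ)]
        exact hl1
    have hP := bad_le hc hi he hexp hξ0 hα hU (β := β) (h := h) (v := v) (b := b) (lam := lam)
      (c1 := c1) (q := q) (r := r) (T := T) (M := (⌈|v 0|⌉₊ + 2) * (q + r)) t1 hlU'
      (δn := 1 / ((q + r : ℕ) : ℝ) ^ 12) (δq := 1 / (q : ℝ) ^ 12) (δr := 1 / (r : ℝ) ^ 12)
      (by positivity) (by positivity) (by positivity) c12n c12q c12r
    have hP' := hP.trans (ENNReal.ofReal_le_ofReal hbad')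
    obtain ⟨y1, hy1, hy1v⟩ := parity_point (q * v 0) q
    have hRn1 : (1 : ℝ) ≤ ((q + r : ℕ) : ℝ) ^ b := Real.one_le_rpow hnR hb0.le
    have hT0 : (0 : ℝ) < T := by
      have : (1 : ℝ) ≤ T := by exact_mod_cast t1
      linarith
    refine (hCs q r y1 _ (((q + r : ℕ) : ℝ) ^ τ) hq1 hr1 (hF1 q r hq1 hr1) hP' ?_).trans
      (add_le_add le_rfl herr)
    intro x hx
    have hG : GoodEv P ω β h v b lam c1 q r T ((⌈|v 0|⌉₊ + 2) * (q + r)) x := not_not.1 hx
    obtain ⟨G1, G2, G3, G4⟩ := hG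
    have hE'0 : 0 ≤ (T : ℝ) ^ c1 := by positivity
    have hlogT : 0 ≤ Real.log ((T : ℝ) + 1) := Real.log_nonneg (by linarith)
    have hEE : (T : ℝ) ^ c1 ≤ (T : ℝ) ^ c1 + |C1| * (T : ℝ) ^ ξ * Real.log ((T : ℝ) + 1) := by
      have : 0 ≤ |C1| * (T : ℝ) ^ ξ * Real.log ((T : ℝ) + 1) := by positivity
      linarith
    have key := det_err (β := β) (lam := lam) (h := h) (v := v) (η := fun i y => ω i y x)
      (q := q) (r := r) (T := T) (M := (⌈|v 0|⌉₊ + 2) * (q + r)) hlam_pos.le (φ := φ)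
      (F := fun g j => free P ω β g j) hfr (E' := (T : ℝ) ^ c1)
      (E := (T : ℝ) ^ c1 + |C1| * (T : ℝ) ^ ξ * Real.log ((T : ℝ) + 1))
      (R := ((q + r : ℕ) : ℝ) ^ b) (Rq := (q : ℝ) ^ b) (Rr := (r : ℝ) ^ b) n1
      (Real.rpow_le_rpow (by positivity) (by exact_mod_cast (show q ≤ q + r by omega)) hb0.le)
      (by positivity)
      (Real.rpow_le_rpow (by positivity) (by exact_mod_cast (show r ≤ q + r by omega)) hb0.le)
      n2 hE'0 hEE
      (by
        intro σ hσ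
        have h1 := hC1 _ (hlU' σ (by tauto)) T
        have h2 : C1 * (T : ℝ) ^ ξ * Real.log ((T : ℝ) + 1) ≤
            |C1| * (T : ℝ) ^ ξ * Real.log ((T : ℝ) + 1) := by
          apply mul_le_mul_of_nonneg_right _ hlogT
          exact mul_le_mul_of_nonneg_right (le_abs_self _) (by positivity)
        linarith)
      G1 G2 G3 G4
      (by
        intro σ hσ
        have h1 := hsub (σ * lam)
        linarith)
      (by
        intro σ hσ
        have h1 := hcv (σ * lam) (by rw [habs σ hσ]; exact hl0)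
        rw [habs σ hσ] at h1
        have h2 := mul_le_mul_of_nonneg_left h1 hT0.le
        have h3 : (T : ℝ) * (φ h + σ * lam * v 0 + c * lam ^ (1 + 1 / s)) =
          T * (φ h + lam * (σ * v 0)) + c * T * lam ^ (1 + 1 / s) := by ring
        rw [h3] at h2
        linarith)
      (y1 := y1) hy1 (hy1v.trans hRn1)
    rw [Pool.Agent.N700.SE.UPD.lw_zero, Pool.Agent.N700.SE.UPD.lw_zero]
    exact key.trans n5
  -- conclusion
  have hlow : ∀ᶠ n : ℕ in atTop, (n : ℝ) ^ t ≤ a n := by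
    filter_upwards [hvar, eventually_ge_atTop 1] with n hn hn1
    have hn0 : (0 : ℝ) < n := by exact_mod_cast hn1
    apply Real.le_sqrt_of_sq_le
    have e : ((n : ℝ) ^ t) ^ 2 = (n : ℝ) ^ (2 * t) := by
      rw [← Real.rpow_natCast, ← Real.rpow_mul hn0.le]
      congr 1
      push_cast
      ring
    rw [e]
    exact hn
  obtain ⟨N0, hN0⟩ := eventually_atTop.1 (hlow.and hrec)
  obtain ⟨c', hc'0, N, hN⟩ := iter (a := a) hτ't (by linarith) (N0 := N0)
    (fun n hn => (hN0 n hn).1) (fun n hn => (hN0 n hn).2)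
  refine ⟨c' ^ 2, by positivity, ?_⟩
  filter_upwards [eventually_ge_atTop N] with n hn
  have h1 := hN n hn
  rw [← hasq]
  calc c' ^ 2 * n = (c' * Real.sqrt n) ^ 2 := by
        rw [mul_pow, Real.sq_sqrt (Nat.cast_nonneg n)]
    _ ≤ a n ^ 2 := pow_le_pow_left₀ (by positivity) h1 2

end Pool.Agent.T9h62.KPZ
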