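import Pool.Agent.T9h62.KPZ.Exp
import Pool.Agent.T9h62.KPZ.Step
import Pool.Agent.T9h62.KPZ.UpEv

/-!
# Directed polymers in dimension `1 + 1`: the scaling relation
-/

set_option autoImplicit false

open MeasureTheory ProbabilityTheory Filter Topology

namespace Pool.Agent.T9h62.KPZ

open TH967.DP (Step pos energy)
open Pool.Agent.N662.SE

/-- lower curvature at almost every slope, on `Fin 1 → ℝ` -/
lemma dual_one {φ : (Fin 1 → ℝ) → ℝ} (hφ : ConvexOn ℝ Set.univ φ) {s : ℝ} (hs : 0 < s) :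
    ∀ᵐ v ∂(Measure.hausdorffMeasure s : Measure (Fin 1 → ℝ)), ∀ h : Fin 1 → ℝ,
      (∀ l : ℝ, φ h + l * v 0 ≤ φ (h + Pi.single 0 l)) → ∃ c lam0 : ℝ, 0 < c ∧ 0 < lam0 ∧
      ∀ l : ℝ, |l| ≤ lam0 → φ h + l * v 0 + c * |l| ^ (1 + 1 / s) ≤ φ (h + Pi.single 0 l) := by
  set f : ℝ → ℝ := fun t => φ (fun _ => t) with hf
  have hfc : ConvexOn ℝ Set.univ f := by
    refine ⟨convex_univ, ?_⟩
    intro x _ y _ a b ha hb hab
    have := hφ.2 (Set.mem_univ (fun _ => x)) (Set.mem_univ (fun _ => y)) ha hb hab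
    have e : a • (fun _ : Fin 1 => x) + b • (fun _ : Fin 1 => y) =
        fun _ : Fin 1 => a • x + b • y := by
      funext i
      simp
    rw [e] at this
    exact this
  have h1 := dual_curv hfc hs
  set e : (Fin 1 → ℝ) ≃ᵢ ℝ := IsometryEquiv.funUnique (Fin 1) ℝ with he
  rw [← e.hausdorffMeasure_preimage] at h1
  rw [ae_iff]
  refine measure_mono_null ?_ h1
  intro v hv hcon
  apply hv
  intro h hsub
  have hfh : ∀ l : ℝ, f (h 0 + l) = φ (h + Pi.single 0 l) := by
    intro l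
    rw [hf]
    show φ (fun _ => h 0 + l) = φ (h + Pi.single 0 l)
    congr 1
    funext i
    rw [Pi.add_apply, Subsingleton.elim i 0, Pi.single_eq_same]
  have hfh0 : f (h 0) = φ h := by
    rw [hf]
    show φ (fun _ => h 0) = φ h
    congr 1
    funext i
    rw [Subsingleton.elim i 0]
  have hev : e v = v 0 := rfl
  obtain ⟨c, lam0, hc, hl, hcv⟩ := hcon (h 0) (by
    intro y
    have h2 := hsub (y - h 0)
    rw [← hfh, ← hfh0] at h2
    have h3 : h 0 + (y - h 0) = y := by ring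
    rw [h3] at h2
    exact h2)
  refine ⟨c, lam0, hc, hl, fun l hl2 => ?_⟩
  have h4 := hcv l hl2
  rw [hfh, hfh0, hev] at h4
  exact h4

lemma variance_eq (hc : S_CONC) {d : ℕ} (hd : 1 ≤ d) {Ω : Type} [MeasurableSpace Ω]
    {P : Measure Ω} [IsProbabilityMeasure P] {ω : ℕ → (Fin d → ℤ) → Ω → ℝ} (he : IsEnv P ω)
    (hexp : ∀ b : ℝ, Integrable (fun x => Real.exp (b * ω 1 0 x)) P) (β : ℝ)
    (h : Fin d → ℝ) (n : ℕ) :
    variance (fun x => logZ β h (fun i y => ω i y x) n) P = variance (lw ω β h 0 0 n) P := by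
  obtain ⟨hm, hi, -, -⟩ := hc d hd Ω P ω he hexp β h 0 0 n
  rw [variance_logZ hd hi, variance_eq_integral hm.aemeasurable]
  rfl

/-- the lower half of the scaling relation -/
theorem lower (mgf : S_MGF) {Ω : Type} [MeasurableSpace Ω] (P : Measure Ω)
    [IsProbabilityMeasure P] (ω : ℕ → (Fin 1 → ℤ) → Ω → ℝ) (he : IsEnv P ω)
    (hexp : ∀ b : ℝ, Integrable (fun x => Real.exp (b * ω 1 0 x)) P) (β : ℝ) {s : ℝ}
    (hs : 0 < s) :
    ∀ᵐ v ∂(Measure.hausdorffMeasure s : Measure (Fin 1 → ℝ)), ∀ h : Fin 1 → ℝ,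
      (∃ c : ℝ, 0 < c ∧ ∀ᶠ n : ℕ in atTop,
        c * n ≤ variance (fun x => logZ β h (fun i y => ω i y x) n) P) ∨
      chi P ω β h * (1 + s / chiUp P ω β h) ≤ (1 + s) * wanderStrong P ω β h v := by
  have hd : 1 ≤ 1 := le_rfl
  have hc : S_CONC := Pool.Agent.N523.SE.CONC.main mgf
  have hsup : S_SUP := Pool.Agent.N50.SE.SUP.main hc
  have hcv : S_CVX := Pool.Agent.N50.SE.CVX.main hc
  have hdb : S_DBL := Pool.Agent.N97.SE.DBL.main hc
  have hr : S_RATE := Pool.Agent.N353.SE.Rate.main hsup hdb hcv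
  have hi : S_ID := Pool.Agent.N951.SE.t
  have hdx : S_DBLX := Pool.Agent.N803.SE.DBLX.main hc hi
  have hrx : S_RATEX := Pool.Agent.N316.SE.Ratex.main hr hdx
  obtain ⟨φ, hφ, hfr, hrate⟩ := hrx 1 hd Ω P ω he hexp β
  filter_upwards [dual_one hφ hs] with v hv h
  by_contra hcon
  push Not at hcon
  obtain ⟨hnl, hlt⟩ := hcon
  have hY2 := chiUp_le_half hc hd he hexp β h
  have hXY := chi_le_chiUp hc hd he hexp β h
  set X := chi P ω β h with hX
  set Y := chiUp P ω β h with hY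
  set ν := wanderStrong P ω β h v with hν
  have hν0 : 0 ≤ ν := strong_nonneg P ω β h v
  have hX0 : 0 < X := by
    have h0 : 0 ≤ X := Real.sSup_nonneg fun t ht => ht.1.le
    rcases eq_or_lt_of_le h0 with h1 | h1
    · rw [← h1, zero_mul] at hlt
      have : 0 ≤ (1 + s) * ν := by positivity
      linarith
    · exact h1
  have hY0 : 0 < Y := hX0.trans_le hXY
  have h1s : 0 < 1 + s := by linarith
  -- the exponent `b`
  have hνlt : ν < X * (1 + s / Y) / (1 + s) := by
    rw [lt_div_iff₀ h1s]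
    linarith
  obtain ⟨b, ⟨hb0, hb⟩, hbX⟩ := exists_lt_of_csInf_lt ⟨2, two_mem_strong le_rfl ω β h v⟩ hνlt
  rw [lt_div_iff₀ h1s] at hbX
  -- the exponent `t`
  have hsY : 0 < 1 + s / Y := by positivity
  obtain ⟨t, ht1, htX⟩ := exists_between (show b * (1 + s) / (1 + s / Y) < X by
    rw [div_lt_iff₀ hsY]
    exact hbX)
  have ht0 : 0 < t := lt_of_le_of_lt (by positivity) ht1
  rw [div_lt_iff₀ hsY] at ht1
  -- the exponent `ξ`
  have hcont : ContinuousAt (fun ξ : ℝ => t * (1 + s / ξ)) Y := by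
    apply ContinuousAt.mul continuousAt_const
    apply ContinuousAt.add continuousAt_const
    exact ContinuousAt.div continuousAt_const continuousAt_id hY0.ne'
  obtain ⟨δ, hδ, hδY⟩ := Metric.eventually_nhds_iff.1 (hcont.eventually (lt_mem_nhds ht1))
  obtain ⟨ξ, ⟨hξ0, hξ⟩, hξY⟩ := exists_lt_of_csInf_lt
    (s := {ξ : ℝ | 0 < ξ ∧ Concentrated P ω β h ξ})
    ⟨1 / 2, by norm_num, concentrated_half hc le_rfl he hexp β h⟩
    (show sInf {ξ : ℝ | 0 < ξ ∧ Concentrated P ω β h ξ} < Y + min δ (1 / 4) from by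
      have : 0 < min δ (1 / 4) := lt_min hδ (by norm_num)
      show Y < Y + min δ (1 / 4)
      linarith)
  have hYξ : Y ≤ ξ := csInf_le ⟨0, fun _ hx => hx.1.le⟩ ⟨hξ0, hξ⟩
  have hξ1 : ξ < 1 := by
    have := min_le_right δ (1 / 4 : ℝ)
    linarith
  have hbt : (1 + s) * b < t + s * t / ξ := by
    have h1 : dist ξ Y < δ := by
      rw [Real.dist_eq, abs_of_nonneg (by linarith)]
      have := min_le_left δ (1 / 4 : ℝ)
      linarith
    have h2 : b * (1 + s) < t * (1 + s / ξ) := hδY h1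
    have h3 : t * (1 + s / ξ) = t + s * t / ξ := by ring
    linarith
  -- the variance
  have hne : {t : ℝ | 0 < t ∧ ∀ᶠ n : ℕ in atTop, (n : ℝ) ^ (2 * t) ≤
      variance (fun x => logZ β h (fun i y => ω i y x) n) P}.Nonempty := by
    by_contra hem
    rw [Set.not_nonempty_iff_eq_empty] at hem
    have : X = 0 := by
      rw [hX]
      unfold chi
      rw [hem, Real.sSup_empty]
    linarith
  obtain ⟨t', ⟨ht'0, ht'⟩, htt'⟩ := exists_lt_of_lt_csSup hne htX
  have hvar : ∀ᶠ n : ℕ in atTop, (n : ℝ) ^ (2 * t) ≤ variance (lw ω β h 0 0 n) P := by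
    filter_upwards [ht', eventually_ge_atTop 1] with n hn hn1
    rw [variance_eq hc le_rfl he hexp β h n] at hn
    refine le_trans ?_ hn
    exact Real.rpow_le_rpow_of_exponent_le (by exact_mod_cast hn1) (by linarith)
  have hconf : ∀ K : ℕ, ∀ᶠ n : ℕ in atTop,
      1 - 1 / (n : ℝ) ^ K ≤ ∫ x, prob β h (fun i y => ω i y x) n (tub v b n) ∂P := by
    intro K
    filter_upwards [hb K] with n hn
    refine hn.trans ?_
    have hi1 := integrable_polymer (P := P) le_rfl β h
      {w : Fin n → Step 1 | ∀ i ≤ n, dev v w i ≤ (n : ℝ) ^ b} he.meas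
    have hi2 := integrable_polymer (P := P) le_rfl β h (tub v b n) he.meas
    simp_rw [← polymer_eq]
    apply integral_mono hi1 hi2
    intro x
    apply polymer_mono
    intro w hw i hi k
    exact (abs_le_dev v w i k).trans (hw i hi)
  obtain ⟨c, hc0, hlin⟩ := linear_var hc hi he hexp hfr hrate hs (hv h) hb0 ht0
    (by linarith) (by linarith) hξ1 hbt hconf hξ hvar
  exact (hnl c hc0) (by
    filter_upwards [hlin] with n hn
    rw [variance_eq hc le_rfl he hexp β h n]
    exact not_lt.2 hn)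

/-- the upper half of the scaling relation -/
theorem upper (mgf : S_MGF) {Ω : Type} [MeasurableSpace Ω] (P : Measure Ω)
    [IsProbabilityMeasure P] (ω : ℕ → (Fin 1 → ℤ) → Ω → ℝ) (he : IsEnv P ω)
    (hexp : ∀ b : ℝ, Integrable (fun x => Real.exp (b * ω 1 0 x)) P) (β : ℝ) {s : ℝ}
    (hs : 0 < s) :
    ∀ᵐ h ∂(Measure.hausdorffMeasure s : Measure (Fin 1 → ℝ)), ∃ v : Fin 1 → ℝ,
      (1 + s) * wanderStrong P ω β h v ≤ 1 + s * chiUp P ω β h := by
  have hd : 1 ≤ 1 := le_rfl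
  have hc : S_CONC := Pool.Agent.N523.SE.CONC.main mgf
  have hsup : S_SUP := Pool.Agent.N50.SE.SUP.main hc
  have hcv : S_CVX := Pool.Agent.N50.SE.CVX.main hc
  have hdb : S_DBL := Pool.Agent.N97.SE.DBL.main hc
  have hr : S_RATE := Pool.Agent.N353.SE.Rate.main hsup hdb hcv
  have hi : S_ID := Pool.Agent.N951.SE.t
  have hdx : S_DBLX := Pool.Agent.N803.SE.DBLX.main hc hi
  have hrx : S_RATEX := Pool.Agent.N316.SE.Ratex.main hr hdx
  obtain ⟨φ, hφ, hfr, hrate⟩ := hrx 1 hd Ω P ω he hexp β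
  have h1s : 0 < 1 + s := by linarith
  filter_upwards [DP.curv_one hφ hs] with h hh
  obtain ⟨v, C, hC, hcurv⟩ := hh
  refine ⟨v, ?_⟩
  have key : ∀ ξ : ℝ, 0 < ξ → ξ < 1 → Concentrated P ω β h ξ →
      wanderStrong P ω β h v ≤ (1 + s * ξ) / (1 + s) := by
    intro ξ hξ0 hξ1 hξ
    rw [concentrated_iff hd fun h n => (hc 1 hd Ω P ω he hexp β h 0 0 n).2.1] at hξ
    obtain ⟨U, hU, hhU, α, C0, hα, hC'⟩ := hξ
    by_contra hcon
    push Not at hcon
    have hlt1 : (1 + s * ξ) / (1 + s) < 1 := by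
      rw [div_lt_one h1s]
      nlinarith
    obtain ⟨b, hb1, hb2⟩ := exists_between (lt_min hcon hlt1)
    have hb3 := lt_min_iff.1 hb2
    have hb4 : 0 < b := lt_of_le_of_lt (by positivity) hb1
    have hb5 : 0 < ((1 + s) * b - 1) / s := by
      apply div_pos _ hs
      rw [div_lt_iff₀ h1s] at hb1
      nlinarith [mul_pos hs hξ0]
    have hle : wanderStrong P ω β h v ≤ b := by
      refine csInf_le ⟨0, fun _ hx => hx.1.le⟩ ⟨hb4, fun K => ?_⟩
      obtain ⟨S, ε, hε, hS, hSf⟩ := upx_ev hc hi Pool.Agent.N340.SE.pp hd P ω he hexp β hfr hrate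
        hs hC hcurv U hU hhU ξ α C0 hξ0 hξ1 hα hC' b (((1 + s) * b - 1) / s / 2) hb1 hb3.2.le
        (by linarith)
      have h1 := exp_of_ev (P := P) (f := fun n x => polymer β h (fun i y => ω i y x) n
          {w | ∀ i ≤ n, dev v w i ≤ (n : ℝ) ^ b}) (S := S) (C0 := |C0|)
        (fun n => measurable_polymer β h _ he.meas) (fun n x => polymer_nonneg _ _ _ _ _)
        (fun n x => polymer_le_one hd _ _ _ _ _) hε
        (show 0 < ((1 + s) * b - 1) / s / 2 by linarith) hS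
        (by
          filter_upwards [hSf] with n hn x hx
          refine (hn x hx).trans ?_
          rw [polymer_eq]
          apply prob_mono
          intro w hw i hi
          have := dev_le_of (v := v) (w := w) (i := i) (Real.rpow_nonneg (Nat.cast_nonneg n) b)
            (hw i hi)
          simpa using this) K
      exact h1
    linarith [hb3.1]
  have h0 : ((1 + s) * wanderStrong P ω β h v - 1) / s ≤ chiUp P ω β h := by
    apply le_csInf
    · exact ⟨1 / 2, by norm_num, concentrated_half hc hd he hexp β h⟩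
    · rintro ξ ⟨hξ0, hξ⟩
      rw [div_le_iff₀ hs]
      rcases lt_or_ge ξ 1 with h1 | h1
      · have := key ξ hξ0 h1 hξ
        rw [le_div_iff₀ h1s] at this
        linarith
      · have := key (1 / 2) (by norm_num) (by norm_num) (concentrated_half hc hd he hexp β h)
        rw [le_div_iff₀ h1s] at this
        nlinarith
  rw [div_le_iff₀ hs] at h0
  linarith

end Pool.Agent.T9h62.KPZ
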