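import Pool.Agent.T9h62.KPZ.Block
import Pool.Agent.N427.SE.UPX
import Pool.Agent.N662.SE.Prob
import Pool.Agent.N662.SE.Exp2

/-!
# Directed polymers: confinement, Markov's inequality, and subgradients
-/

set_option autoImplicit false

open MeasureTheory ProbabilityTheory Filter Topology

namespace Pool.Agent.T9h62.KPZ

open TH967.DP Pool.Agent.N662.SE
open Pool.Agent.N700.SE.UPD (ev_pow ev_log)

/-- Markov's inequality -/
lemma half_prob {Ω : Type} [MeasurableSpace Ω] {P : Measure Ω} [IsProbabilityMeasure P] {f : Ω → ℝ}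
    (hf : Measurable f) (h0 : ∀ x, 0 ≤ f x) (h1 : ∀ x, f x ≤ 1) {δ : ℝ}
    (hδ : 1 - δ ≤ ∫ x, f x ∂P) : P {x | ¬ 1 / 2 ≤ f x} ≤ ENNReal.ofReal (2 * δ) := by
  have hfi : Integrable f P := by
    apply (integrable_const (1 : ℝ)).mono' hf.aestronglyMeasurable
    refine Eventually.of_forall fun x => ?_
    rw [Real.norm_eq_abs, abs_of_nonneg (h0 x)]
    exact h1 x
  have h2 := mul_meas_ge_le_integral_of_nonneg (μ := P) (f := fun x => 1 - f x)
    (Eventually.of_forall fun x => sub_nonneg.2 (h1 x)) ((integrable_const _).sub hfi) (1 / 2)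
  rw [integral_sub (integrable_const _) hfi] at h2
  simp only [integral_const, probReal_univ, one_smul] at h2
  have h3 : P {x | ¬ 1 / 2 ≤ f x} ≤ P {x | 1 / 2 ≤ 1 - f x} := by
    apply measure_mono
    intro x hx
    have hx' : ¬ 1 / 2 ≤ f x := hx
    push Not at hx'
    show 1 / 2 ≤ 1 - f x
    linarith
  refine h3.trans ?_
  rw [← ENNReal.ofReal_toReal (measure_ne_top P {x | 1 / 2 ≤ 1 - f x})]
  apply ENNReal.ofReal_le_ofReal
  have h4 : P.real {x | 1 / 2 ≤ 1 - f x} = (P {x | 1 / 2 ≤ 1 - f x}).toReal := rfl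
  rw [← h4]
  linarith

/-- the law of the polymer measure does not depend on the shift of the environment -/
lemma ident_prob {d : ℕ} {Ω : Type} [MeasurableSpace Ω] {P : Measure Ω} [IsProbabilityMeasure P]
    {ω : ℕ → (Fin d → ℤ) → Ω → ℝ} (he : IsEnv P ω) (β : ℝ) (h : Fin d → ℝ) {n : ℕ}
    (A : Set (Fin n → Step d)) (m : ℕ) (z : Fin d → ℤ) :
    IdentDistrib (fun x => prob β h (fun i y => ω (m + i) (z + y) x) n A)
      (fun x => prob β h (fun i y => ω i y x) n A) P P := by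
  have key : ∀ (m : ℕ) (z : Fin d → ℤ),
      (fun x => prob β h (fun i y => ω (m + i) (z + y) x) n A) =
      (fun η : Site d n → ℝ => zz β h A η / zz β h Set.univ η) ∘
        (fun x (s : Site d n) => ω (m + s.1.1) (z + s.1.2) x) := by
    intro m z
    funext x
    unfold prob
    rw [part_eq_zz, part_eq_zz]
    rfl
  have key0 : (fun x => prob β h (fun i y => ω i y x) n A) =
      (fun η : Site d n → ℝ => zz β h A η / zz β h Set.univ η) ∘
        (fun x (s : Site d n) => ω (0 + s.1.1) (0 + s.1.2) x) := by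
    rw [← key]
    simp only [zero_add]
  have hF : Measurable (fun η : Site d n → ℝ => zz β h A η / zz β h Set.univ η) :=
    (measurable_zz β h A).div (measurable_zz β h Set.univ)
  have hG : ∀ (m : ℕ) (z : Fin d → ℤ),
      Measurable (fun x (s : Site d n) => ω (m + s.1.1) (z + s.1.2) x) := by
    intro m z
    rw [measurable_pi_iff]
    intro s
    exact he.meas _ _
  have hlaw : ∀ (m : ℕ) (z : Fin d → ℤ),
      P.map (fun x (s : Site d n) => ω (m + s.1.1) (z + s.1.2) x) =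
        Measure.pi (fun _ : Site d n => P.map (ω 1 0)) := by
    intro m z
    refine law he (κ := Site d n) (φ := fun s => (m + s.1.1, z + s.1.2)) ?_
    intro s t hst
    rw [Prod.mk.injEq] at hst
    apply Subtype.ext
    exact Prod.ext (Nat.add_left_cancel hst.1) (add_left_cancel hst.2)
  refine ⟨?_, ?_, ?_⟩
  · rw [key m z]
    exact (hF.comp (hG m z)).aemeasurable
  · rw [key0]
    exact (hF.comp (hG 0 0)).aemeasurable
  · rw [key m z, key0, ← Measure.map_map hF (hG m z), ← Measure.map_map hF (hG 0 0),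
      hlaw m z, hlaw 0 0]

/-- the probability that the polymer started at a given point is not confined -/
lemma conf_shift {d : ℕ} (hd : 1 ≤ d) {Ω : Type} [MeasurableSpace Ω] {P : Measure Ω}
    [IsProbabilityMeasure P] {ω : ℕ → (Fin d → ℤ) → Ω → ℝ} (he : IsEnv P ω) (β : ℝ)
    (h : Fin d → ℝ) {n : ℕ} (A : Set (Fin n → Step d)) {δ : ℝ}
    (hδ : 1 - δ ≤ ∫ x, prob β h (fun i y => ω i y x) n A ∂P) (m : ℕ) (z : Fin d → ℤ) :
    P {x | ¬ 1 / 2 ≤ prob β h (fun i y => ω (m + i) (z + y) x) n A} ≤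
      ENNReal.ofReal (2 * δ) := by
  apply half_prob (measurable_prob β h A (fun i y => he.meas _ _)) (fun x => prob_nonneg _ _ _ _)
    (fun x => prob_le_one hd _ _ _ _)
  rw [(ident_prob he β h A m z).integral_eq]
  exact hδ

/-- the slope around which the polymer is confined is a subgradient of the free energy -/
theorem sub_of_conf (hc : S_CONC) (hi : S_ID) {Ω : Type} [MeasurableSpace Ω] {P : Measure Ω}
    [IsProbabilityMeasure P] {ω : ℕ → (Fin 1 → ℤ) → Ω → ℝ} (he : IsEnv P ω)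
    (hexp : ∀ b : ℝ, Integrable (fun x => Real.exp (b * ω 1 0 x)) P) {β : ℝ}
    {φ : (Fin 1 → ℝ) → ℝ} (hfr : ∀ (h : Fin 1 → ℝ) (n : ℕ), free P ω β h n ≤ n * φ h)
    {C : ℝ} (hrate : ∀ (h : Fin 1 → ℝ) (n : ℕ),
      n * φ h ≤ free P ω β h n + C * (n : ℝ) ^ (1 / 2 : ℝ) * Real.log (n + 1))
    {h v : Fin 1 → ℝ} {b : ℝ} (hb : b < 1)
    (hconf : ∀ᶠ n : ℕ in atTop, P {x | ¬ 1 / 2 ≤ prob β h (fun i y => ω i y x) n
      {w | ∀ k, |(pos w n k : ℝ) - n * v k| ≤ (n : ℝ) ^ b}} ≤ ENNReal.ofReal (1 / 4)) (l : ℝ) :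
    φ h + l * v 0 ≤ φ (h + Pi.single 0 l) := by
  by_contra hcon
  push Not at hcon
  set h' : Fin 1 → ℝ := h + Pi.single 0 l with hh'
  set δ : ℝ := φ h + l * v 0 - φ h' with hδ
  have hδ0 : 0 < δ := by linarith
  have hU := conc_half hc le_rfl he hexp β
  set C0 : ℝ := 2 * Real.exp (mom P ω β) with hC0
  have hbad : ∀ (g : Fin 1 → ℝ) (n : ℕ), 1 ≤ n →
      P {x | (n : ℝ) ^ (3 / 4 : ℝ) ≤ |lw ω β g 0 0 n x - free P ω β g n|} ≤
        ENNReal.ofReal (|C0| * Real.exp (-(1 / 4 * (n : ℝ) ^ (3 / 4 - 1 / 2 : ℝ)))) := by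
    intro g n hn
    exact Pool.Agent.N427.SE.UPX.testX hc hi le_rfl P ω he hexp β (by norm_num) (by norm_num)
      hU (3 / 4) n hn g (Set.mem_univ _) 0 0 n le_rfl
  have hlim : Tendsto (fun n : ℕ => |C0| * Real.exp (-(1 / 4 * (n : ℝ) ^ (3 / 4 - 1 / 2 : ℝ))))
      atTop (𝓝 0) := by
    have h1 : Tendsto (fun n : ℕ => (n : ℝ) ^ (3 / 4 - 1 / 2 : ℝ)) atTop atTop :=
      (tendsto_rpow_atTop (by norm_num)).comp tendsto_natCast_atTop_atTop
    have h2 := (h1.const_mul_atTop (show (0 : ℝ) < 1 / 4 by norm_num))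
    have h3 := (Real.tendsto_exp_neg_atTop_nhds_zero.comp h2).const_mul |C0|
    rw [mul_zero] at h3
    exact h3
  have hev := hlim.eventually (gt_mem_nhds (show (0 : ℝ) < 1 / 4 by norm_num))
  obtain ⟨n, hn1, hn2, hn3, e1, e2, e3, e4, e5⟩ := (hconf.and (hev.and
    ((eventually_ge_atTop 1).and ((ev_pow (8 / δ) (3 / 4) 1 (by norm_num)).and
    ((ev_pow (4 * |l| / δ) b 1 hb).and
    ((ev_pow (8 * |C| / δ) (3 / 4) 1 (by norm_num)).and
    ((ev_log 1 (1 / 4) one_pos (by norm_num)).and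
    (ev_pow (4 * Real.log 2 / δ) 0 1 (by norm_num))))))))).exists
  have hn0 : (1 : ℝ) ≤ n := by exact_mod_cast hn3
  have hnp : (0 : ℝ) < n := by linarith
  -- a good point
  obtain ⟨x, hx1, hx2, hx3⟩ : ∃ x : Ω, 1 / 2 ≤ prob β h (fun i y => ω i y x) n
      {w | ∀ k, |(pos w n k : ℝ) - n * v k| ≤ (n : ℝ) ^ b} ∧
      |lw ω β h 0 0 n x - free P ω β h n| < (n : ℝ) ^ (3 / 4 : ℝ) ∧
      |lw ω β h' 0 0 n x - free P ω β h' n| < (n : ℝ) ^ (3 / 4 : ℝ) := by
    by_contra hno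
    push Not at hno
    have hcov : (Set.univ : Set Ω) ⊆ {x | ¬ 1 / 2 ≤ prob β h (fun i y => ω i y x) n
        {w | ∀ k, |(pos w n k : ℝ) - n * v k| ≤ (n : ℝ) ^ b}} ∪
        ({x | (n : ℝ) ^ (3 / 4 : ℝ) ≤ |lw ω β h 0 0 n x - free P ω β h n|} ∪
        {x | (n : ℝ) ^ (3 / 4 : ℝ) ≤ |lw ω β h' 0 0 n x - free P ω β h' n|}) := by
      intro x _
      by_cases hx1 : 1 / 2 ≤ prob β h (fun i y => ω i y x) n
        {w | ∀ k, |(pos w n k : ℝ) - n * v k| ≤ (n : ℝ) ^ b}
      · right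
        by_cases hx2 : |lw ω β h 0 0 n x - free P ω β h n| < (n : ℝ) ^ (3 / 4 : ℝ)
        · right
          exact hno x hx1 hx2
        · left
          exact not_lt.1 hx2
      · left
        exact hx1
    have hq : ENNReal.ofReal (|C0| * Real.exp (-(1 / 4 * (n : ℝ) ^ (3 / 4 - 1 / 2 : ℝ)))) ≤
        ENNReal.ofReal (1 / 4) := ENNReal.ofReal_le_ofReal hn2.le
    have h1 := (measure_mono hcov).trans ((measure_union_le (μ := P) _ _).trans (add_le_add hn1
      ((measure_union_le _ _).trans (add_le_add ((hbad h n hn3).trans hq)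
        ((hbad h' n hn3).trans hq)))))
    rw [measure_univ, ← ENNReal.ofReal_add (by norm_num) (by norm_num),
      ← ENNReal.ofReal_add (by norm_num) (by norm_num), ENNReal.one_le_ofReal] at h1
    norm_num at h1
  -- the inequality
  set A : Set (Fin n → Step 1) := {w | ∀ k, |(pos w n k : ℝ) - n * v k| ≤ (n : ℝ) ^ b} with hA
  have p1 := part_univ_pos (le_refl 1) β h (fun i y => ω i y x) n
  have p2 := part_univ_pos (le_refl 1) β h' (fun i y => ω i y x) n
  have g1 : 1 / 2 * part β h (fun i y => ω i y x) n Set.univ ≤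
      part β h (fun i y => ω i y x) n A := by
    unfold prob at hx1
    rwa [le_div_iff₀ p1] at hx1
  have g2 := part_drift_ge (β := β) (h := h) (h' := h') (v := v) (r := (n : ℝ) ^ b)
    (η := fun i y => ω i y x) (A := A) (fun w hw => hw)
  have g3 : (∑ k : Fin 1, (h' k - h k) * (n * v k) - (∑ k : Fin 1, |h' k - h k|) * (n : ℝ) ^ b) =
      l * (n * v 0) - |l| * (n : ℝ) ^ b := by
    simp [hh']
  rw [g3] at g2
  have g4 : Real.exp (l * (n * v 0) - |l| * (n : ℝ) ^ b - Real.log 2) *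
      part β h (fun i y => ω i y x) n Set.univ ≤ part β h' (fun i y => ω i y x) n Set.univ := by
    have g5 := part_mono β h' (fun i y => ω i y x) (Set.subset_univ A)
    have g6 := mul_le_mul_of_nonneg_left g1 (Real.exp_pos (l * (n * v 0) - |l| * (n : ℝ) ^ b)).le
    rw [Real.exp_sub _ (Real.log 2), Real.exp_log (by norm_num)]
    linarith
  have g7 := Real.log_le_log (mul_pos (Real.exp_pos _) p1) g4
  rw [Real.log_mul (Real.exp_pos _).ne' p1.ne', Real.log_exp,
    ← Pool.Agent.N700.SE.UPD.lw_zero, ← Pool.Agent.N700.SE.UPD.lw_zero] at g7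
  have f1 := hfr h' n
  have f2 := hrate h n
  rw [abs_lt] at hx2 hx3
  rw [one_mul] at e4
  rw [Real.rpow_one, div_mul_eq_mul_div, div_le_iff₀ hδ0] at e1 e2 e3 e5
  rw [Real.rpow_zero, mul_one] at e5
  have f3 : C * (n : ℝ) ^ (1 / 2 : ℝ) * Real.log (n + 1) ≤ |C| * (n : ℝ) ^ (3 / 4 : ℝ) := by
    have hl : 0 ≤ Real.log ((n : ℝ) + 1) := Real.log_nonneg (by linarith)
    calc C * (n : ℝ) ^ (1 / 2 : ℝ) * Real.log (n + 1) ≤
        |C| * (n : ℝ) ^ (1 / 2 : ℝ) * Real.log (n + 1) := by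
          apply mul_le_mul_of_nonneg_right _ hl
          exact mul_le_mul_of_nonneg_right (le_abs_self _) (Real.rpow_nonneg hnp.le _)
      _ ≤ |C| * (n : ℝ) ^ (1 / 2 : ℝ) * (n : ℝ) ^ (1 / 4 : ℝ) :=
          mul_le_mul_of_nonneg_left e4 (by positivity)
      _ = _ := by
          rw [mul_assoc, ← Real.rpow_add hnp]
          norm_num
  have f4 : n * φ h + l * (n * v 0) - n * φ h' = δ * n := by
    rw [hδ]
    ring
  nlinarith

end Pool.Agent.T9h62.KPZ
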