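import Pool.Agent.N50.SE.Sup
import Pool.Agent.N662.SE.Det

/-!
# Directed polymers: switching the tails of two walks
-/

set_option autoImplicit false

namespace Pool.Agent.T9h62.KPZ

open TH967.DP Pool.Agent.N662.SE
open Pool.Agent.N50.SE.SUP (wt wt_pos part_eq sum_split)

variable {d : ℕ}

lemma wt_append (β : ℝ) (h : Fin d → ℝ) (η : ℕ → (Fin d → ℤ) → ℝ) {i k : ℕ}
    (u : Fin i → Step d) (v : Fin k → Step d) :
    wt β h η (Fin.append u v) = wt β h η u * wt β h (shift i (pos u i) η) v := by
  unfold wt
  rw [energy_append, ← Real.exp_add]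
  congr 1
  have e : ∀ j, h j * (pos (Fin.append u v) (i + k) j : ℝ) =
      h j * (pos u i j : ℝ) + h j * (pos v k j : ℝ) := by
    intro j
    rw [pos_append_right]
    push_cast [Pi.add_apply]
    ring
  simp only [e, Finset.sum_add_distrib, mul_add]
  ring

lemma part_wt (β : ℝ) (h : Fin d → ℝ) (η : ℕ → (Fin d → ℤ) → ℝ) {n : ℕ}
    (A : Set (Fin n → Step d)) : part β h η n A = ∑ w, A.indicator (wt β h η) w := rfl

/-- the walks whose first `i` steps are in `A` -/
lemma part_split (β : ℝ) (h : Fin d → ℝ) (η : ℕ → (Fin d → ℤ) → ℝ) {i k : ℕ}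
    {S : Set (Fin (i + k) → Step d)} {A : Set (Fin i → Step d)}
    (hS : ∀ u v, Fin.append u v ∈ S ↔ u ∈ A) :
    part β h η (i + k) S = ∑ u : Fin i → Step d,
      A.indicator (fun u => wt β h η u * part β h (shift i (pos u i) η) k Set.univ) u := by
  rw [part_wt, sum_split]
  apply Finset.sum_congr rfl
  intro u _
  by_cases hu : u ∈ A
  · rw [Set.indicator_of_mem hu, part_eq, Finset.mul_sum]
    apply Finset.sum_congr rfl
    intro v _
    rw [Set.indicator_of_mem ((hS u v).2 hu), wt_append]
  · rw [Set.indicator_of_notMem hu]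
    apply Finset.sum_eq_zero
    intro v _
    rw [Set.indicator_of_notMem fun hc => hu ((hS u v).1 hc)]

lemma part_mid (β : ℝ) (h : Fin d → ℝ) (η : ℕ → (Fin d → ℤ) → ℝ) (i k : ℕ) (x : Fin d → ℤ) :
    part β h η (i + k) {w | pos w i = x} =
      part β h η i {w | pos w i = x} * part β h (shift i x η) k Set.univ := by
  rw [part_split β h η (A := {w | pos w i = x}) (fun u v => by
    simp only [Set.mem_ofPred_eq]
    rw [pos_append_left u v le_rfl]), part_wt, Finset.sum_mul]
  apply Finset.sum_congr rfl
  intro u _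
  by_cases hu : u ∈ {w : Fin i → Step d | pos w i = x}
  · rw [Set.indicator_of_mem hu, Set.indicator_of_mem hu]
    have hu' : pos u i = x := hu
    rw [hu']
  · rw [Set.indicator_of_notMem hu, Set.indicator_of_notMem hu, zero_mul]

lemma mid_swap (β : ℝ) (h : Fin d → ℝ) (η : ℕ → (Fin d → ℤ) → ℝ) {y y' u u' : Fin d → ℤ}
    {i τ L : ℕ} (hi : i ≤ τ) (hi2 : i ≤ L) (hx : y' + u = y + u') :
    part β h (shift 0 y' η) τ {w | pos w i = u} * part β h (shift 0 y η) L {w | pos w i = u'} =
      part β h (shift 0 y' η) L {w | pos w i = u} *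
        part β h (shift 0 y η) τ {w | pos w i = u'} := by
  obtain ⟨k1, rfl⟩ := Nat.exists_eq_add_of_le hi
  obtain ⟨k2, rfl⟩ := Nat.exists_eq_add_of_le hi2
  rw [part_mid, part_mid, part_mid, part_mid]
  have e : shift i u (shift 0 y' η) = shift i u' (shift 0 y η) := by
    funext j x
    unfold shift
    have : y' + (u + x) = y + (u' + x) := by
      rw [← add_assoc, ← add_assoc, hx]
    rw [this]
  rw [e]
  ring

/-- **Switching.** If every walk of `A` (started at `y'`) meets every walk of `B` (started at `y`)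
before time `τ` then the product of the partition functions is at most the product of the
partition functions with the starting points exchanged, up to a polynomial factor. -/
lemma swap_le (β : ℝ) (h : Fin d → ℝ) (η : ℕ → (Fin d → ℤ) → ℝ) {y y' : Fin d → ℤ}
    {τ L : ℕ} (hτ : τ ≤ L) (A : Set (Fin τ → Step d)) (B : Set (Fin L → Step d))
    (hmeet : ∀ a ∈ A, ∀ b ∈ B, ∃ i ≤ τ, y' + pos a i = y + pos b i) :
    part β h (shift 0 y' η) τ A * part β h (shift 0 y η) L B ≤
      ((τ + 1) * (2 * τ + 1) ^ d) * (part β h (shift 0 y' η) L Set.univ *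
        part β h (shift 0 y η) τ Set.univ) := by
  classical
  set I : Finset (ℕ × (Fin d → ℤ)) := Finset.range (τ + 1) ×ˢ
    Fintype.piFinset (fun _ : Fin d => Finset.Icc (-(τ:ℤ)) τ) with hI
  have hcard : (I.card : ℝ) = (τ + 1) * (2 * τ + 1) ^ d := by
    rw [hI, Finset.card_product, Finset.card_range, Fintype.card_piFinset]
    simp only [Int.card_Icc, Finset.prod_const, Finset.card_univ, Fintype.card_fin]
    have e : ((τ:ℤ) + 1 - -(τ:ℤ)).toNat = 2 * τ + 1 := by omega
    rw [e]
    push_cast
    ring
  have h1 : part β h (shift 0 y' η) τ A * part β h (shift 0 y η) L B ≤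
      ∑ t ∈ I, part β h (shift 0 y' η) τ {w | pos w t.1 = t.2} *
        part β h (shift 0 y η) L {w | pos w t.1 = y' + t.2 - y} := by
    simp only [part_wt]
    simp only [Finset.sum_mul_sum]
    rw [Finset.sum_comm]
    rw [show (∑ t ∈ I, ∑ i : Fin τ → Step d, ∑ j : Fin L → Step d,
        {w : Fin τ → Step d | pos w t.1 = t.2}.indicator (wt β h (shift 0 y' η)) i *
          {w : Fin L → Step d | pos w t.1 = y' + t.2 - y}.indicator (wt β h (shift 0 y η)) j) =
        ∑ j : Fin L → Step d, ∑ i : Fin τ → Step d, ∑ t ∈ I,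
        {w : Fin τ → Step d | pos w t.1 = t.2}.indicator (wt β h (shift 0 y' η)) i *
          {w : Fin L → Step d | pos w t.1 = y' + t.2 - y}.indicator (wt β h (shift 0 y η)) j by
      rw [Finset.sum_comm]
      rw [Finset.sum_comm (s := (Finset.univ : Finset (Fin L → Step d)))]
      apply Finset.sum_congr rfl
      intro i _
      rw [Finset.sum_comm]]
    apply Finset.sum_le_sum
    intro b _
    apply Finset.sum_le_sum
    intro a _
    have hnn : ∀ t ∈ I, 0 ≤ {w : Fin τ → Step d | pos w t.1 = t.2}.indicator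
        (wt β h (shift 0 y' η)) a *
        {w : Fin L → Step d | pos w t.1 = y' + t.2 - y}.indicator (wt β h (shift 0 y η)) b :=
      fun t _ => mul_nonneg (Set.indicator_nonneg (fun _ _ => (wt_pos _ _ _ _).le) _)
        (Set.indicator_nonneg (fun _ _ => (wt_pos _ _ _ _).le) _)
    by_cases ha : a ∈ A
    · by_cases hb : b ∈ B
      · obtain ⟨i, hi, hm⟩ := hmeet a ha b hb
        have hmem : (i, pos a i) ∈ I := by
          rw [hI, Finset.mem_product]
          refine ⟨Finset.mem_range.2 (by show i < τ + 1; omega), ?_⟩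
          rw [Fintype.mem_piFinset]
          intro k
          rw [Finset.mem_Icc]
          exact abs_le.1 (abs_pos_le a i k)
        refine le_trans ?_ (Finset.single_le_sum hnn hmem)
        rw [Set.indicator_of_mem ha, Set.indicator_of_mem hb,
          Set.indicator_of_mem (show a ∈ {w : Fin τ → Step d | pos w i = pos a i} from rfl),
          Set.indicator_of_mem (show b ∈ {w : Fin L → Step d | pos w i = y' + pos a i - y} from by
            show pos b i = y' + pos a i - y
            rw [hm]
            abel)]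
      · rw [Set.indicator_of_notMem hb, mul_zero]
        exact Finset.sum_nonneg hnn
    · rw [Set.indicator_of_notMem ha, zero_mul]
      exact Finset.sum_nonneg hnn
  refine h1.trans ?_
  rw [← hcard, ← nsmul_eq_mul]
  apply Finset.sum_le_card_nsmul
  intro t ht
  have ht1 : t.1 ≤ τ := by
    have := Finset.mem_range.1 (Finset.mem_product.1 ht).1
    omega
  rw [mid_swap β h η ht1 (ht1.trans hτ) (by abel)]
  exact mul_le_mul (part_mono _ _ _ (Set.subset_univ _)) (part_mono _ _ _ (Set.subset_univ _))
    (part_nonneg _ _ _ _) (part_nonneg _ _ _ _)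

end Pool.Agent.T9h62.KPZ
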